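import Pool.Agent.W667.LN

set_option autoImplicit false
set_option linter.unusedSectionVars false

/-!
A resolution of the bimodule `A₊` yields a resolution of a one-dimensional left module: the
homotopy consisting of right module morphisms, and the quotients.
-/

namespace Pool.Agent.W667.BD

open Pool.Agent.Helper832.CD

universe u v

variable {A : Type u} [NonUnitalNormedRing A] [NormedSpace ℂ A] [IsScalarTower ℂ A A]
  [SMulCommClass ℂ A A] [CompleteSpace A]

section hmt

variable (R : (plusBMod A).Resolution)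

/-- The boundary operators. -/
noncomputable def dd (i : ℕ) : (R.P (i + 1)).carrier →L[ℂ] (R.P i).carrier :=
  (R.d_hom i).1.toContinuousLinearMap

/-- The augmentation. -/
noncomputable def ee : (R.P 0).carrier →L[ℂ] (plusBMod A).carrier :=
  R.ε_hom.1.toContinuousLinearMap

lemma dd_apply (i : ℕ) (x : (R.P (i + 1)).carrier) : dd R i x = R.d i x := rfl

lemma ee_apply (x : (R.P 0).carrier) : ee R x = R.ε x := rfl

lemma dd_rh (i : ℕ) : RH (R.P (i + 1)) (R.P i) (dd R i) := (R.d_hom i).2.2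

lemma ee_rh : RH (R.P 0) (plusBMod A) (ee R) := R.ε_hom.2.2

lemma ee_dd (x : (R.P 1).carrier) : ee R (dd R 0 x) = 0 := R.ε_d x

lemma dd_dd (i : ℕ) (x : (R.P (i + 2)).carrier) : dd R i (dd R (i + 1) x) = 0 := R.d_d i x

/-- One step of the homotopy. -/
structure TT (i : ℕ) where
  t : (R.P i).carrier →L[ℂ] (R.P (i + 1)).carrier
  e : (R.P i).carrier →L[ℂ] (R.P i).carrier
  rh : RH (R.P i) (R.P (i + 1)) t
  he : ∀ x, e (dd R i x) = 0
  ht : ∀ x, dd R i (t x) = x - e x

lemma exists_start : ∃ t' : (plusBMod A).carrier →L[ℂ] (R.P 0).carrier,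
    RH (plusBMod A) (R.P 0) t' ∧ ∀ x, ee R (t' x) = x :=
  rlifts_plus (ee R) (ContinuousLinearMap.id ℂ _) R.s'_bdd.toContinuousLinearMap (ee_rh R)
    (RH.id _) R.ε_s

/-- The first right module section. -/
noncomputable def t' : (plusBMod A).carrier →L[ℂ] (R.P 0).carrier :=
  Classical.choose (exists_start R)

lemma t'_rh : RH (plusBMod A) (R.P 0) (t' R) := (Classical.choose_spec (exists_start R)).1

lemma ee_t' (x : (plusBMod A).carrier) : ee R (t' R x) = x :=
  (Classical.choose_spec (exists_start R)).2 x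

lemma exists_base : ∃ T : TT R 0, T.e = (t' R).comp (ee R) := by
  let e : (R.P 0).carrier →L[ℂ] (R.P 0).carrier := (t' R).comp (ee R)
  have he : ∀ x, e x = t' R (ee R x) := fun _ => rfl
  have hrh : RH (R.P 0) (R.P 0) (ContinuousLinearMap.id ℂ _ - e) :=
    (RH.id _).sub ((t'_rh R).comp (ee_rh R))
  obtain ⟨t, h1, h2⟩ := rlifts (R.projective 0) (dd R 0) (ContinuousLinearMap.id ℂ _ - e)
    (R.s_bdd 0).toContinuousLinearMap (dd_rh R 0) hrh (fun p => by
      have h3 := R.h_zero (p - e p)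
      have h4 : R.ε (p - e p) = 0 := by
        show ee R (p - e p) = 0
        rw [map_sub, he, ee_t', sub_self]
      rw [h4, R.s'_bdd.toIsLinearMap.map_zero, zero_add] at h3
      exact h3)
  refine ⟨⟨t, e, h1, fun x => ?_, h2⟩, rfl⟩
  rw [he, ee_dd, map_zero]

lemma exists_next (i : ℕ) (T : TT R i) : ∃ T' : TT R (i + 1), T'.e = T.t.comp (dd R i) := by
  let e : (R.P (i + 1)).carrier →L[ℂ] (R.P (i + 1)).carrier := T.t.comp (dd R i)
  have he : ∀ x, e x = T.t (dd R i x) := fun _ => rfl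
  have hrh : RH (R.P (i + 1)) (R.P (i + 1)) (ContinuousLinearMap.id ℂ _ - e) :=
    (RH.id _).sub (T.rh.comp (dd_rh R i))
  obtain ⟨t, h1, h2⟩ := rlifts (R.projective (i + 1)) (dd R (i + 1))
    (ContinuousLinearMap.id ℂ _ - e)
    (R.s_bdd (i + 1)).toContinuousLinearMap (dd_rh R (i + 1)) hrh (fun p => by
      have h3 := R.h_succ i (p - e p)
      have h4 : R.d i (p - e p) = 0 := by
        show dd R i (p - e p) = 0
        rw [map_sub, he, T.ht, T.he, sub_zero, sub_self]
      rw [h4, (R.s_bdd i).toIsLinearMap.map_zero, zero_add] at h3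
      exact h3)
  refine ⟨⟨t, e, h1, fun x => ?_, h2⟩, rfl⟩
  rw [he, dd_dd, map_zero]

/-- The homotopy. -/
noncomputable def ts : ∀ i, TT R i
  | 0 => Classical.choose (exists_base R)
  | i + 1 => Classical.choose (exists_next R i (ts i))

lemma ts_zero (x : (R.P 0).carrier) : t' R (ee R x) + dd R 0 ((ts R 0).t x) = x := by
  have h1 : (ts R 0).e = (t' R).comp (ee R) := Classical.choose_spec (exists_base R)
  rw [(ts R 0).ht, h1]
  exact add_sub_cancel _ _

lemma ts_succ (i : ℕ) (x : (R.P (i + 1)).carrier) :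
    (ts R i).t (dd R i x) + dd R (i + 1) ((ts R (i + 1)).t x) = x := by
  have h1 : (ts R (i + 1)).e = (ts R i).t.comp (dd R i) :=
    Classical.choose_spec (exists_next R i (ts R i))
  rw [(ts R (i + 1)).ht, h1]
  exact add_sub_cancel _ _

end hmt

section quot

variable (ε : A →L[ℂ] ℂ)

/-- The closed subspace generated by the elements `x a - ε(a) x`. -/
def NN (M : BMod A) : Submodule ℂ M.carrier :=
  (Submodule.span ℂ {y | ∃ (a : A) (x : M.carrier), y = M.right a x - ε a • x}).topologicalClosure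

instance instNN (M : BMod A) : IsClosed (NN ε M : Set M.carrier) :=
  Submodule.isClosed_topologicalClosure _

lemma mem_NN (M : BMod A) (a : A) (x : M.carrier) : M.right a x - ε a • x ∈ NN ε M :=
  Submodule.le_topologicalClosure _ (Submodule.subset_span ⟨a, x, rfl⟩)

lemma NN_le (M : BMod A) {E : Type v} [NormedAddCommGroup E] [NormedSpace ℂ E]
    (f : M.carrier →L[ℂ] E) (h : ∀ a x, f (M.right a x) = ε a • f x) :
    NN ε M ≤ LinearMap.ker (f : M.carrier →ₗ[ℂ] E) := by
  refine Submodule.topologicalClosure_minimal _ ?_ ?_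
  · refine Submodule.span_le.2 ?_
    rintro _ ⟨a, x, rfl⟩
    show f (M.right a x - ε a • x) = 0
    rw [map_sub, map_smul, h, sub_self]
  · exact isClosed_singleton.preimage f.continuous

/-- The quotient map. -/
noncomputable def qm (M : BMod A) : M.carrier →L[ℂ] M.carrier ⧸ NN ε M := (NN ε M).mkQL

lemma qm_surj (M : BMod A) : Function.Surjective (qm ε M) := Submodule.mkQ_surjective _

lemma qm_right (M : BMod A) (a : A) (x : M.carrier) : qm ε M (M.right a x) = ε a • qm ε M x := by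
  rw [← map_smul, ← sub_eq_zero, ← map_sub]
  exact (Submodule.Quotient.mk_eq_zero _).2 (mem_NN ε M a x)

/-- The factorization through the quotient. -/
noncomputable def ql {M : BMod A} {E : Type v} [NormedAddCommGroup E] [NormedSpace ℂ E]
    (f : M.carrier →L[ℂ] E) (h : ∀ a x, f (M.right a x) = ε a • f x) :
    (M.carrier ⧸ NN ε M) →L[ℂ] E := (NN ε M).liftQL f (NN_le ε M f h)

lemma ql_qm {M : BMod A} {E : Type v} [NormedAddCommGroup E] [NormedSpace ℂ E]
    (f : M.carrier →L[ℂ] E) (h : ∀ a x, f (M.right a x) = ε a • f x) (x : M.carrier) :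
    ql ε f h (qm ε M x) = f x := rfl

lemma qm_left_aux (M : BMod A) (b : A) (a : A) (x : M.carrier) :
    ((qm ε M).comp (lc M b)) (M.right a x) = ε a • ((qm ε M).comp (lc M b)) x := by
  show qm ε M (M.left b (M.right a x)) = ε a • qm ε M (M.left b x)
  rw [M.left_right, qm_right]

/-- The quotient of a bimodule as a left module. -/
noncomputable def Q (M : BMod A) : LMod A where
  carrier := M.carrier ⧸ NN ε M
  act b := ql ε ((qm ε M).comp (lc M b)) (qm_left_aux ε M b)
  bdd := by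
    obtain ⟨C, hC, h⟩ := M.left_bdd.bound
    refine ⟨fun a b q => ?_, fun c a q => ?_, fun a q q' => map_add _ q q',
      fun c a q => map_smul _ c q, ⟨C, hC, fun a q => ?_⟩⟩
    · obtain ⟨x, rfl⟩ := qm_surj ε M q
      exact (congrArg (qm ε M) (M.left_bdd.add_left a b x)).trans (map_add (qm ε M) _ _)
    · obtain ⟨x, rfl⟩ := qm_surj ε M q
      exact (congrArg (qm ε M) (M.left_bdd.smul_left c a x)).trans (map_smul (qm ε M) _ _)
    · refine le_of_forall_pos_le_add fun δ hδ => ?_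
      obtain ⟨x, hx1, hx2⟩ := Submodule.Quotient.norm_mk_lt q
        (show 0 < δ / (C * ‖a‖ + 1) by positivity)
      have h1 : qm ε M x = q := hx1
      rw [← h1]
      show ‖qm ε M (M.left a x)‖ ≤ C * ‖a‖ * ‖qm ε M x‖ + δ
      have h2 : ‖qm ε M (M.left a x)‖ ≤ ‖M.left a x‖ := Submodule.Quotient.norm_mk_le _ _
      have h3 := h a x
      rw [h1]
      have h4 : C * ‖a‖ * ‖x‖ ≤ C * ‖a‖ * (‖q‖ + δ / (C * ‖a‖ + 1)) :=
        mul_le_mul_of_nonneg_left hx2.le (by positivity)
      have h5 : C * ‖a‖ * (δ / (C * ‖a‖ + 1)) ≤ δ := by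
        rw [mul_div_assoc', div_le_iff₀ (by positivity)]
        nlinarith [norm_nonneg a]
      have h6 : ‖(M.left a x)‖ ≤ C * ‖a‖ * ‖x‖ := h3
      calc ‖qm ε M (M.left a x)‖ ≤ C * ‖a‖ * ‖x‖ := h2.trans h6
        _ ≤ C * ‖a‖ * (‖q‖ + δ / (C * ‖a‖ + 1)) := h4
        _ = C * ‖a‖ * ‖q‖ + C * ‖a‖ * (δ / (C * ‖a‖ + 1)) := by ring
        _ ≤ C * ‖a‖ * ‖q‖ + δ := by linarith
  act_mul a b q := by
    obtain ⟨x, rfl⟩ := qm_surj ε M q
    show qm ε M (M.left (a * b) x) = qm ε M (M.left a (M.left b x))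
    rw [M.left_mul]

lemma Q_act (M : BMod A) (a : A) (x : M.carrier) :
    (Q ε M).act a (qm ε M x) = qm ε M (M.left a x) := rfl

/-- The induced operator on the quotients. -/
noncomputable def qmap {M N : BMod A} (f : M.carrier →L[ℂ] N.carrier) (h : RH M N f) :
    (Q ε M).carrier →L[ℂ] (Q ε N).carrier :=
  ql ε ((qm ε N).comp f) (fun a x => by
    show qm ε N (f (M.right a x)) = ε a • qm ε N (f x)
    rw [h, qm_right])

lemma qmap_qm {M N : BMod A} (f : M.carrier →L[ℂ] N.carrier) (h : RH M N f) (x : M.carrier) :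
    qmap ε f h (qm ε M x) = qm ε N (f x) := rfl

lemma qmap_hom {M N : BMod A} (f : M.carrier →L[ℂ] N.carrier) (h : RH M N f)
    (hl : ∀ a x, f (M.left a x) = N.left a (f x)) : LMod.IsHom (Q ε M) (Q ε N) (qmap ε f h) := by
  refine ⟨(qmap ε f h).isBoundedLinearMap, fun a q => ?_⟩
  obtain ⟨x, rfl⟩ := qm_surj ε M q
  show qm ε N (f (M.left a x)) = qm ε N (N.left a (f x))
  rw [hl]

/-- A left module with the right action given by `ε`. -/
noncomputable def tw (hε : ∀ a b, ε (a * b) = ε a * ε b) (Y : LMod A) : BMod A where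
  carrier := Y.carrier
  left := Y.act
  right a y := ε a • y
  left_bdd := Y.bdd
  right_bdd := ((ContinuousLinearMap.lsmul ℂ ℂ : ℂ →L[ℂ] Y.carrier →L[ℂ] Y.carrier).comp
    ε).isBoundedBilinearMap
  left_mul := Y.act_mul
  right_mul a b y := by
    show ε (a * b) • y = ε b • ε a • y
    rw [hε, mul_comm, mul_smul]
  left_right a b y := (Y.bdd.isBoundedLinearMap_right a).toIsLinearMap.map_smul (ε b) y

lemma Q_proj (hε : ∀ a b, ε (a * b) = ε a * ε b) {P : BMod A} (hP : P.Projective) :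
    (Q ε P).Projective := by
  intro Y Z σ φ hσ hσ' hφ
  have h1 : BMod.IsHom (tw ε hε Y) (tw ε hε Z) σ :=
    ⟨hσ.1, hσ.2, fun a x => hσ.1.toIsLinearMap.map_smul (ε a) x⟩
  have h2 : BMod.IsHom P (tw ε hε Z) (fun p => φ (qm ε P p)) := by
    refine ⟨hφ.1.comp (qm ε P).isBoundedLinearMap, fun a p => hφ.2 a (qm ε P p), fun a p => ?_⟩
    show φ (qm ε P (P.right a p)) = ε a • φ (qm ε P p)
    rw [qm_right]
    exact hφ.1.toIsLinearMap.map_smul (ε a) (qm ε P p)
  obtain ⟨ψ, h3, h4⟩ := hP (tw ε hε Y) (tw ε hε Z) σ (fun p => φ (qm ε P p)) h1 hσ' h2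
  let ψ' : P.carrier →L[ℂ] Y.carrier := h3.1.toContinuousLinearMap
  have h5 : ∀ a x, ψ' (P.right a x) = ε a • ψ' x := h3.2.2
  refine ⟨ql ε ψ' h5, ⟨(ql ε ψ' h5).isBoundedLinearMap, fun a q => ?_⟩, fun q => ?_⟩
  · obtain ⟨x, rfl⟩ := qm_surj ε P q
    exact h3.2.1 a x
  · obtain ⟨x, rfl⟩ := qm_surj ε P q
    exact h4 x

/-- The resolution of the quotient. -/
noncomputable def QR (hε : ∀ a b, ε (a * b) = ε a * ε b) (R : (plusBMod A).Resolution) :
    (Q ε (plusBMod A)).Resolution where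
  P i := Q ε (R.P i)
  ε := qmap ε (ee R) (ee_rh R)
  d i := qmap ε (dd R i) (dd_rh R i)
  s' := qmap ε (t' R) (t'_rh R)
  s i := qmap ε (ts R i).t (ts R i).rh
  projective i := Q_proj ε hε (R.projective i)
  ε_hom := qmap_hom ε _ _ R.ε_hom.2.1
  d_hom i := qmap_hom ε _ _ (R.d_hom i).2.1
  s'_bdd := ContinuousLinearMap.isBoundedLinearMap _
  s_bdd i := ContinuousLinearMap.isBoundedLinearMap _
  ε_d q := by
    obtain ⟨x, rfl⟩ := qm_surj ε _ q
    show qm ε _ (ee R (dd R 0 x)) = 0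
    rw [ee_dd, map_zero]
  d_d i q := by
    obtain ⟨x, rfl⟩ := qm_surj ε _ q
    show qm ε _ (dd R i (dd R (i + 1) x)) = 0
    rw [dd_dd, map_zero]
  ε_s q := by
    obtain ⟨x, rfl⟩ := qm_surj ε _ q
    show qm ε _ (ee R (t' R x)) = qm ε _ x
    rw [ee_t']
  h_zero q := by
    obtain ⟨x, rfl⟩ := qm_surj ε _ q
    show qm ε _ (t' R (ee R x)) + qm ε _ (dd R 0 ((ts R 0).t x)) = qm ε _ x
    rw [← map_add, ts_zero]
  h_succ i q := by
    obtain ⟨x, rfl⟩ := qm_surj ε _ q
    show qm ε _ ((ts R i).t (dd R i x)) + qm ε _ (dd R (i + 1) ((ts R (i + 1)).t x)) = qm ε _ x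
    rw [← map_add, ts_succ]

lemma Q_hasResolution (hε : ∀ a b, ε (a * b) = ε a * ε b) (n : ℕ)
    (h : (plusBMod A).HasResolution n) : (Q ε (plusBMod A)).HasResolution n := by
  obtain ⟨R, hR⟩ := h
  refine ⟨QR ε hε R, fun i hi => ?_⟩
  have h1 : Subsingleton (R.P i).carrier := hR i hi
  exact (qm_surj ε (R.P i)).subsingleton

/-- The functional `(r, a) ↦ r + ε(a)`. -/
noncomputable def lam : Plus A →L[ℂ] ℂ := WithLp.fstL 1 ℂ ℂ A + ε.comp (WithLp.sndL 1 ℂ ℂ A)

lemma lam_apply (x : Plus A) : lam ε x = x.fst + ε x.snd := rfl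

lemma lam_right (hε : ∀ a b, ε (a * b) = ε a * ε b) (a : A) (x : Plus A) :
    lam ε (plusRight a x) = ε a • lam ε x := by
  rw [lam_apply, lam_apply]
  show (0 : ℂ) + ε (x.fst • a + x.snd * a) = ε a * (x.fst + ε x.snd)
  rw [map_add, map_smul, hε, smul_eq_mul]
  ring

lemma lam_left (hε : ∀ a b, ε (a * b) = ε a * ε b) (a : A) (x : Plus A) :
    lam ε (plusLeft a x) = ε a • lam ε x := by
  rw [lam_apply, lam_apply]
  show (0 : ℂ) + ε (x.fst • a + a * x.snd) = ε a * (x.fst + ε x.snd)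
  rw [map_add, map_smul, hε, smul_eq_mul]
  ring

lemma qm_lam (x : Plus A) : qm ε (plusBMod A) x = lam ε x • qm ε (plusBMod A) (one A) := by
  have e3 : x = x.fst • one A + plusRight x.snd (one A) := by
    refine plus_ext ?_ ?_
    · show x.fst = x.fst * 1 + 0
      rw [mul_one, add_zero]
    · show x.snd = x.fst • (0 : A) + ((1 : ℂ) • x.snd + 0 * x.snd)
      rw [smul_zero, one_smul, zero_mul, add_zero, zero_add]
  have e4 : qm ε (plusBMod A) x =
      qm ε (plusBMod A) (x.fst • one A + plusRight x.snd (one A)) := congrArg _ e3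
  have e5 : qm ε (plusBMod A) (x.fst • one A + plusRight x.snd (one A)) =
      x.fst • qm ε (plusBMod A) (one A) + ε x.snd • qm ε (plusBMod A) (one A) := by
    refine (map_add (qm ε (plusBMod A)) _ _).trans ?_
    exact congrArg₂ (· + ·) (map_smul (qm ε (plusBMod A)) _ _)
      (qm_right ε (plusBMod A) x.snd (one A))
  rw [e4, e5, lam_apply, add_smul]

/-- The quotient is one-dimensional. -/
noncomputable def qe (hε : ∀ a b, ε (a * b) = ε a * ε b) : ℂ ≃L[ℂ] (Q ε (plusBMod A)).carrier :=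
  ContinuousLinearEquiv.equivOfInverse
    (ContinuousLinearMap.toSpanSingleton ℂ (qm ε (plusBMod A) (one A)))
    (ql ε (M := plusBMod A) (lam ε) (lam_right ε hε))
    (fun z => by
      show ql ε (M := plusBMod A) (lam ε) (lam_right ε hε) (z • qm ε (plusBMod A) (one A)) = z
      rw [map_smul]
      show z * lam ε (one A) = z
      have : lam ε (one A) = 1 := by
        rw [lam_apply]
        show (1 : ℂ) + ε 0 = 1
        rw [map_zero, add_zero]
      rw [this, mul_one])
    (fun q => by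
      obtain ⟨x, rfl⟩ := qm_surj ε _ q
      exact (qm_lam ε x).symm)

lemma qm_left (hε : ∀ a b, ε (a * b) = ε a * ε b) (a : A) (x : Plus A) :
    qm ε (plusBMod A) (plusLeft a x) = ε a • qm ε (plusBMod A) x := by
  rw [qm_lam ε (plusLeft a x), lam_left ε hε, qm_lam ε x, smul_assoc]

lemma Q_act_eq (hε : ∀ a b, ε (a * b) = ε a * ε b) (a : A) (q : (Q ε (plusBMod A)).carrier) :
    (Q ε (plusBMod A)).act a q = ε a • q := by
  obtain ⟨x, rfl⟩ := qm_surj ε (plusBMod A) q
  exact qm_left ε hε a x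

/-- A resolution of the bimodule `A₊` yields a resolution of a one-dimensional module. -/
theorem exists_aug (hε : ∀ a b, ε (a * b) = ε a * ε b) :
    ∃ (X : LMod A) (_ : ℂ ≃L[ℂ] X.carrier), (∀ a x, X.act a x = ε a • x) ∧
      ∀ n, (plusBMod A).HasResolution n → X.HasResolution n :=
  ⟨Q ε (plusBMod A), qe ε hε, Q_act_eq ε hε, fun n h => Q_hasResolution ε hε n h⟩

end quot

end Pool.Agent.W667.BD
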