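import Pool.Agent.W667.LM
import Pool.Agent.W667.LO

set_option autoImplicit false
set_option linter.unusedSectionVars false

/-!
The homological dimensions of `L¹(G)` for a non-compact locally compact group `G`.
-/

namespace Pool.Agent.W667

open MeasureTheory Filter Topology Pool.Agent.Helper832.CD Pool.Agent.H203R3.BH

universe u

section main

variable {G : Type u} [TopologicalSpace G] [Group G] [IsTopologicalGroup G] [T2Space G]
  [LocallyCompactSpace G] [NoncompactSpace G] [MeasurableSpace G] [BorelSpace G]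
  (μ : Measure G) [μ.IsHaarMeasure] [μ.Regular]

theorem aug_dh : (Aug μ).dh = ⊤ :=
  dh_top (X := Aug μ) (ContinuousLinearEquiv.ulift (R₁ := ℂ) (M₁ := ℂ)).symm fun _ _ => rfl

theorem aug_irr : IsIrreducible (Aug μ) := by
  obtain ⟨K, b, -, -, hb⟩ := exists_bump (μ := μ) (Set.univ : Set G) Filter.univ_mem
  refine ⟨⟨b, ULift.up 1, ?_⟩, fun N _ => ?_⟩
  · show (∫ t, b t ∂μ) • (ULift.up 1 : ULift.{u} ℂ) ≠ 0
    rw [hb.int, one_smul]
    intro h
    exact one_ne_zero (congrArg ULift.down h)
  · by_cases h : ∃ v ∈ N, v ≠ 0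
    · right
      obtain ⟨v, hv, hv0⟩ := h
      rw [eq_top_iff]
      intro w _
      have hv0' : (show ULift.{u} ℂ from v).down ≠ 0 := fun h => hv0 (ULift.ext _ _ h)
      have e : w = ((show ULift.{u} ℂ from w).down / (show ULift.{u} ℂ from v).down) • v := by
        apply ULift.ext
        show (show ULift.{u} ℂ from w).down = ((show ULift.{u} ℂ from w).down /
          (show ULift.{u} ℂ from v).down) * (show ULift.{u} ℂ from v).down
        field_simp
      rw [e]
      exact N.smul_mem _ hv
    · left
      push Not at h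
      rw [eq_bot_iff]
      intro v hv
      rw [Submodule.mem_bot]
      exact h v hv

theorem ds_top : ds (GA μ) = ⊤ := by
  refine top_le_iff.1 ?_
  rw [← aug_dh μ]
  exact le_iSup₂_of_le (Aug μ) (aug_irr μ) le_rfl

theorem dg_top : dg (GA μ) = ⊤ := by
  refine top_le_iff.1 ?_
  rw [← ds_top μ]
  exact ds_le_dg (GA μ)

theorem db_top : db (GA μ) = ⊤ := by
  obtain ⟨X, i, hX, hX'⟩ := BD.exists_aug (augc μ) (augc_mul μ)
  have h1 : ∀ n, ¬ (plusBMod (GA μ)).HasResolution n := fun n hn =>
    no_resolution (X := X) i (fun a x => hX a x) n (hX' n hn)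
  simp only [db, BMod.dh, iInf_eq_top]
  intro n hn
  exact absurd hn (h1 n)

end main

end Pool.Agent.W667
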