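import Mathlib

set_option autoImplicit false
set_option linter.unusedSectionVars false

/-!
Bochner `L¹` spaces on a locally compact group: multiplication by a strongly continuous bounded
family of operators, integration, translation, restriction, elementary tensors.
-/

namespace Pool.Agent.W667

open MeasureTheory Filter Topology

universe u v v' v''

section basic

variable {G : Type u} [TopologicalSpace G] [T2Space G] [MeasurableSpace G] [BorelSpace G]
  {μ : Measure G} [IsLocallyFiniteMeasure μ] [μ.Regular]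
  {E : Type v} {E' : Type v'} {E'' : Type v''} [NormedAddCommGroup E] [NormedSpace ℂ E]
  [CompleteSpace E]
  [NormedAddCommGroup E'] [NormedSpace ℂ E'] [CompleteSpace E']
  [NormedAddCommGroup E''] [NormedSpace ℂ E''] [CompleteSpace E'']

/-- A continuous function is almost everywhere strongly measurable on a set of finite measure. -/
lemma aesm_finite (f : G → E') (hf : Continuous f) (s : Set G) (hs : MeasurableSet s)
    (hμ : μ s ≠ ⊤) : AEStronglyMeasurable f (μ.restrict s) := by
  have h1 : ∀ n : ℕ, ∃ K, K ⊆ s ∧ IsCompact K ∧ μ (s \ K) < ENNReal.ofReal (1 / ((n : ℝ) + 1)) := by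
    intro n
    exact hs.exists_isCompact_sdiff_lt hμ (by
      have : (0 : ℝ) < 1 / ((n : ℝ) + 1) := by positivity
      simpa using this)
  choose K hK1 hK2 hK3 using h1
  have h2 : μ (s \ ⋃ n, K n) = 0 := by
    refine le_antisymm ?_ (zero_le)
    refine ge_of_tendsto' (x := atTop) (f := fun n : ℕ => ENNReal.ofReal (1 / ((n : ℝ) + 1))) ?_ ?_
    · have h3 := tendsto_one_div_add_atTop_nhds_zero_nat (𝕜 := ℝ)
      have h4 := ENNReal.tendsto_ofReal h3
      simpa using h4
    · intro n
      refine le_trans (measure_mono ?_) (hK3 n).le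
      exact Set.sdiff_subset_sdiff_right (Set.subset_iUnion K n)
  have h3 : AEStronglyMeasurable f (μ.restrict (⋃ n, K n)) := by
    rw [aestronglyMeasurable_iUnion_iff]
    intro n
    exact hf.continuousOn.aestronglyMeasurable_of_isCompact (hK2 n) (hK2 n).measurableSet
  have h4 : (⋃ n, K n) =ᵐ[μ] s := by
    refine Filter.EventuallyLE.antisymm ?_ ?_
    · exact LE.le.eventuallyLE (Set.iUnion_subset hK1)
    · exact ae_le_set.2 h2
  rwa [Measure.restrict_congr_set h4] at h3

/-- The family `B` of operators is bounded and strongly continuous. -/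
structure SC (B : G → E →L[ℂ] E') : Prop where
  bdd : ∃ C : ℝ, ∀ x, ‖B x‖ ≤ C
  cont : ∀ v, Continuous fun x => B x v

lemma aesm_mul (B : G → E →L[ℂ] E') (hB : SC B) (F : Lp E 1 μ) :
    AEStronglyMeasurable (fun x => B x (F x)) μ := by
  refine Lp.induction (p := 1) ENNReal.one_ne_top
    (motive := fun F : Lp E 1 μ => AEStronglyMeasurable (fun x => B x (F x)) μ) ?_ ?_ ?_ F
  · intro c s hs hμ
    have h1 : (fun x => B x (((Lp.simpleFunc.indicatorConst 1 hs hμ.ne c : Lp.simpleFunc E 1 μ) :
        Lp E 1 μ) x)) =ᵐ[μ] s.indicator (fun x => B x c) := by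
      have h2 : ⇑((Lp.simpleFunc.indicatorConst 1 hs hμ.ne c : Lp.simpleFunc E 1 μ) :
        Lp E 1 μ) =ᵐ[μ] s.indicator (fun _ => c) := by
        rw [Lp.simpleFunc.coe_indicatorConst]
        exact indicatorConstLp_coeFn
      filter_upwards [h2] with x hx
      rw [hx]
      by_cases h : x ∈ s
      · simp [h]
      · simp [h]
    refine AEStronglyMeasurable.congr ?_ h1.symm
    rw [aestronglyMeasurable_indicator_iff hs]
    exact aesm_finite _ (hB.cont c) s hs hμ.ne
  · intro f g hf hg _ h1 h2
    have h3 : (fun x => B x ((hf.toLp f + hg.toLp g : Lp E 1 μ) x)) =ᵐ[μ]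
        fun x => B x ((hf.toLp f : Lp E 1 μ) x) + B x ((hg.toLp g : Lp E 1 μ) x) := by
      filter_upwards [Lp.coeFn_add (hf.toLp f) (hg.toLp g)] with x hx
      rw [hx, Pi.add_apply, map_add]
    exact (h1.add h2).congr h3.symm
  · refine IsSeqClosed.isClosed ?_
    intro Fn F hFn hF
    have h1 : TendstoInMeasure μ (fun n => (Fn n : G → E)) atTop F :=
      tendstoInMeasure_of_tendsto_Lp hF
    obtain ⟨ns, -, hns⟩ := h1.exists_seq_tendsto_ae
    refine aestronglyMeasurable_of_tendsto_ae atTop (fun n => hFn (ns n)) ?_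
    filter_upwards [hns] with x hx
    exact ((B x).continuous.tendsto _).comp hx

lemma memLp_mul (B : G → E →L[ℂ] E') (hB : SC B) (F : Lp E 1 μ) :
    MemLp (fun x => B x (F x)) 1 μ := by
  obtain ⟨C, hC⟩ := hB.bdd
  refine MemLp.of_le_mul (c := C) (Lp.memLp F) (aesm_mul B hB F) ?_
  refine Filter.Eventually.of_forall fun x => ?_
  exact ((B x).le_opNorm _).trans (mul_le_mul_of_nonneg_right (hC x) (norm_nonneg _))

/-- Multiplication by a strongly continuous bounded family of operators. -/
noncomputable def Mul (μ : Measure G) [IsLocallyFiniteMeasure μ] [μ.Regular]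
    (B : G → E →L[ℂ] E') : Lp E 1 μ →L[ℂ] Lp E' 1 μ := by
  classical
  exact if hB : SC B then
    LinearMap.mkContinuousOfExistsBound
      { toFun := fun F => (memLp_mul B hB F).toLp
        map_add' := fun F F' => by
          refine Lp.ext ?_
          filter_upwards [MemLp.coeFn_toLp (memLp_mul B hB (F + F')),
            MemLp.coeFn_toLp (memLp_mul B hB F), MemLp.coeFn_toLp (memLp_mul B hB F'),
            Lp.coeFn_add F F', Lp.coeFn_add (memLp_mul B hB F).toLp (memLp_mul B hB F').toLp]
            with x h1 h2 h3 h4 h5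
          rw [h1, h4, Pi.add_apply, map_add, h5, Pi.add_apply, h2, h3]
        map_smul' := fun c F => by
          refine Lp.ext ?_
          filter_upwards [MemLp.coeFn_toLp (memLp_mul B hB (c • F)),
            MemLp.coeFn_toLp (memLp_mul B hB F), Lp.coeFn_smul c F,
            Lp.coeFn_smul c (memLp_mul B hB F).toLp] with x h1 h2 h3 h4
          rw [h1, h3, Pi.smul_apply, map_smul, RingHom.id_apply, h4, Pi.smul_apply, h2] }
      (by
        obtain ⟨C, hC⟩ := hB.bdd
        refine ⟨C, fun F => ?_⟩
        refine Lp.norm_le_mul_norm_of_ae_le_mul ?_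
        filter_upwards [MemLp.coeFn_toLp (memLp_mul B hB F)] with x h1
        rw [LinearMap.coe_mk, AddHom.coe_mk, h1]
        exact ((B x).le_opNorm _).trans (mul_le_mul_of_nonneg_right (hC x) (norm_nonneg _)))
  else 0

lemma Mul_coe (B : G → E →L[ℂ] E') (hB : SC B) (F : Lp E 1 μ) :
    Mul μ B F =ᵐ[μ] fun x => B x (F x) := by
  have : Mul μ B F = (memLp_mul B hB F).toLp := by
    simp only [Mul, hB, dite_true]
    rfl
  rw [this]
  exact MemLp.coeFn_toLp _

lemma norm_Mul_le (B : G → E →L[ℂ] E') (C : ℝ) (hC : ∀ x, ‖B x‖ ≤ C) (F : Lp E 1 μ) :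
    ‖Mul μ B F‖ ≤ C * ‖F‖ := by
  have hC0 : 0 ≤ C * ‖F‖ := by
    by_cases h : Nonempty G
    · obtain ⟨x⟩ := h
      exact mul_nonneg ((norm_nonneg _).trans (hC x)) (norm_nonneg _)
    · have h1 : F = 0 := by
        refine Lp.ext ?_
        refine Filter.Eventually.of_forall fun x => ?_
        exact absurd ⟨x⟩ h
      rw [h1, norm_zero, mul_zero]
  by_cases hB : SC B
  · refine Lp.norm_le_mul_norm_of_ae_le_mul ?_
    filter_upwards [Mul_coe B hB F] with x h1
    rw [h1]
    exact ((B x).le_opNorm _).trans (mul_le_mul_of_nonneg_right (hC x) (norm_nonneg _))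
  · have : Mul μ B F = 0 := by
      simp only [Mul, hB, dite_false]
      rfl
    rw [this, norm_zero]
    exact hC0

/-- Integration. -/
noncomputable def II (μ : Measure G) (E : Type v) [NormedAddCommGroup E] [NormedSpace ℂ E]
    [CompleteSpace E] : Lp E 1 μ →L[ℂ] E :=
  LinearMap.mkContinuous
    { toFun := fun F => ∫ x, F x ∂μ
      map_add' := fun F F' => by
        rw [← integral_add (L1.integrable_coeFn F) (L1.integrable_coeFn F')]
        exact integral_congr_ae (Lp.coeFn_add F F')
      map_smul' := fun c F => by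
        rw [RingHom.id_apply, ← integral_smul]
        exact integral_congr_ae (Lp.coeFn_smul c F) } 1
    (fun F => by
      rw [one_mul]
      refine (norm_integral_le_integral_norm _).trans ?_
      exact (L1.norm_eq_integral_norm F).ge)

lemma II_apply (F : Lp E 1 μ) : II μ E F = ∫ x, F x ∂μ := rfl

lemma norm_II_le (F : Lp E 1 μ) : ‖II μ E F‖ ≤ ‖F‖ := by
  refine (norm_integral_le_integral_norm _).trans ?_
  exact (L1.norm_eq_integral_norm F).ge

end basic

end Pool.Agent.W667
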