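import Pool.Agent.W667.LB

set_option autoImplicit false
set_option linter.unusedSectionVars false

/-!
Elementary tensors, composition with operators, restriction.
-/

namespace Pool.Agent.W667

open MeasureTheory Filter Topology

universe u v v' v''

section basic

variable {G : Type u} [TopologicalSpace G] [T2Space G] [MeasurableSpace G] [BorelSpace G]
  {μ : Measure G} [IsLocallyFiniteMeasure μ] [μ.Regular]
  {E : Type v} {E' : Type v'} {E'' : Type v''} [NormedAddCommGroup E] [NormedSpace ℂ E]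
  [CompleteSpace E]
  [NormedAddCommGroup E'] [NormedSpace ℂ E'] [CompleteSpace E']
  [NormedAddCommGroup E''] [NormedSpace ℂ E''] [CompleteSpace E'']

/-- Composition with an operator. -/
noncomputable def cmp (μ : Measure G) (T : E →L[ℂ] E') : Lp E 1 μ →L[ℂ] Lp E' 1 μ :=
  T.compLpL 1 μ

lemma cmp_coe (T : E →L[ℂ] E') (F : Lp E 1 μ) : cmp μ T F =ᵐ[μ] fun x => T (F x) :=
  T.coeFn_compLpL F

lemma norm_cmp_le (T : E →L[ℂ] E') (F : Lp E 1 μ) : ‖cmp μ T F‖ ≤ ‖T‖ * ‖F‖ :=
  T.norm_compLp_le F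

lemma cmp_cmp (T : E →L[ℂ] E') (S : E' →L[ℂ] E'') (F : Lp E 1 μ) :
    cmp μ S (cmp μ T F) = cmp μ (S.comp T) F := by
  refine Lp.ext ?_
  filter_upwards [cmp_coe S (cmp μ T F), cmp_coe T F, cmp_coe (S.comp T) F] with x h1 h2 h3
  rw [h1, h2, h3]
  rfl

lemma cmp_id (F : Lp E 1 μ) : cmp μ (ContinuousLinearMap.id ℂ E) F = F := by
  refine Lp.ext ?_
  filter_upwards [cmp_coe (ContinuousLinearMap.id ℂ E) F] with x h1
  rw [h1]
  rfl

lemma cmp_sub (T S : E →L[ℂ] E') (F : Lp E 1 μ) :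
    cmp μ (T - S) F = cmp μ T F - cmp μ S F := by
  refine Lp.ext ?_
  filter_upwards [cmp_coe T F, cmp_coe S F, cmp_coe (T - S) F, Lp.coeFn_sub (cmp μ T F) (cmp μ S F)]
    with x h1 h2 h3 h4
  rw [h3, h4, Pi.sub_apply, h1, h2]
  rfl

lemma cmp_zero (F : Lp E 1 μ) : cmp μ (0 : E →L[ℂ] E') F = 0 := by
  have := cmp_sub (0 : E →L[ℂ] E') 0 F
  rw [sub_zero, sub_self] at this
  exact this

lemma II_cmp (T : E →L[ℂ] E') (F : Lp E 1 μ) : II μ E' (cmp μ T F) = T (II μ E F) := by
  rw [II_apply, II_apply, ← T.integral_comp_comm (L1.integrable_coeFn F)]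
  exact integral_congr_ae (cmp_coe T F)

/-- The elementary tensor `b ⊗ v`. -/
noncomputable def tn (b : Lp ℂ 1 μ) (v : E) : Lp E 1 μ :=
  cmp μ ((ContinuousLinearMap.id ℂ ℂ).smulRight v) b

lemma tn_coe (b : Lp ℂ 1 μ) (v : E) : tn b v =ᵐ[μ] fun x => b x • v :=
  cmp_coe _ b

lemma tn_add_left (b b' : Lp ℂ 1 μ) (v : E) : tn (b + b') v = tn b v + tn b' v := map_add _ _ _

lemma tn_sub_left (b b' : Lp ℂ 1 μ) (v : E) : tn (b - b') v = tn b v - tn b' v := map_sub _ _ _

lemma tn_smul_left (c : ℂ) (b : Lp ℂ 1 μ) (v : E) : tn (c • b) v = c • tn b v := map_smul _ _ _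

lemma tn_zero_left (v : E) : tn (0 : Lp ℂ 1 μ) v = 0 := map_zero _

lemma tn_add_right (b : Lp ℂ 1 μ) (v v' : E) : tn b (v + v') = tn b v + tn b v' := by
  refine Lp.ext ?_
  filter_upwards [tn_coe b v, tn_coe b v', tn_coe b (v + v'), Lp.coeFn_add (tn b v) (tn b v')]
    with x h1 h2 h3 h4
  rw [h3, h4, Pi.add_apply, h1, h2, smul_add]

lemma tn_smul_right (c : ℂ) (b : Lp ℂ 1 μ) (v : E) : tn b (c • v) = c • tn b v := by
  refine Lp.ext ?_
  filter_upwards [tn_coe b v, tn_coe b (c • v), Lp.coeFn_smul c (tn b v)]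
    with x h1 h2 h3
  rw [h2, h3, Pi.smul_apply, h1, smul_comm]

lemma norm_tn (b : Lp ℂ 1 μ) (v : E) : ‖tn b v‖ = ‖b‖ * ‖v‖ := by
  rw [L1.norm_eq_integral_norm, L1.norm_eq_integral_norm, ← integral_mul_const]
  refine integral_congr_ae ?_
  filter_upwards [tn_coe b v] with x h1
  rw [h1, norm_smul]

/-- The operator `b ↦ (v ↦ b ⊗ v)`. -/
noncomputable def tnL (μ : Measure G) [IsLocallyFiniteMeasure μ] [μ.Regular] (E : Type v)
    [NormedAddCommGroup E] [NormedSpace ℂ E] [CompleteSpace E] :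
    Lp ℂ 1 μ →L[ℂ] E →L[ℂ] Lp E 1 μ :=
  LinearMap.mkContinuous₂
    (LinearMap.mk₂ ℂ (fun (b : Lp ℂ 1 μ) (v : E) => tn b v) tn_add_left
      (fun c b v => tn_smul_left c b v) tn_add_right (fun c b v => tn_smul_right c b v)) 1
    (fun b v => by rw [one_mul]; exact (norm_tn b v).le)

lemma tnL_apply (b : Lp ℂ 1 μ) (v : E) : tnL μ E b v = tn b v := rfl

lemma norm_tnL_le (b : Lp ℂ 1 μ) : ‖tnL μ E b‖ ≤ ‖b‖ :=
  ContinuousLinearMap.opNorm_le_bound _ (norm_nonneg _) fun v => (norm_tn b v).le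

lemma cmp_tn (T : E →L[ℂ] E') (b : Lp ℂ 1 μ) (v : E) : cmp μ T (tn b v) = tn b (T v) := by
  refine Lp.ext ?_
  filter_upwards [cmp_coe T (tn b v), tn_coe b v, tn_coe b (T v)] with x h1 h2 h3
  rw [h1, h2, h3, map_smul]

lemma II_tn (b : Lp ℂ 1 μ) (v : E) : II μ E (tn b v) = (∫ x, b x ∂μ) • v := by
  rw [II_apply, integral_congr_ae (tn_coe b v), integral_smul_const]

lemma tn_induction {motive : Lp E 1 μ → Prop} (h1 : ∀ (b : Lp ℂ 1 μ) v, motive (tn b v))
    (h2 : ∀ F F', motive F → motive F' → motive (F + F')) (h3 : IsClosed {F | motive F})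
    (F : Lp E 1 μ) : motive F := by
  refine Lp.induction (p := 1) ENNReal.one_ne_top (motive := motive) ?_ ?_ h3 F
  · intro c s hs hμ
    have h4 : ((Lp.simpleFunc.indicatorConst 1 hs hμ.ne c : Lp.simpleFunc E 1 μ) : Lp E 1 μ) =
        tn (indicatorConstLp 1 hs hμ.ne (1 : ℂ)) c := by
      refine Lp.ext ?_
      rw [Lp.simpleFunc.coe_indicatorConst]
      filter_upwards [indicatorConstLp_coeFn (p := 1) (hs := hs) (hμs := hμ.ne) (c := c),
        tn_coe (indicatorConstLp 1 hs hμ.ne (1 : ℂ)) c,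
        indicatorConstLp_coeFn (p := 1) (hs := hs) (hμs := hμ.ne) (c := (1 : ℂ))] with x e1 e2 e3
      rw [e1, e2, e3]
      by_cases h : x ∈ s
      · simp [h]
      · simp [h]
    rw [h4]
    exact h1 _ _
  · intro f g hf hg _ e1 e2
    exact h2 _ _ e1 e2

/-- Operators on `L¹(G; E)` are determined by their values on elementary tensors. -/
lemma clm_ext {X : Type v'} [NormedAddCommGroup X] [NormedSpace ℂ X] {T T' : Lp E 1 μ →L[ℂ] X}
    (h : ∀ (b : Lp ℂ 1 μ) (v : E), T (tn b v) = T' (tn b v)) : T = T' := by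
  ext F
  refine tn_induction (motive := fun F => T F = T' F) h ?_ (isClosed_eq T.continuous T'.continuous) F
  intro F F' h1 h2
  rw [map_add, map_add, h1, h2]

lemma Mul_tn (B : G → E →L[ℂ] E') (hB : SC B) (b : Lp ℂ 1 μ) (v : E) :
    Mul μ B (tn b v) =ᵐ[μ] fun x => b x • B x v := by
  filter_upwards [Mul_coe B hB (tn b v), tn_coe b v] with x h1 h2
  rw [h1, h2, map_smul]

lemma cmp_Mul (B : G → E →L[ℂ] E') (hB : SC B) (T : E' →L[ℂ] E'') (F : Lp E 1 μ) :
    cmp μ T (Mul μ B F) = Mul μ (fun x => T.comp (B x)) F := by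
  have hB' : SC (fun x => T.comp (B x)) := by
    obtain ⟨C, hC⟩ := hB.bdd
    refine ⟨⟨‖T‖ * C, fun x => ?_⟩, fun v => T.continuous.comp (hB.cont v)⟩
    exact (ContinuousLinearMap.opNorm_comp_le _ _).trans
      (mul_le_mul_of_nonneg_left (hC x) (norm_nonneg _))
  refine Lp.ext ?_
  filter_upwards [cmp_coe T (Mul μ B F), Mul_coe B hB F, Mul_coe _ hB' F] with x h1 h2 h3
  rw [h1, h2, h3]
  rfl

/-! ### restriction -/

lemma memLp_ind {s : Set G} (hs : MeasurableSet s) (F : Lp E 1 μ) :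
    MemLp (s.indicator (F : G → E)) 1 μ := MemLp.indicator hs (Lp.memLp F)

lemma ind_add {s : Set G} (hs : MeasurableSet s) (F F' : Lp E 1 μ) :
    (memLp_ind hs (F + F')).toLp = (memLp_ind hs F).toLp + (memLp_ind hs F').toLp := by
  refine Lp.ext ?_
  filter_upwards [MemLp.coeFn_toLp (memLp_ind hs (F + F')), MemLp.coeFn_toLp (memLp_ind hs F),
    MemLp.coeFn_toLp (memLp_ind hs F'), Lp.coeFn_add F F',
    Lp.coeFn_add (memLp_ind hs F).toLp (memLp_ind hs F').toLp] with x h1 h2 h3 h4 h5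
  rw [h1, h5, Pi.add_apply, h2, h3]
  by_cases h : x ∈ s
  · rw [Set.indicator_of_mem h, Set.indicator_of_mem h, Set.indicator_of_mem h, h4, Pi.add_apply]
  · rw [Set.indicator_of_notMem h, Set.indicator_of_notMem h, Set.indicator_of_notMem h, add_zero]

lemma ind_smul {s : Set G} (hs : MeasurableSet s) (c : ℂ) (F : Lp E 1 μ) :
    (memLp_ind hs (c • F)).toLp = c • (memLp_ind hs F).toLp := by
  refine Lp.ext ?_
  filter_upwards [MemLp.coeFn_toLp (memLp_ind hs (c • F)),
    MemLp.coeFn_toLp (memLp_ind hs F), Lp.coeFn_smul c F,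
    Lp.coeFn_smul c (memLp_ind hs F).toLp] with x h1 h2 h3 h4
  rw [h1, h4, Pi.smul_apply, h2]
  by_cases h : x ∈ s
  · rw [Set.indicator_of_mem h, Set.indicator_of_mem h, h3, Pi.smul_apply]
  · rw [Set.indicator_of_notMem h, Set.indicator_of_notMem h, smul_zero]

/-- Restriction to a measurable set. -/
noncomputable def ind0 {s : Set G} (hs : MeasurableSet s) : Lp E 1 μ →L[ℂ] Lp E 1 μ :=
  LinearMap.mkContinuous
    { toFun := fun F => (memLp_ind hs F).toLp
      map_add' := fun F F' => ind_add hs F F'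
      map_smul' := fun c F => ind_smul hs c F } 1
    (fun F => by
      rw [one_mul]
      refine Lp.norm_le_norm_of_ae_le ?_
      filter_upwards [MemLp.coeFn_toLp (memLp_ind hs F)] with x h1
      rw [LinearMap.coe_mk, AddHom.coe_mk, h1]
      exact norm_indicator_le_norm_self _ _)

/-- Restriction to the set `s` (the zero operator if `s` is not measurable). -/
noncomputable def ind (μ : Measure G) [IsLocallyFiniteMeasure μ] [μ.Regular] (s : Set G) :
    Lp E 1 μ →L[ℂ] Lp E 1 μ := by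
  classical
  exact if hs : MeasurableSet s then ind0 hs else 0

lemma ind_coe {s : Set G} (hs : MeasurableSet s) (F : Lp E 1 μ) :
    ind μ s F =ᵐ[μ] s.indicator F := by
  have : ind μ s F = (memLp_ind hs F).toLp := by
    simp only [ind, hs, dite_true]
    rfl
  rw [this]
  exact MemLp.coeFn_toLp _

lemma ind_norm {s : Set G} (hs : MeasurableSet s) (F : Lp E 1 μ) :
    ‖F‖ = ‖ind μ s F‖ + ‖F - ind μ s F‖ := by
  rw [L1.norm_eq_integral_norm, L1.norm_eq_integral_norm, L1.norm_eq_integral_norm,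
    ← integral_add (L1.integrable_coeFn _).norm (L1.integrable_coeFn _).norm]
  refine integral_congr_ae ?_
  filter_upwards [ind_coe hs F, Lp.coeFn_sub F (ind μ s F)] with x h1 h2
  rw [h2, Pi.sub_apply, h1]
  by_cases h : x ∈ s
  · simp [h]
  · simp [h]

lemma norm_ind_le (s : Set G) (F : Lp E 1 μ) : ‖ind μ s F‖ ≤ ‖F‖ := by
  by_cases hs : MeasurableSet s
  · rw [ind_norm hs F]
    exact le_add_of_nonneg_right (norm_nonneg _)
  · have : ind μ s F = 0 := by
      simp only [ind, hs, dite_false]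
      rfl
    rw [this, norm_zero]
    exact norm_nonneg _

lemma ind_cmp {s : Set G} (hs : MeasurableSet s) (T : E →L[ℂ] E') (F : Lp E 1 μ) :
    ind μ s (cmp μ T F) = cmp μ T (ind μ s F) := by
  refine Lp.ext ?_
  filter_upwards [ind_coe hs (cmp μ T F), cmp_coe T F, cmp_coe T (ind μ s F), ind_coe hs F]
    with x h1 h2 h3 h4
  rw [h1, h3, h4]
  by_cases h : x ∈ s
  · simp [h, h2]
  · simp [h]

lemma ind_tn {s : Set G} (hs : MeasurableSet s) (b : Lp ℂ 1 μ) (v : E) :
    ind μ s (tn b v) = tn (ind μ s b) v := by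
  refine Lp.ext ?_
  filter_upwards [ind_coe hs (tn b v), tn_coe b v, tn_coe (ind μ s b) v, ind_coe hs b]
    with x h1 h2 h3 h4
  rw [h1, h3, h4]
  by_cases h : x ∈ s
  · simp [h, h2]
  · simp [h]

lemma ind_ind {s t : Set G} (hs : MeasurableSet s) (ht : MeasurableSet t) (F : Lp E 1 μ) :
    ind μ s (ind μ t F) = ind μ (s ∩ t) F := by
  refine Lp.ext ?_
  filter_upwards [ind_coe hs (ind μ t F), ind_coe ht F, ind_coe (hs.inter ht) F] with x h1 h2 h3
  rw [h1, h3, ← Set.indicator_indicator]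
  by_cases h : x ∈ s
  · rw [Set.indicator_of_mem h, Set.indicator_of_mem h, h2]
  · rw [Set.indicator_of_notMem h, Set.indicator_of_notMem h]

lemma ind_disj {s t : Set G} (hs : MeasurableSet s) (ht : MeasurableSet t) (h : Disjoint s t)
    (F : Lp E 1 μ) : ind μ s (ind μ t F) = 0 := by
  rw [ind_ind hs ht, Set.disjoint_iff_inter_eq_empty.1 h]
  refine Lp.ext ?_
  filter_upwards [ind_coe MeasurableSet.empty F, Lp.coeFn_zero E 1 μ] with x h1 h2
  rw [h1, h2, Set.indicator_empty]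
  rfl

/-- An integrable function is concentrated on compact sets, up to `ε`. -/
lemma exists_compact (F : Lp E 1 μ) (ε : ℝ) (hε : 0 < ε) :
    ∃ K : Set G, IsCompact K ∧ ∀ K' : Set G, MeasurableSet K' → K ⊆ K' → ‖F - ind μ K' F‖ ≤ ε := by
  revert ε
  refine Lp.induction (p := 1) ENNReal.one_ne_top (motive := fun F : Lp E 1 μ =>
    ∀ ε : ℝ, 0 < ε → ∃ K : Set G, IsCompact K ∧
      ∀ K' : Set G, MeasurableSet K' → K ⊆ K' → ‖F - ind μ K' F‖ ≤ ε) ?_ ?_ ?_ F
  · intro c s hs hμ ε hε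
    obtain ⟨K, hK1, hK2, hK3⟩ := hs.exists_isCompact_sdiff_lt hμ.ne
      (ε := ENNReal.ofReal (ε / (‖c‖ + 1))) (by
        have : (0 : ℝ) < ε / (‖c‖ + 1) := by positivity
        simpa using this)
    refine ⟨K, hK2, fun K' hK' hKK => ?_⟩
    rw [Lp.simpleFunc.coe_indicatorConst]
    have h1 : indicatorConstLp 1 hs hμ.ne c - ind μ K' (indicatorConstLp 1 hs hμ.ne c) =
        indicatorConstLp 1 (hs.diff hK')
          ((measure_mono Set.sdiff_subset).trans_lt hμ).ne c := by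
      refine Lp.ext ?_
      filter_upwards [Lp.coeFn_sub (indicatorConstLp 1 hs hμ.ne c)
        (ind μ K' (indicatorConstLp 1 hs hμ.ne c)), ind_coe hK' (indicatorConstLp 1 hs hμ.ne c),
        indicatorConstLp_coeFn (p := 1) (hs := hs) (hμs := hμ.ne) (c := c),
        indicatorConstLp_coeFn (p := 1) (hs := hs.diff hK')
          (hμs := ((measure_mono Set.sdiff_subset).trans_lt hμ).ne) (c := c)] with x e1 e2 e3 e4
      rw [e1, Pi.sub_apply, e2, e4]
      by_cases h : x ∈ K'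
      · simp [h]
      · by_cases h' : x ∈ s
        · simp [h, h', e3]
        · simp [h, h', e3]
    rw [h1, norm_indicatorConstLp one_ne_zero ENNReal.one_ne_top, ENNReal.toReal_one, div_one,
      Real.rpow_one]
    have h2 : μ.real (s \ K') ≤ ε / (‖c‖ + 1) := by
      refine ENNReal.toReal_le_of_le_ofReal (by positivity) ?_
      exact (measure_mono (Set.sdiff_subset_sdiff_right hKK)).trans hK3.le
    calc ‖c‖ * μ.real (s \ K') ≤ (‖c‖ + 1) * (ε / (‖c‖ + 1)) := by
          refine mul_le_mul (by linarith) h2 measureReal_nonneg (by positivity)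
      _ = ε := by field_simp
  · intro f g hf hg _ h1 h2 ε hε
    obtain ⟨K1, hK1, h1'⟩ := h1 (ε / 2) (by positivity)
    obtain ⟨K2, hK2, h2'⟩ := h2 (ε / 2) (by positivity)
    refine ⟨K1 ∪ K2, hK1.union hK2, fun K' hK' hKK => ?_⟩
    have e1 := h1' K' hK' (Set.subset_union_left.trans hKK)
    have e2 := h2' K' hK' (Set.subset_union_right.trans hKK)
    rw [map_add, add_sub_add_comm]
    exact (norm_add_le _ _).trans (by linarith)
  · refine isClosed_of_closure_subset fun F hF ε hε => ?_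
    rw [Metric.mem_closure_iff] at hF
    obtain ⟨F', hF', hd⟩ := hF (ε / 3) (by positivity)
    obtain ⟨K, hK, h1⟩ := hF' (ε / 3) (by positivity)
    refine ⟨K, hK, fun K' hK' hKK => ?_⟩
    have e1 := h1 K' hK' hKK
    have e2 : F - ind μ K' F = (F - F') - ind μ K' (F - F') + (F' - ind μ K' F') := by
      rw [map_sub]; abel
    rw [e2]
    rw [dist_eq_norm] at hd
    have e3 := norm_ind_le K' (F - F') (μ := μ)
    have e4 := norm_add_le ((F - F') - ind μ K' (F - F')) (F' - ind μ K' F')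
    have e5 := norm_sub_le (F - F') (ind μ K' (F - F'))
    linarith

end basic

end Pool.Agent.W667
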