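import Pool.Agent.W667.LC

set_option autoImplicit false
set_option linter.unusedSectionVars false

/-!
Translations and representations of a locally compact group by isometries.
-/

namespace Pool.Agent.W667

open MeasureTheory Filter Topology

universe u v v' v''

/-- A strongly continuous representation of `G` on `E` by isometries. -/
structure Rp (G : Type u) [TopologicalSpace G] [Group G] (E : Type v) [NormedAddCommGroup E]
    [NormedSpace ℂ E] where
  op : G → E →L[ℂ] E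
  one : ∀ v, op 1 v = v
  mul : ∀ g h v, op (g * h) v = op g (op h v)
  nrm : ∀ g v, ‖op g v‖ ≤ ‖v‖
  cont : ∀ v, Continuous fun g => op g v

section basic

variable {G : Type u} [TopologicalSpace G] [Group G] [IsTopologicalGroup G] [T2Space G]
  [MeasurableSpace G] [BorelSpace G]
  {μ : Measure G} [IsLocallyFiniteMeasure μ] [μ.Regular] [μ.IsMulLeftInvariant]
  {E : Type v} {E' : Type v'} {E'' : Type v''} [NormedAddCommGroup E] [NormedSpace ℂ E]
  [CompleteSpace E]
  [NormedAddCommGroup E'] [NormedSpace ℂ E'] [CompleteSpace E']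
  [NormedAddCommGroup E''] [NormedSpace ℂ E''] [CompleteSpace E'']

namespace Rp

lemma inv_op (π : Rp G E) (g : G) (v : E) : π.op g⁻¹ (π.op g v) = v := by
  rw [← π.mul, inv_mul_cancel, π.one]

lemma op_inv (π : Rp G E) (g : G) (v : E) : π.op g (π.op g⁻¹ v) = v := by
  rw [← π.mul, mul_inv_cancel, π.one]

lemma nrm_eq (π : Rp G E) (g : G) (v : E) : ‖π.op g v‖ = ‖v‖ := by
  refine le_antisymm (π.nrm g v) ?_
  have := π.nrm g⁻¹ (π.op g v)
  rwa [π.inv_op] at this

lemma sc (π : Rp G E) : SC π.op :=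
  ⟨⟨1, fun x => ContinuousLinearMap.opNorm_le_bound _ zero_le_one fun v => by
    rw [one_mul]; exact π.nrm x v⟩, π.cont⟩

lemma sc_inv (π : Rp G E) : SC (fun x => π.op x⁻¹) :=
  ⟨⟨1, fun x => ContinuousLinearMap.opNorm_le_bound _ zero_le_one fun v => by
    rw [one_mul]; exact π.nrm x⁻¹ v⟩, fun v => (π.cont v).comp continuous_inv⟩

/-- The trivial representation. -/
noncomputable def triv (G : Type u) [TopologicalSpace G] [Group G] (E : Type v)
    [NormedAddCommGroup E] [NormedSpace ℂ E] : Rp G E where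
  op _ := ContinuousLinearMap.id ℂ E
  one _ := rfl
  mul _ _ _ := rfl
  nrm _ _ := le_rfl
  cont _ := continuous_const

end Rp

/-- Left translation: `(tr μ g F)(x) = F(g⁻¹ x)`. -/
noncomputable def tr (μ : Measure G) [IsLocallyFiniteMeasure μ] [μ.Regular]
    [μ.IsMulLeftInvariant] (g : G) : Lp E 1 μ →L[ℂ] Lp E 1 μ :=
  LinearMap.mkContinuous
    { toFun := fun F => DomMulAct.mk g⁻¹ • F
      map_add' := fun F F' => DomMulAct.smul_Lp_add _ F F'
      map_smul' := fun c F => smul_comm _ c F } 1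
    (fun F => by
      rw [one_mul]
      exact (DomMulAct.norm_smul_Lp _ F).le)

lemma tr_def (g : G) (F : Lp E 1 μ) : tr μ g F = DomMulAct.mk g⁻¹ • F := rfl

lemma tr_coe (g : G) (F : Lp E 1 μ) : tr μ g F =ᵐ[μ] fun x => F (g⁻¹ * x) :=
  DomMulAct.smul_Lp_ae_eq _ F

lemma tr_one (F : Lp E 1 μ) : tr μ (1 : G) F = F := by
  rw [tr_def, inv_one, DomMulAct.mk_one, one_smul]

lemma tr_mul (g h : G) (F : Lp E 1 μ) : tr μ (g * h) F = tr μ g (tr μ h F) := by
  rw [tr_def, tr_def, tr_def, mul_inv_rev, DomMulAct.mk_mul, mul_smul]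

lemma norm_tr (g : G) (F : Lp E 1 μ) : ‖tr μ g F‖ = ‖F‖ := DomMulAct.norm_smul_Lp _ F

lemma tr_cont (F : Lp E 1 μ) : Continuous fun g : G => tr μ g F := by
  have : Fact ((1 : ENNReal) ≠ ⊤) := ⟨ENNReal.one_ne_top⟩
  have h : Continuous fun g : G => (DomMulAct.mk g⁻¹ : Gᵈᵐᵃ) :=
    DomMulAct.continuous_mk.comp continuous_inv
  exact h.smul continuous_const

/-- Almost everywhere statements are invariant under translation. -/
lemma ae_tr {p : G → Prop} (h : ∀ᵐ x ∂μ, p x) (g : G) : ∀ᵐ x ∂μ, p (g⁻¹ * x) :=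
  (measurePreserving_mul_left μ g⁻¹).quasiMeasurePreserving.ae h

lemma cmp_tr (T : E →L[ℂ] E') (g : G) (F : Lp E 1 μ) :
    cmp μ T (tr μ g F) = tr μ g (cmp μ T F) := by
  refine Lp.ext ?_
  filter_upwards [cmp_coe T (tr μ g F), tr_coe g F, tr_coe g (cmp μ T F), ae_tr (cmp_coe T F) g]
    with x h1 h2 h3 h4
  rw [h1, h2, h3, h4]

lemma tr_tn (g : G) (b : Lp ℂ 1 μ) (v : E) : tr μ g (tn b v) = tn (tr μ g b) v := by
  refine Lp.ext ?_
  filter_upwards [tr_coe g (tn b v), ae_tr (tn_coe b v) g, tn_coe (tr μ g b) v, tr_coe g b]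
    with x h1 h2 h3 h4
  rw [h1, h2, h3, h4]

lemma II_tr (g : G) (F : Lp E 1 μ) : II μ E (tr μ g F) = II μ E F := by
  rw [II_apply, II_apply, integral_congr_ae (tr_coe g F)]
  exact integral_mul_left_eq_self (fun x => F x) g⁻¹

/-- The diagonal representation `(g F)(x) = g F(g⁻¹ x)`. -/
noncomputable def dia (μ : Measure G) [IsLocallyFiniteMeasure μ] [μ.Regular]
    [μ.IsMulLeftInvariant] (π : Rp G E) : Rp G (Lp E 1 μ) where
  op g := (cmp μ (π.op g)).comp (tr μ g)
  one F := by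
    rw [ContinuousLinearMap.comp_apply, tr_one]
    refine Lp.ext ?_
    filter_upwards [cmp_coe (π.op 1) F] with x h1
    rw [h1, π.one]
  mul g h F := by
    rw [ContinuousLinearMap.comp_apply, ContinuousLinearMap.comp_apply,
      ContinuousLinearMap.comp_apply, ← cmp_tr, ← tr_mul, cmp_cmp]
    refine Lp.ext ?_
    filter_upwards [cmp_coe (π.op (g * h)) (tr μ (g * h) F),
      cmp_coe ((π.op g).comp (π.op h)) (tr μ (g * h) F)] with x h1 h2
    rw [h1, h2, π.mul]
    rfl
  nrm g F := by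
    rw [ContinuousLinearMap.comp_apply]
    refine (norm_cmp_le (π.op g) _).trans ?_
    rw [norm_tr]
    have : ‖π.op g‖ ≤ 1 := ContinuousLinearMap.opNorm_le_bound _ zero_le_one fun v => by
      rw [one_mul]; exact π.nrm g v
    exact mul_le_of_le_one_left (norm_nonneg _) this
  cont F := by
    have hn : ∀ (g : G) (F : Lp E 1 μ), ‖(cmp μ (π.op g)).comp (tr μ g) F‖ ≤ ‖F‖ := by
      intro g F
      rw [ContinuousLinearMap.comp_apply]
      refine (norm_cmp_le (π.op g) _).trans ?_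
      rw [norm_tr]
      have : ‖π.op g‖ ≤ 1 := ContinuousLinearMap.opNorm_le_bound _ zero_le_one fun v => by
        rw [one_mul]; exact π.nrm g v
      exact mul_le_of_le_one_left (norm_nonneg _) this
    refine tn_induction (motive := fun F : Lp E 1 μ => Continuous fun g : G =>
      ((cmp μ (π.op g)).comp (tr μ g)) F) ?_ ?_ ?_ F
    · intro b v
      have h1 : (fun g : G => ((cmp μ (π.op g)).comp (tr μ g)) (tn b v)) =
          fun g => tnL μ E (tr μ g b) (π.op g v) := by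
        funext g
        rw [ContinuousLinearMap.comp_apply, tr_tn, cmp_tn, tnL_apply]
      rw [h1]
      exact ((tnL μ E).continuous.comp (tr_cont b)).clm_apply (π.cont v)
    · intro F F' h1 h2
      have h3 : (fun g : G => ((cmp μ (π.op g)).comp (tr μ g)) (F + F')) =
          fun g => ((cmp μ (π.op g)).comp (tr μ g)) F + ((cmp μ (π.op g)).comp (tr μ g)) F' := by
        funext g
        rw [map_add]
      rw [h3]
      exact h1.add h2
    · refine isClosed_of_closure_subset fun F hF => ?_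
      rw [Metric.mem_closure_iff] at hF
      refine continuous_iff_continuousAt.2 fun g0 => ?_
      rw [Metric.continuousAt_iff']
      intro ε hε
      obtain ⟨F', hF', hd⟩ := hF (ε / 3) (by positivity)
      have h1 : Continuous fun g : G => ((cmp μ (π.op g)).comp (tr μ g)) F' := hF'
      filter_upwards [Metric.continuousAt_iff'.1 h1.continuousAt (ε / 3) (by positivity)] with g hg
      rw [dist_eq_norm] at hd hg ⊢
      have e1 : ((cmp μ (π.op g)).comp (tr μ g)) F - ((cmp μ (π.op g0)).comp (tr μ g0)) F =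
          ((cmp μ (π.op g)).comp (tr μ g)) (F - F') +
          (((cmp μ (π.op g)).comp (tr μ g)) F' - ((cmp μ (π.op g0)).comp (tr μ g0)) F') -
          ((cmp μ (π.op g0)).comp (tr μ g0)) (F - F') := by
        rw [map_sub, map_sub]; abel
      rw [e1]
      have e2 := hn g (F - F')
      have e3 := hn g0 (F - F')
      have e4 := norm_sub_le (((cmp μ (π.op g)).comp (tr μ g)) (F - F') +
          (((cmp μ (π.op g)).comp (tr μ g)) F' - ((cmp μ (π.op g0)).comp (tr μ g0)) F'))
          (((cmp μ (π.op g0)).comp (tr μ g0)) (F - F'))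
      have e5 := norm_add_le (((cmp μ (π.op g)).comp (tr μ g)) (F - F'))
          (((cmp μ (π.op g)).comp (tr μ g)) F' - ((cmp μ (π.op g0)).comp (tr μ g0)) F')
      linarith

lemma dia_op (π : Rp G E) (g : G) (F : Lp E 1 μ) :
    (dia μ π).op g F = cmp μ (π.op g) (tr μ g F) := rfl

lemma dia_coe (π : Rp G E) (g : G) (F : Lp E 1 μ) :
    (dia μ π).op g F =ᵐ[μ] fun x => π.op g (F (g⁻¹ * x)) := by
  rw [dia_op]
  filter_upwards [cmp_coe (π.op g) (tr μ g F), tr_coe g F] with x h1 h2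
  rw [h1, h2]

lemma dia_triv (g : G) (F : Lp E 1 μ) : (dia μ (Rp.triv G E)).op g F = tr μ g F :=
  cmp_id _

lemma dia_tn (π : Rp G E) (g : G) (b : Lp ℂ 1 μ) (v : E) :
    (dia μ π).op g (tn b v) = tn (tr μ g b) (π.op g v) := by
  rw [dia_op, tr_tn, cmp_tn]

/-- `T` intertwines the representations. -/
def Itw (π : Rp G E) (π' : Rp G E') (T : E →L[ℂ] E') : Prop :=
  ∀ g v, T (π.op g v) = π'.op g (T v)

lemma Itw.comp {π : Rp G E} {π' : Rp G E'} {π'' : Rp G E''} {T : E →L[ℂ] E'} {S : E' →L[ℂ] E''}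
    (hS : Itw π' π'' S) (hT : Itw π π' T) : Itw π π'' (S.comp T) := fun g v => by
  rw [ContinuousLinearMap.comp_apply, hT, hS]
  rfl

lemma Itw.sub {π : Rp G E} {π' : Rp G E'} {T S : E →L[ℂ] E'}
    (hS : Itw π π' S) (hT : Itw π π' T) : Itw π π' (S - T) := fun g v => by
  rw [ContinuousLinearMap.sub_apply, ContinuousLinearMap.sub_apply, hT, hS, map_sub]

lemma Itw.id (π : Rp G E) : Itw π π (ContinuousLinearMap.id ℂ E) := fun _ _ => rfl

lemma itw_Mul (π : Rp G E) (π' : Rp G E') (B : G → E →L[ℂ] E') (hB : SC B)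
    (h : ∀ g x v, B (g * x) (π.op g v) = π'.op g (B x v)) : Itw (dia μ π) (dia μ π') (Mul μ B) := by
  intro g F
  refine Lp.ext ?_
  filter_upwards [Mul_coe B hB ((dia μ π).op g F), dia_coe π g F, dia_coe π' g (Mul μ B F),
    ae_tr (Mul_coe B hB F) g] with x h1 h2 h3 h4
  rw [h1, h2, h3, h4, ← h, mul_inv_cancel_left]

lemma itw_cmp (π : Rp G E) (π' : Rp G E') (T : E →L[ℂ] E') (h : Itw π π' T) :
    Itw (dia μ π) (dia μ π') (cmp μ T) := by
  intro g F
  rw [dia_op, dia_op, cmp_cmp, ← cmp_tr, cmp_cmp]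
  congr 2
  ext v
  exact h g v

lemma itw_II (π : Rp G E) : Itw (dia μ π) π (II μ E) := by
  intro g F
  rw [dia_op, II_cmp, II_tr]

/-! ### the integrated action -/

/-- The integrated action `a v = ∫ a(x) π(x) v dx` of `L¹(G)`. -/
noncomputable def ac (μ : Measure G) [IsLocallyFiniteMeasure μ] [μ.Regular]
    [μ.IsMulLeftInvariant] (π : Rp G E) : Lp ℂ 1 μ →L[ℂ] E →L[ℂ] E :=
  (ContinuousLinearMap.compL ℂ E (Lp E 1 μ) E ((II μ E).comp (Mul μ π.op))).comp (tnL μ E)

lemma ac_def (π : Rp G E) (a : Lp ℂ 1 μ) (v : E) :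
    ac μ π a v = II μ E (Mul μ π.op (tn a v)) := rfl

lemma ac_apply (π : Rp G E) (a : Lp ℂ 1 μ) (v : E) :
    ac μ π a v = ∫ x, a x • π.op x v ∂μ := by
  rw [ac_def, II_apply]
  exact integral_congr_ae (Mul_tn π.op π.sc a v)

lemma norm_ac_le (π : Rp G E) (a : Lp ℂ 1 μ) (v : E) : ‖ac μ π a v‖ ≤ ‖a‖ * ‖v‖ := by
  rw [ac_def]
  refine (norm_II_le _).trans ?_
  have := norm_Mul_le (μ := μ) π.op 1 (fun x => ContinuousLinearMap.opNorm_le_bound _ zero_le_one
    fun v => by rw [one_mul]; exact π.nrm x v) (tn a v)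
  rwa [one_mul, norm_tn] at this

lemma itw_ac {π : Rp G E} {π' : Rp G E'} {T : E →L[ℂ] E'} (h : Itw π π' T) (a : Lp ℂ 1 μ) (v : E) :
    T (ac μ π a v) = ac μ π' a (T v) := by
  rw [ac_def, ac_def, ← II_cmp]
  congr 1
  refine Lp.ext ?_
  filter_upwards [cmp_coe T (Mul μ π.op (tn a v)), Mul_tn π.op π.sc a v,
    Mul_tn π'.op π'.sc a (T v)] with x h1 h2 h3
  rw [h1, h2, h3, map_smul, h]

lemma ac_tr (π : Rp G E) (g : G) (a : Lp ℂ 1 μ) (v : E) :
    ac μ π (tr μ g a) v = π.op g (ac μ π a v) := by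
  have h1 := itw_Mul (μ := μ) (Rp.triv G E) π π.op π.sc (fun g x v => π.mul g x v)
  have h2 := h1 g (tn a v)
  rw [dia_triv, tr_tn] at h2
  rw [ac_def, ac_def, h2]
  exact itw_II π g _

/-- The convolution product: `a * b = ∫ a(x) (left translate of b by x) dx`. -/
noncomputable def cv (a b : Lp ℂ 1 μ) : Lp ℂ 1 μ := ac μ (dia μ (Rp.triv G ℂ)) a b

lemma ac_cv (π : Rp G E) (a b : Lp ℂ 1 μ) (v : E) :
    ac μ π (cv a b) v = ac μ π a (ac μ π b v) := by
  let T : Lp ℂ 1 μ →L[ℂ] E := (ContinuousLinearMap.apply ℂ E v).comp (ac μ π)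
  have hT : ∀ a, T a = ac μ π a v := fun _ => rfl
  have h1 : Itw (dia μ (Rp.triv G ℂ)) π T := by
    intro g b
    rw [dia_triv, hT, hT, ac_tr]
  exact itw_ac h1 a b

end basic

end Pool.Agent.W667
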