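import Pool.Agent.W667.LD

set_option autoImplicit false
set_option linter.unusedSectionVars false

/-!
Extension of bilinear operators, approximate identities, convolution.
-/

namespace Pool.Agent.W667

open MeasureTheory Filter Topology

universe u v v' v''

section extn

variable {G : Type u} [TopologicalSpace G] [T2Space G] [MeasurableSpace G] [BorelSpace G]
  {μ : Measure G} [IsLocallyFiniteMeasure μ] [μ.Regular]
  {E : Type v} {E' : Type v'} [NormedAddCommGroup E] [NormedSpace ℂ E]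
  [CompleteSpace E]
  [NormedAddCommGroup E'] [NormedSpace ℂ E'] [CompleteSpace E']

/-- The indicator function of `s` (zero if `s` is not measurable of finite measure). -/
noncomputable def chi (μ : Measure G) (s : Set G) : Lp ℂ 1 μ := by
  classical
  exact if h : MeasurableSet s ∧ μ s ≠ ⊤ then indicatorConstLp 1 h.1 h.2 (1 : ℂ) else 0

lemma chi_eq {s : Set G} (hs : MeasurableSet s) (hμ : μ s ≠ ⊤) :
    chi μ s = indicatorConstLp 1 hs hμ (1 : ℂ) := by
  have h : MeasurableSet s ∧ μ s ≠ ⊤ := ⟨hs, hμ⟩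
  rw [chi]
  exact dif_pos h

lemma norm_chi {s : Set G} (hs : MeasurableSet s) (hμ : μ s ≠ ⊤) : ‖chi μ s‖ = μ.real s := by
  rw [chi_eq hs hμ, norm_indicatorConstLp one_ne_zero ENNReal.one_ne_top, norm_one, one_mul,
    ENNReal.toReal_one, div_one, Real.rpow_one]

lemma tn_indicator {s : Set G} (hs : MeasurableSet s) (hμ : μ s ≠ ⊤) (c : ℂ) (v : E) :
    tn (indicatorConstLp 1 hs hμ c) v = indicatorConstLp 1 hs hμ (c • v) := by
  refine Lp.ext ?_
  filter_upwards [tn_coe (indicatorConstLp 1 hs hμ c) v,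
    indicatorConstLp_coeFn (p := 1) (hs := hs) (hμs := hμ) (c := c),
    indicatorConstLp_coeFn (p := 1) (hs := hs) (hμs := hμ) (c := c • v)] with x e1 e2 e3
  rw [e1, e2, e3]
  by_cases h : x ∈ s
  · simp [h]
  · simp [h]

lemma indicator_smul_chi {s : Set G} (hs : MeasurableSet s) (hμ : μ s ≠ ⊤) (c : ℂ) :
    indicatorConstLp 1 hs hμ c = c • chi μ s := by
  rw [chi_eq hs hμ]
  refine Lp.ext ?_
  filter_upwards [Lp.coeFn_smul c (indicatorConstLp 1 hs hμ (1 : ℂ)),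
    indicatorConstLp_coeFn (p := 1) (hs := hs) (hμs := hμ) (c := c),
    indicatorConstLp_coeFn (p := 1) (hs := hs) (hμs := hμ) (c := (1 : ℂ))] with x e1 e2 e3
  rw [e1, Pi.smul_apply, e2, e3]
  by_cases h : x ∈ s
  · simp [h]
  · simp [h]

/-- A bounded bilinear operator on `L¹(G) × E` extends to `L¹(G; E)`. -/
lemma exists_extn (β : Lp ℂ 1 μ →L[ℂ] E →L[ℂ] E') :
    ∃ M : Lp E 1 μ →L[ℂ] E', ∀ (b : Lp ℂ 1 μ) (v : E), M (tn b v) = β b v := by
  let T : Set G → E →L[ℝ] E' := fun s => (β (chi μ s)).restrictScalars ℝ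
  have hT : DominatedFinMeasAdditive μ T ‖β‖ := by
    refine ⟨?_, ?_⟩
    · intro s t hs ht hμs hμt hst
      have h1 : chi μ (s ∪ t) = chi μ s + chi μ t := by
        rw [chi_eq hs hμs, chi_eq ht hμt, chi_eq (hs.union ht) (measure_union_ne_top hμs hμt)]
        exact indicatorConstLp_disjoint_union hs ht hμs hμt hst 1
      ext v
      show β (chi μ (s ∪ t)) v = β (chi μ s) v + β (chi μ t) v
      rw [h1, map_add]
      rfl
    · intro s hs hμ
      show ‖β (chi μ s)‖ ≤ _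
      refine (β.le_opNorm _).trans ?_
      rw [norm_chi hs hμ.ne]
  have hs : ∀ c : ℂ, ∀ s x, T s (c • x) = c • T s x := fun c s x => map_smul (β (chi μ s)) c x
  refine ⟨L1.setToL1' ℂ hT hs, fun b v => ?_⟩
  have key : ∀ {s : Set G} (h1 : MeasurableSet s) (h2 : μ s ≠ ⊤) (v : E),
      L1.setToL1' ℂ hT hs (indicatorConstLp 1 h1 h2 v) = β (chi μ s) v := by
    intro s h1 h2 v
    rw [← L1.setToL1_eq_setToL1' hT hs, L1.setToL1_indicatorConstLp]
    rfl
  refine Lp.induction (p := 1) ENNReal.one_ne_top (motive := fun b : Lp ℂ 1 μ =>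
    L1.setToL1' ℂ hT hs (tn b v) = β b v) ?_ ?_ ?_ b
  · intro c s h1 h2
    rw [Lp.simpleFunc.coe_indicatorConst, tn_indicator, key, indicator_smul_chi, map_smul, map_smul]
    rfl
  · intro f g hf hg _ h1 h2
    rw [tn_add_left, map_add, map_add, h1, h2]
    rfl
  · have h1 : Continuous fun b : Lp ℂ 1 μ => L1.setToL1' ℂ hT hs (tn b v) := by
      have h2 : (fun b : Lp ℂ 1 μ => L1.setToL1' ℂ hT hs (tn b v)) =
          fun b => L1.setToL1' ℂ hT hs (tnL μ E b v) := rfl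
      rw [h2]
      exact (L1.setToL1' ℂ hT hs).continuous.comp ((tnL μ E).continuous.clm_apply continuous_const)
    exact isClosed_eq h1 (β.continuous.clm_apply continuous_const)

/-- The extension of a bilinear operator. -/
noncomputable def xt (β : Lp ℂ 1 μ →L[ℂ] E →L[ℂ] E') : Lp E 1 μ →L[ℂ] E' :=
  Classical.choose (exists_extn β)

lemma xt_tn (β : Lp ℂ 1 μ →L[ℂ] E →L[ℂ] E') (b : Lp ℂ 1 μ) (v : E) : xt β (tn b v) = β b v :=
  Classical.choose_spec (exists_extn β) b v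

end extn

section basic

variable {G : Type u} [TopologicalSpace G] [Group G] [IsTopologicalGroup G] [T2Space G]
  [LocallyCompactSpace G] [MeasurableSpace G] [BorelSpace G]
  {μ : Measure G} [μ.IsHaarMeasure] [μ.Regular]
  {E : Type v} {E' : Type v'} {E'' : Type v''} [NormedAddCommGroup E] [NormedSpace ℂ E]
  [CompleteSpace E]
  [NormedAddCommGroup E'] [NormedSpace ℂ E'] [CompleteSpace E']
  [NormedAddCommGroup E''] [NormedSpace ℂ E''] [CompleteSpace E'']

/-- A bump function. -/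
structure IsBump (K : Set G) (b : Lp ℂ 1 μ) : Prop where
  nrm : ‖b‖ = 1
  int : ∫ x, b x ∂μ = 1
  sup : ∀ᵐ x ∂μ, x ∉ K → b x = 0

lemma exists_bump (U : Set G) (hU : U ∈ 𝓝 (1 : G)) :
    ∃ (K : Set G) (b : Lp ℂ 1 μ), IsCompact K ∧ K ⊆ U ∧ IsBump K b := by
  obtain ⟨K, hK1, hK2, hK3⟩ := local_compact_nhds hU
  have h1 : μ K ≠ ⊤ := hK3.measure_lt_top.ne
  have h2 : μ K ≠ 0 := (Measure.measure_pos_of_mem_nhds μ hK1).ne'
  have h3 : 0 < μ.real K := ENNReal.toReal_pos h2 h1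
  refine ⟨K, ((μ.real K : ℂ))⁻¹ • chi μ K, hK3, hK2, ?_, ?_, ?_⟩
  · rw [norm_smul, norm_chi hK3.measurableSet h1, norm_inv, Complex.norm_real, Real.norm_eq_abs,
      abs_of_pos h3]
    exact inv_mul_cancel₀ h3.ne'
  · rw [integral_congr_ae (Lp.coeFn_smul ((μ.real K : ℂ))⁻¹ (chi μ K))]
    simp only [Pi.smul_apply]
    rw [integral_smul, chi_eq hK3.measurableSet h1, integral_indicatorConstLp]
    rw [smul_eq_mul]
    simp only [Complex.real_smul, mul_one]
    exact inv_mul_cancel₀ (by exact_mod_cast h3.ne')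
  · rw [chi_eq hK3.measurableSet h1]
    filter_upwards [Lp.coeFn_smul ((μ.real K : ℂ))⁻¹ (indicatorConstLp 1 hK3.measurableSet h1 (1 : ℂ)),
      indicatorConstLp_coeFn (p := 1) (hs := hK3.measurableSet) (hμs := h1) (c := (1 : ℂ))]
      with x e1 e2 hx
    rw [e1, Pi.smul_apply, e2, Set.indicator_of_notMem hx, smul_zero]

lemma aid (π : Rp G E) (v : E) (ε : ℝ) (hε : 0 < ε) : ∃ U ∈ 𝓝 (1 : G), ∀ (K : Set G)
    (b : Lp ℂ 1 μ), K ⊆ U → IsBump K b → ‖ac μ π b v - v‖ ≤ ε := by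
  have h0 : ContinuousAt (fun g => π.op g v) 1 := (π.cont v).continuousAt
  have h1 := Metric.continuousAt_iff'.1 h0 ε hε
  refine ⟨{x | dist (π.op x v) (π.op 1 v) < ε}, h1, fun K b hK hb => ?_⟩
  have e1 : ac μ π b v - v = ∫ x, b x • (π.op x v - v) ∂μ := by
    have e2 : v = ∫ x, b x • v ∂μ := by
      rw [integral_smul_const, hb.int, one_smul]
    rw [ac_apply]
    conv_lhs => rw [e2]
    rw [← integral_sub]
    · refine integral_congr_ae (Filter.Eventually.of_forall fun x => ?_)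
      show b x • π.op x (∫ x, b x • v ∂μ) - b x • v = b x • (π.op x v - v)
      rw [← e2, smul_sub]
    · exact (L1.integrable_coeFn (Mul μ π.op (tn b (∫ x, b x • v ∂μ)))).congr
        (Mul_tn π.op π.sc b _)
    · exact (L1.integrable_coeFn (tn b v)).congr (tn_coe b v)
  rw [e1]
  refine (norm_integral_le_integral_norm _).trans ?_
  have e3 : ∫ x, ‖b x‖ * ε ∂μ = ε := by
    rw [integral_mul_const, ← L1.norm_eq_integral_norm, hb.nrm, one_mul]
  rw [← e3]
  refine integral_mono_of_nonneg (Filter.Eventually.of_forall fun x => norm_nonneg _)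
    ((L1.integrable_coeFn b).norm.mul_const ε) ?_
  filter_upwards [hb.sup] with x hx
  show ‖b x • (π.op x v - v)‖ ≤ ‖b x‖ * ε
  rw [norm_smul]
  by_cases h : x ∈ K
  · refine mul_le_mul_of_nonneg_left ?_ (norm_nonneg _)
    have h2 : dist (π.op x v) (π.op 1 v) < ε := hK h
    rw [dist_eq_norm, π.one] at h2
    exact h2.le
  · rw [hx h, norm_zero, zero_mul, zero_mul]

/-- Operators which commute with the action of `L¹(G)` intertwine the representations. -/
lemma itw_of_ac (π : Rp G E) (π' : Rp G E') (T : E →L[ℂ] E')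
    (h : ∀ (a : Lp ℂ 1 μ) v, T (ac μ π a v) = ac μ π' a (T v)) : Itw π π' T := by
  intro g v
  by_contra hne
  have h0 : 0 < ‖T (π.op g v) - π'.op g (T v)‖ := norm_pos_iff.2 (sub_ne_zero.2 hne)
  set δ := ‖T (π.op g v) - π'.op g (T v)‖ with hδ
  have hT : 0 < ‖T‖ + 2 := by positivity
  obtain ⟨U1, hU1, h1⟩ := aid (μ := μ) π v (δ / (2 * (‖T‖ + 2))) (by positivity)
  obtain ⟨U2, hU2, h2⟩ := aid (μ := μ) π' (T v) (δ / (2 * (‖T‖ + 2))) (by positivity)
  obtain ⟨K, b, hK, hKU, hb⟩ := exists_bump (μ := μ) (U1 ∩ U2) (inter_mem hU1 hU2)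
  have e1 := h1 K b (hKU.trans Set.inter_subset_left) hb
  have e2 := h2 K b (hKU.trans Set.inter_subset_right) hb
  have e3 : T (π.op g (ac μ π b v)) = π'.op g (ac μ π' b (T v)) := by
    rw [← ac_tr, h, ac_tr]
  have e4 : T (π.op g v) - π'.op g (T v) =
      π'.op g (ac μ π' b (T v) - T v) - T (π.op g (ac μ π b v - v)) := by
    rw [map_sub, map_sub, map_sub, e3]; abel
  have e5 : ‖T (π.op g (ac μ π b v - v))‖ ≤ ‖T‖ * (δ / (2 * (‖T‖ + 2))) := by
    refine (T.le_opNorm _).trans (mul_le_mul_of_nonneg_left ?_ (norm_nonneg _))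
    exact (π.nrm _ _).trans e1
  have e6 : ‖π'.op g (ac μ π' b (T v) - T v)‖ ≤ δ / (2 * (‖T‖ + 2)) := (π'.nrm _ _).trans e2
  have e7 : δ ≤ δ / (2 * (‖T‖ + 2)) + ‖T‖ * (δ / (2 * (‖T‖ + 2))) := by
    rw [hδ]
    conv_lhs => rw [e4]
    exact (norm_sub_le _ _).trans (add_le_add e6 e5)
  have e8 : δ / (2 * (‖T‖ + 2)) + ‖T‖ * (δ / (2 * (‖T‖ + 2))) ≤ δ / 2 := by
    have e9 : δ / (2 * (‖T‖ + 2)) + ‖T‖ * (δ / (2 * (‖T‖ + 2))) =
        (‖T‖ + 1) * (δ / (2 * (‖T‖ + 2))) := by ring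
    rw [e9]
    calc (‖T‖ + 1) * (δ / (2 * (‖T‖ + 2))) ≤ (‖T‖ + 2) * (δ / (2 * (‖T‖ + 2))) := by
          refine mul_le_mul_of_nonneg_right (by linarith) (by positivity)
      _ = δ / 2 := by field_simp
  linarith

end basic

section cvl

variable {G : Type u} [TopologicalSpace G] [Group G] [IsTopologicalGroup G] [T2Space G]
  [MeasurableSpace G] [BorelSpace G]
  {μ : Measure G} [IsLocallyFiniteMeasure μ] [μ.Regular] [μ.IsMulLeftInvariant]

lemma cv_add_left (a b c : Lp ℂ 1 μ) : cv (a + b) c = cv a c + cv b c := by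
  show ac μ (dia μ (Rp.triv G ℂ)) (a + b) c = _
  rw [map_add]
  rfl

lemma cv_add_right (a b c : Lp ℂ 1 μ) : cv a (b + c) = cv a b + cv a c :=
  map_add (ac μ (dia μ (Rp.triv G ℂ)) a) b c

lemma cv_zero_left (a : Lp ℂ 1 μ) : cv (0 : Lp ℂ 1 μ) a = 0 := by
  show ac μ (dia μ (Rp.triv G ℂ)) 0 a = _
  rw [map_zero]
  rfl

lemma cv_zero_right (a : Lp ℂ 1 μ) : cv a (0 : Lp ℂ 1 μ) = 0 :=
  map_zero (ac μ (dia μ (Rp.triv G ℂ)) a)

lemma cv_smul_left (c : ℂ) (a b : Lp ℂ 1 μ) : cv (c • a) b = c • cv a b := by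
  show ac μ (dia μ (Rp.triv G ℂ)) (c • a) b = _
  rw [map_smul]
  rfl

lemma cv_smul_right (c : ℂ) (a b : Lp ℂ 1 μ) : cv a (c • b) = c • cv a b :=
  map_smul (ac μ (dia μ (Rp.triv G ℂ)) a) c b

lemma cv_assoc (a b c : Lp ℂ 1 μ) : cv (cv a b) c = cv a (cv b c) :=
  ac_cv (dia μ (Rp.triv G ℂ)) a b c

lemma norm_cv_le (a b : Lp ℂ 1 μ) : ‖cv a b‖ ≤ ‖a‖ * ‖b‖ :=
  norm_ac_le (dia μ (Rp.triv G ℂ)) a b

/-- The convolution product is the Bochner integral of translates. -/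
lemma cv_eq (a b : Lp ℂ 1 μ) : cv a b = ∫ x, a x • tr μ x b ∂μ := by
  show ac μ (dia μ (Rp.triv G ℂ)) a b = _
  rw [ac_apply]
  refine integral_congr_ae (Filter.Eventually.of_forall fun x => ?_)
  show a x • (dia μ (Rp.triv G ℂ)).op x b = a x • tr μ x b
  rw [dia_triv]

lemma ac_triv {E : Type u} [NormedAddCommGroup E] [NormedSpace ℂ E] [CompleteSpace E]
    (a : Lp ℂ 1 μ) (v : E) : ac μ (Rp.triv G E) a v = (∫ x, a x ∂μ) • v := by
  rw [ac_apply]
  exact integral_smul_const _ _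

lemma int_cv (a b : Lp ℂ 1 μ) : ∫ t, cv a b t ∂μ = (∫ t, a t ∂μ) * ∫ t, b t ∂μ := by
  have h1 := ac_cv (μ := μ) (Rp.triv G (ULift.{u} ℂ)) a b (ULift.up 1)
  rw [ac_triv, ac_triv, ac_triv] at h1
  have h2 := congrArg ULift.down h1
  have h3 : (∫ t, cv a b t ∂μ) * 1 = (∫ t, a t ∂μ) * ((∫ t, b t ∂μ) * 1) := h2
  rwa [mul_one, mul_one] at h3

end cvl

end Pool.Agent.W667
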