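import Pool.Agent.W667.Stm

set_option autoImplicit false
set_option linter.unusedSectionVars false

/-!
Modules of representations, smoothing operators and the lifting property.
-/

namespace Pool.Agent.W667

open MeasureTheory Filter Topology Pool.Agent.Helper832.CD

universe u v v' v''

section basic

variable {G : Type u} [TopologicalSpace G] [Group G] [IsTopologicalGroup G] [T2Space G]
  [MeasurableSpace G] [BorelSpace G]
  {μ : Measure G} [IsLocallyFiniteMeasure μ] [μ.Regular] [μ.IsMulLeftInvariant]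
  {E : Type v} {E' : Type v'} {E'' : Type v''} [NormedAddCommGroup E] [NormedSpace ℂ E]
  [CompleteSpace E]
  [NormedAddCommGroup E'] [NormedSpace ℂ E'] [CompleteSpace E']
  [NormedAddCommGroup E''] [NormedSpace ℂ E''] [CompleteSpace E'']

/-- The family `y ↦ (u ↦ (L_y w) ⊗ u)`. -/
noncomputable def wt (w : Lp ℂ 1 μ) (E : Type v) [NormedAddCommGroup E] [NormedSpace ℂ E]
    [CompleteSpace E] : G → E →L[ℂ] Lp E 1 μ := fun y => tnL μ E (tr μ y w)

lemma wt_apply (w : Lp ℂ 1 μ) (y : G) (v : E) : wt w E y v = tn (tr μ y w) v := rfl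

lemma sc_wt (w : Lp ℂ 1 μ) : SC (wt w E) := by
  refine ⟨⟨‖w‖, fun x => ?_⟩, fun v => ?_⟩
  · refine (norm_tnL_le _).trans ?_
    rw [norm_tr]
  · exact ((tnL μ E).continuous.comp (tr_cont w)).clm_apply continuous_const

lemma itw_wt (π : Rp G E) (w : Lp ℂ 1 μ) : Itw (dia μ π) (dia μ (dia μ π)) (Mul μ (wt w E)) := by
  refine itw_Mul π (dia μ π) _ (sc_wt w) fun g x v => ?_
  rw [wt_apply, wt_apply, dia_tn, tr_mul]

/-- The smoothing operator `F ↦ ∫ (L_y w) ⊗ F(y) dy`. -/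
noncomputable def Sm (w : Lp ℂ 1 μ) : Lp E 1 μ →L[ℂ] Lp E 1 μ :=
  (II μ (Lp E 1 μ)).comp (Mul μ (wt w E))

lemma Sm_apply (w : Lp ℂ 1 μ) (F : Lp E 1 μ) : Sm w F = II μ (Lp E 1 μ) (Mul μ (wt w E) F) := rfl

lemma itw_Sm (π : Rp G E) (w : Lp ℂ 1 μ) : Itw (dia μ π) (dia μ π) (Sm w) :=
  (itw_II (dia μ π)).comp (itw_wt π w)

lemma int_tr (g : G) (b : Lp ℂ 1 μ) : ∫ x, tr μ g b x ∂μ = ∫ x, b x ∂μ := II_tr (E := ℂ) g b

lemma II_Sm (w : Lp ℂ 1 μ) (hw : ∫ x, w x ∂μ = 1) (F : Lp E 1 μ) : II μ E (Sm w F) = II μ E F := by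
  rw [Sm_apply, ← II_cmp]
  congr 1
  refine Lp.ext ?_
  filter_upwards [cmp_coe (II μ E) (Mul μ (wt w E) F), Mul_coe (wt w E) (sc_wt w) F] with x h1 h2
  rw [h1, h2, wt_apply, II_tn, int_tr, hw, one_smul]

lemma Sm_cmp (w : Lp ℂ 1 μ) (T : E →L[ℂ] E') (F : Lp E 1 μ) :
    Sm w (cmp μ T F) = cmp μ T (Sm w F) := by
  rw [Sm_apply, Sm_apply, ← II_cmp]
  congr 1
  refine Lp.ext ?_
  filter_upwards [cmp_coe (cmp μ T) (Mul μ (wt w E) F), Mul_coe (wt w E) (sc_wt w) F,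
    Mul_coe (wt w E') (sc_wt w) (cmp μ T F), cmp_coe T F] with x h1 h2 h3 h4
  rw [h1, h2, h3, h4, wt_apply, wt_apply, cmp_tn]

/-- The operator `F ↦ [x ↦ x⁻¹ ∫ w'(y⁻¹ x) (L_y w) ⊗ F(y) dy]`. -/
noncomputable def rh (w w' : Lp ℂ 1 μ) (π : Rp G E) : Lp E 1 μ →L[ℂ] Lp (Lp E 1 μ) 1 μ :=
  (Mul μ (fun x => (dia μ π).op x⁻¹)).comp ((Sm w').comp (Mul μ (wt w E)))

lemma itw_rh (w w' : Lp ℂ 1 μ) (π : Rp G E) :
    Itw (dia μ π) (dia μ (Rp.triv G (Lp E 1 μ))) (rh w w' π) := by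
  have h1 : Itw (dia μ (dia μ π)) (dia μ (Rp.triv G (Lp E 1 μ)))
      (Mul μ (fun x => (dia μ π).op x⁻¹)) := by
    refine itw_Mul (dia μ π) (Rp.triv G (Lp E 1 μ)) _ (dia μ π).sc_inv fun g x v => ?_
    rw [← (dia μ π).mul, mul_inv_rev, inv_mul_cancel_right]
    rfl
  exact h1.comp ((itw_Sm (dia μ π) w').comp (itw_wt π w))

lemma II_rh (w w' : Lp ℂ 1 μ) (hw' : ∫ x, w' x ∂μ = 1) (π : Rp G E) (F : Lp E 1 μ) :
    II μ (Lp E 1 μ) (Mul μ (dia μ π).op (rh w w' π F)) = Sm w F := by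
  have h1 : Mul μ (dia μ π).op (rh w w' π F) = Sm w' (Mul μ (wt w E) F) := by
    refine Lp.ext ?_
    filter_upwards [Mul_coe (dia μ π).op (dia μ π).sc (rh w w' π F),
      Mul_coe (fun x => (dia μ π).op x⁻¹) (dia μ π).sc_inv (Sm w' (Mul μ (wt w E) F))] with x h1 h2
    rw [h1]
    have h3 : rh w w' π F x = (dia μ π).op x⁻¹ (Sm w' (Mul μ (wt w E) F) x) := h2
    rw [h3, (dia μ π).op_inv]
  rw [h1, II_Sm w' hw']
  rfl

lemma xt_ac (π : Rp G E) (F : Lp E 1 μ) : xt (ac μ π) F = II μ E (Mul μ π.op F) := by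
  have h1 : xt (ac μ π) = (II μ E).comp (Mul μ π.op) := by
    refine clm_ext fun b v => ?_
    rw [xt_tn]
    rfl
  rw [h1]
  rfl

lemma ac_lft (a b : Lp ℂ 1 μ) (v : E) :
    ac μ (dia μ (Rp.triv G E)) a (tn b v) = tn (cv a b) v := by
  let T : Lp ℂ 1 μ →L[ℂ] Lp E 1 μ := (ContinuousLinearMap.apply ℂ (Lp E 1 μ) v).comp (tnL μ E)
  have hT : ∀ b, T b = tn b v := fun _ => rfl
  have h1 : Itw (dia μ (Rp.triv G ℂ)) (dia μ (Rp.triv G E)) T := by
    intro g b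
    rw [dia_triv, dia_triv, hT, hT, tr_tn]
  exact (itw_ac h1 a b).symm

end basic

section mods

variable {G : Type u} [TopologicalSpace G] [Group G] [IsTopologicalGroup G] [T2Space G]
  [MeasurableSpace G] [BorelSpace G]
  {μ : Measure G} [IsLocallyFiniteMeasure μ] [μ.Regular] [μ.IsMulLeftInvariant]
  {E : Type u} [NormedAddCommGroup E] [NormedSpace ℂ E] [CompleteSpace E]
  {E' : Type u} [NormedAddCommGroup E'] [NormedSpace ℂ E'] [CompleteSpace E']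

/-- The module of a representation. -/
noncomputable def mdl (μ : Measure G) [IsLocallyFiniteMeasure μ] [μ.Regular]
    [μ.IsMulLeftInvariant] (π : Rp G E) : LMod (GA μ) where
  carrier := E
  act a v := ac μ π a v
  bdd := (ac μ π).isBoundedBilinearMap
  act_mul a b v := (congrArg (fun c : Lp ℂ 1 μ => ac μ π c v) (ga_mul μ a b)).trans
    (ac_cv (μ := μ) π a b v)

lemma mdl_act (π : Rp G E) (a : Lp ℂ 1 μ) (v : E) :
    (mdl μ π).act a v = (ac μ π a v : E) := rfl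

lemma hom_of_itw {π : Rp G E} {π' : Rp G E'} {T : E →L[ℂ] E'} (h : Itw π π' T) :
    LMod.IsHom (mdl μ π) (mdl μ π') T :=
  ⟨T.isBoundedLinearMap, fun a v => itw_ac (μ := μ) h a v⟩

/-- The module action as a bilinear operator. -/
noncomputable def be (Y : LMod (GA μ)) : Lp ℂ 1 μ →L[ℂ] Y.carrier →L[ℂ] Y.carrier :=
  Y.bdd.toContinuousLinearMap

lemma be_apply (Y : LMod (GA μ)) (a : Lp ℂ 1 μ) (y : Y.carrier) : be Y a y = Y.act a y := rfl

lemma xt_be_cmp {Y Z : LMod (GA μ)} (D : Y.carrier →L[ℂ] Z.carrier)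
    (hD : ∀ a y, D (Y.act a y) = Z.act a (D y)) (H : Lp Y.carrier 1 μ) :
    D (xt (be Y) H) = xt (be Z) (cmp μ D H) := by
  have h : D.comp (xt (be Y)) = (xt (be Z)).comp (cmp μ D) := by
    refine clm_ext fun b v => ?_
    rw [ContinuousLinearMap.comp_apply, ContinuousLinearMap.comp_apply, xt_tn, cmp_tn, xt_tn]
    exact hD b v
  exact congrArg (fun T : Lp Y.carrier 1 μ →L[ℂ] Z.carrier => T H) h

lemma xt_be_act (Y : LMod (GA μ)) (a : Lp ℂ 1 μ) (H : Lp Y.carrier 1 μ) :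
    xt (be Y) (ac μ (dia μ (Rp.triv G Y.carrier)) a H) = Y.act a (xt (be Y) H) := by
  have h : (xt (be Y)).comp (ac μ (dia μ (Rp.triv G Y.carrier)) a) =
      (be Y a).comp (xt (be Y)) := by
    refine clm_ext fun b v => ?_
    rw [ContinuousLinearMap.comp_apply, ContinuousLinearMap.comp_apply, ac_lft, xt_tn, xt_tn,
      be_apply, be_apply, be_apply]
    exact (congrArg (fun c : GA μ => Y.act c v) (ga_mul μ a b)).symm.trans (Y.act_mul a b v)
  exact congrArg (fun T : Lp Y.carrier 1 μ →L[ℂ] Y.carrier => T H) h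

/-- The lifting property of `L¹(G; E)`, up to smoothing (for operators). -/
lemma lifts0 (π : Rp G E) (w w' : Lp ℂ 1 μ) (hw' : ∫ x, w' x ∂μ = 1) (Y Z : LMod (GA μ))
    (D : Y.carrier →L[ℂ] Z.carrier) (T : Lp E 1 μ →L[ℂ] Z.carrier)
    (s : Z.carrier →L[ℂ] Y.carrier)
    (hD : ∀ (a : Lp ℂ 1 μ) y, D (be Y a y) = be Z a (D y))
    (hT : ∀ (a : Lp ℂ 1 μ) (F : Lp E 1 μ), T (ac μ (dia μ π) a F) = be Z a (T F))
    (h : ∀ p, D (s (T p)) = T p) :
    ∃ ψ : Lp E 1 μ →L[ℂ] Y.carrier,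
      (∀ (a : Lp ℂ 1 μ) (F : Lp E 1 μ), ψ (ac μ (dia μ π) a F) = be Y a (ψ F)) ∧
      ∀ p, D (ψ p) = T (Sm w p) := by
  refine ⟨(xt (be Y)).comp ((cmp μ (s.comp T)).comp (rh w w' π)), fun a F => ?_, fun F => ?_⟩
  · rw [ContinuousLinearMap.comp_apply, ContinuousLinearMap.comp_apply,
      ContinuousLinearMap.comp_apply, ContinuousLinearMap.comp_apply, itw_ac (itw_rh w w' π)]
    have h1 : Itw (dia μ (Rp.triv G (Lp E 1 μ))) (dia μ (Rp.triv G Y.carrier))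
        (cmp μ (s.comp T)) := by
      intro g F
      rw [dia_triv, dia_triv, cmp_tr]
    rw [itw_ac h1, xt_be_act]
    rfl
  · rw [ContinuousLinearMap.comp_apply, ContinuousLinearMap.comp_apply,
      xt_be_cmp D (fun a y => hD a y), cmp_cmp]
    have h1 : D.comp (s.comp T) = T := by
      ext p
      exact h p
    rw [h1, ← II_rh w w' hw' π F, ← xt_ac (dia μ π) (rh w w' π F)]
    exact (xt_be_cmp (Y := mdl μ (dia μ π)) (Z := Z) T (fun a y => hT a y) (rh w w' π F)).symm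

/-- The lifting property of `L¹(G; E)`, up to smoothing. -/
theorem lifts (π : Rp G E) (w w' : Lp ℂ 1 μ) (hw' : ∫ x, w' x ∂μ = 1) (Y Z : LMod (GA μ))
    (D : Y.carrier → Z.carrier) (φ : Lp E 1 μ → Z.carrier) (σ : Z.carrier → Y.carrier)
    (hD : LMod.IsHom Y Z D) (hφ : LMod.IsHom (mdl μ (dia μ π)) Z φ) (hσ : IsBoundedLinearMap ℂ σ)
    (h : ∀ p, D (σ (φ p)) = φ p) :
    ∃ ψ : Lp E 1 μ →L[ℂ] Y.carrier, LMod.IsHom (mdl μ (dia μ π)) Y ψ ∧
      ∀ p, D (ψ p) = φ (Sm w p) := by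
  obtain ⟨ψ, h1, h2⟩ := lifts0 π w w' hw' Y Z hD.1.toContinuousLinearMap
    hφ.1.toContinuousLinearMap hσ.toContinuousLinearMap (fun a y => hD.2 a y)
    (fun a F => hφ.2 a F) h
  exact ⟨ψ, ⟨ψ.isBoundedLinearMap, fun a F => h1 a F⟩, h2⟩

end mods

end Pool.Agent.W667
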