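import Pool.Agent.W667.LF

set_option autoImplicit false
set_option linter.unusedSectionVars false

/-!
Compactness of the restricted smoothing operators.
-/

namespace Pool.Agent.W667

open MeasureTheory Filter Topology

open scoped Pointwise

universe u v v' v''

section abs

variable {G : Type u} [TopologicalSpace G] [T2Space G] [MeasurableSpace G] [BorelSpace G]
  {μ : Measure G} [IsLocallyFiniteMeasure μ] [μ.Regular]
  {E : Type v} {X : Type v'} [NormedAddCommGroup E] [NormedSpace ℂ E]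
  [CompleteSpace E]
  [NormedAddCommGroup X] [NormedSpace ℂ X] [CompleteSpace X]

lemma II_mem (S : Set X) (h0 : (0 : X) ∈ S) (F : Lp E 1 μ) (hF : ‖F‖ ≤ 1) (H : Lp X 1 μ)
    (h : ∀ᵐ y ∂μ, ∃ s ∈ S, H y = ((‖F y‖ : ℝ) : ℂ) • s) :
    II μ X H ∈ closure (convexHull ℝ S) := by
  by_contra hne
  obtain ⟨f, c, h1, h2⟩ := geometric_hahn_banach_closed_point
    ((convex_convexHull ℝ S).closure) isClosed_closure hne
  have h3 : 0 < c := by
    have := h1 0 (subset_closure (subset_convexHull ℝ S h0))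
    rwa [map_zero] at this
  have h4 : f (II μ X H) = ∫ y, f (H y) ∂μ := by
    rw [II_apply]
    exact (ContinuousLinearMap.integral_comp_comm f (L1.integrable_coeFn H)).symm
  have h5 : ∫ y, f (H y) ∂μ ≤ ∫ y, ‖F y‖ * c ∂μ := by
    refine integral_mono_ae (f.integrable_comp (L1.integrable_coeFn H))
      ((L1.integrable_coeFn F).norm.mul_const c) ?_
    filter_upwards [h] with y hy
    obtain ⟨s, hs, e⟩ := hy
    rw [e]
    have e2 : ((‖F y‖ : ℝ) : ℂ) • s = ‖F y‖ • s := rfl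
    rw [e2, map_smul, smul_eq_mul]
    exact mul_le_mul_of_nonneg_left (h1 s (subset_closure (subset_convexHull ℝ S hs))).le
      (norm_nonneg _)
  rw [integral_mul_const, ← L1.norm_eq_integral_norm] at h5
  have h6 : ‖F‖ * c ≤ c := mul_le_of_le_one_left h3.le hF
  rw [h4] at h2
  linarith

lemma cpt_abs (S : Set X) (hS : IsCompact S) (h0 : (0 : X) ∈ S) (Ψ : Lp E 1 μ →L[ℂ] Lp X 1 μ)
    (h : ∀ F, ∀ᵐ y ∂μ, ∃ s ∈ S, Ψ F y = ((‖F y‖ : ℝ) : ℂ) • s) :
    IsCompactOperator ((II μ X).comp Ψ) := by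
  have hK : IsCompact (closure (convexHull ℝ S)) :=
    hS.totallyBounded.convexHull.closure.isCompact_of_isClosed isClosed_closure
  have h1 := (isCompactOperator_iff_isCompact_closure_image_closedBall
    (((II μ X).comp Ψ : Lp E 1 μ →L[ℂ] X) : Lp E 1 μ →ₗ[ℂ] X) (r := 1) one_pos).2 ?_
  · exact h1
  refine hK.of_isClosed_subset isClosed_closure ?_
  refine closure_minimal ?_ isClosed_closure
  rintro _ ⟨F, hF, rfl⟩
  exact II_mem S h0 F (mem_closedBall_zero_iff.1 hF) (Ψ F) (h F)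

end abs

section basic

variable {G : Type u} [TopologicalSpace G] [Group G] [IsTopologicalGroup G] [T2Space G]
  [MeasurableSpace G] [BorelSpace G]
  {μ : Measure G} [IsLocallyFiniteMeasure μ] [μ.Regular] [μ.IsMulLeftInvariant]
  {E : Type v} {E' : Type v'} {E'' : Type v''} [NormedAddCommGroup E] [NormedSpace ℂ E]
  [CompleteSpace E]
  [NormedAddCommGroup E'] [NormedSpace ℂ E'] [CompleteSpace E']
  [NormedAddCommGroup E''] [NormedSpace ℂ E''] [CompleteSpace E'']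

theorem cpt_Sm (C : Set G) (hC : IsCompact C) (w : Lp ℂ 1 μ) (K : Set G) (hK : IsCompact K)
    (hw : ∀ᵐ x ∂μ, x ∉ K → w x = 0) (T : E →L[ℂ] E') (hT : IsCompactOperator T) :
    IsCompactOperator ((ind μ C).comp ((Sm w).comp (cmp μ T)) : Lp E 1 μ →L[ℂ] Lp E' 1 μ) := by
  have hCm : MeasurableSet C := hC.measurableSet
  let β : G → Lp ℂ 1 μ := fun y => ind μ C (tr μ y w)
  have hβ : Continuous β := (ind μ C).continuous.comp (tr_cont w)
  have hβ0 : ∀ y, y ∉ C * K⁻¹ → β y = 0 := by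
    intro y hy
    refine Lp.ext ?_
    filter_upwards [ind_coe hCm (tr μ y w), tr_coe y w, ae_tr hw y, Lp.coeFn_zero ℂ 1 μ]
      with x h1 h2 h3 h4
    rw [h1, h4]
    by_cases h : x ∈ C
    · rw [Set.indicator_of_mem h, h2, h3]
      · rfl
      · intro h5
        refine hy ⟨x, h, (y⁻¹ * x)⁻¹, Set.inv_mem_inv.2 h5, ?_⟩
        simp
    · rw [Set.indicator_of_notMem h]
      rfl
  let B : Set (Lp ℂ 1 μ) := insert 0 (β '' (C * K⁻¹))
  have hB : IsCompact B := ((hC.mul hK.inv).image hβ).insert 0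
  have hBβ : ∀ y, β y ∈ B := by
    intro y
    by_cases h : y ∈ C * K⁻¹
    · exact Set.mem_insert_of_mem _ ⟨y, h, rfl⟩
    · rw [hβ0 y h]
      exact Set.mem_insert _ _
  have hT1 : IsCompact (closure (T '' Metric.closedBall 0 1)) :=
    IsCompactOperator.isCompact_closure_image_closedBall (f := (T : E →ₗ[ℂ] E')) hT 1
  let m : Lp ℂ 1 μ × E' → Lp E' 1 μ := fun p => tnL μ E' p.1 p.2
  have hm : Continuous m :=
    ((tnL μ E').continuous.comp continuous_fst).clm_apply continuous_snd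
  have hS : IsCompact (m '' (B ×ˢ closure (T '' Metric.closedBall 0 1))) :=
    (hB.prod hT1).image hm
  have h0T : ∀ x : E, ‖x‖ ≤ 1 → T x ∈ closure (T '' Metric.closedBall 0 1) := fun x hx =>
    subset_closure ⟨x, mem_closedBall_zero_iff.2 hx, rfl⟩
  have h0 : (0 : Lp E' 1 μ) ∈ m '' (B ×ˢ closure (T '' Metric.closedBall 0 1)) := by
    refine ⟨(0, T 0), ⟨Set.mem_insert _ _, h0T 0 (by rw [norm_zero]; exact zero_le_one)⟩, ?_⟩
    show tnL μ E' 0 (T 0) = 0
    rw [map_zero]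
    rfl
  have hmain : ((ind μ C).comp ((Sm w).comp (cmp μ T)) : Lp E 1 μ →L[ℂ] Lp E' 1 μ) =
      (II μ (Lp E' 1 μ)).comp ((cmp μ (ind μ C)).comp ((Mul μ (wt w E')).comp (cmp μ T))) := by
    ext1 F
    show ind μ C (II μ (Lp E' 1 μ) (Mul μ (wt w E') (cmp μ T F))) =
      II μ (Lp E' 1 μ) (cmp μ (ind μ C) (Mul μ (wt w E') (cmp μ T F)))
    rw [II_cmp]
  rw [hmain]
  refine cpt_abs _ hS h0 _ fun F => ?_
  filter_upwards [cmp_coe (ind μ C) (Mul μ (wt w E') (cmp μ T F)),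
    Mul_coe (wt w E') (sc_wt w) (cmp μ T F), cmp_coe T F] with y h1 h2 h3
  have h4 : ((cmp μ (ind μ C)).comp ((Mul μ (wt w E')).comp (cmp μ T))) F y =
      tn (β y) (T (F y)) := by
    refine h1.trans ?_
    rw [h2, h3, wt_apply, ind_tn hCm]
  rw [h4]
  by_cases hz : F y = 0
  · refine ⟨0, h0, ?_⟩
    rw [hz, map_zero, smul_zero]
    exact map_zero (tnL μ E' (β y))
  · have hn : ‖F y‖ ≠ 0 := norm_ne_zero_iff.2 hz
    have hn' : ((‖F y‖ : ℝ) : ℂ) ≠ 0 := by exact_mod_cast hn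
    refine ⟨m (β y, T (((‖F y‖ : ℝ) : ℂ)⁻¹ • F y)), ⟨_, ⟨hBβ y, h0T _ ?_⟩, rfl⟩, ?_⟩
    · rw [norm_smul, norm_inv, Complex.norm_real, norm_norm, inv_mul_cancel₀ hn]
    · show tn (β y) (T (F y)) = ((‖F y‖ : ℝ) : ℂ) • tn (β y) (T (((‖F y‖ : ℝ) : ℂ)⁻¹ • F y))
      rw [← tn_smul_right, ← map_smul, smul_inv_smul₀ hn']

end basic

end Pool.Agent.W667
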