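import Pool.Agent.W667.LG
import Pool.Agent.H245R3.DFCx

set_option autoImplicit false
set_option linter.unusedSectionVars false

/-!
The spaces `L¹(G; L¹(G; ...))`, with boundary operators, smoothing operators, restriction operators
and the images of tuples.
-/

namespace Pool.Agent.W667

open MeasureTheory Filter Topology TopologicalSpace
open Pool.Agent.H203R4.DF (L dl SS bd bdv jn rho norm_dl ext_dl rho_dl smul_succ)
open Pool.Agent.H245R3.DFCx (pr jn_dl bd_dl)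

universe u

section sK

variable {G : Type u} [TopologicalSpace G] [Group G] [IsTopologicalGroup G]

/-- The translate `g C`. -/
def sK (g : G) (C : Compacts G) : Compacts G :=
  ⟨(fun x => g⁻¹ * x) ⁻¹' C, by
    have : (fun x => g⁻¹ * x) ⁻¹' (C : Set G) = (fun x => g * x) '' (C : Set G) := by
      ext x
      constructor
      · intro hx
        exact ⟨g⁻¹ * x, hx, mul_inv_cancel_left g x⟩
      · rintro ⟨y, hy, rfl⟩
        show g⁻¹ * (g * y) ∈ (C : Set G)
        rwa [inv_mul_cancel_left]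
    rw [this]
    exact C.isCompact.image (continuous_const_mul g)⟩

lemma mem_sK (g : G) (C : Compacts G) (x : G) : x ∈ (sK g C : Set G) ↔ g⁻¹ * x ∈ (C : Set G) :=
  Iff.rfl

lemma sK_one (C : Compacts G) : sK 1 C = C := by
  apply Compacts.ext
  ext x
  rw [mem_sK, inv_one, one_mul]

lemma sK_mul (g h : G) (C : Compacts G) : sK (g * h) C = sK g (sK h C) := by
  apply Compacts.ext
  ext x
  rw [mem_sK, mem_sK, mem_sK, mul_inv_rev, mul_assoc]

lemma sK_mono (g : G) {C C' : Compacts G} (h : C ≤ C') : sK g C ≤ sK g C' :=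
  fun _ hx => h hx

end sK

section basic

variable {G : Type u} [TopologicalSpace G] [Group G] [IsTopologicalGroup G] [T2Space G]
  [MeasurableSpace G] [BorelSpace G]
  {μ : Measure G} [IsLocallyFiniteMeasure μ] [μ.Regular] [μ.IsMulLeftInvariant]
  {E : Type u} [NormedAddCommGroup E] [NormedSpace ℂ E] [CompleteSpace E]

/-- The boundary operator of the next level. -/
noncomputable def nD (D : Lp E 1 μ →L[ℂ] E) : Lp (Lp E 1 μ) 1 μ →L[ℂ] Lp E 1 μ :=
  II μ (Lp E 1 μ) - cmp μ D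

lemma nD_apply (D : Lp E 1 μ →L[ℂ] E) (F : Lp (Lp E 1 μ) 1 μ) :
    nD D F = II μ (Lp E 1 μ) F - cmp μ D F := rfl

/-- The smoothing operator of the next level. -/
noncomputable def nA (w : Lp ℂ 1 μ) (A : E →L[ℂ] E) : Lp E 1 μ →L[ℂ] Lp E 1 μ :=
  (Sm w).comp (cmp μ A)

lemma nA_apply (w : Lp ℂ 1 μ) (A : E →L[ℂ] E) (F : Lp E 1 μ) : nA w A F = Sm w (cmp μ A F) := rfl

/-- The restriction operator of the next level. -/
noncomputable def nR (C : Compacts G) (R : E →L[ℂ] E) : Lp E 1 μ →L[ℂ] Lp E 1 μ :=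
  (ind μ (C : Set G)).comp (cmp μ R)

lemma nR_apply (C : Compacts G) (R : E →L[ℂ] E) (F : Lp E 1 μ) :
    nR C R F = ind μ (C : Set G) (cmp μ R F) := rfl

lemma nR_coe (C : Compacts G) (R : E →L[ℂ] E) (F : Lp E 1 μ) :
    nR C R F =ᵐ[μ] (C : Set G).indicator fun x => R (F x) := by
  rw [nR_apply]
  filter_upwards [ind_coe C.isCompact.measurableSet (cmp μ R F), cmp_coe R F] with x h1 h2
  rw [h1]
  by_cases h : x ∈ (C : Set G)
  · rw [Set.indicator_of_mem h, Set.indicator_of_mem h, h2]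
  · rw [Set.indicator_of_notMem h, Set.indicator_of_notMem h]

/-- The first entry of a tuple. -/
def fs {S : Type u} {k : ℕ} (x : SS S (k + 1)) : S := (show S × SS S k from x).1

/-- The other entries of a tuple. -/
def sn {S : Type u} {k : ℕ} (x : SS S (k + 1)) : SS S k := (show S × SS S k from x).2

lemma pr_eta {S : Type u} {k : ℕ} (x : SS S (k + 1)) : pr k (fs x) (sn x) = x := rfl

lemma smul_pr {S : Type u} [Group S] {k : ℕ} (g h : S) (x : SS S k) :
    g • pr k h x = pr k (g * h) (g • x) := rfl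

lemma bd_pr {S : Type u} {k : ℕ} (g : S) (x : SS S (k + 1)) :
    bd S (k + 1) (dl (pr (k + 1) g x)) = dl x - jn S k g (bd S k (dl x)) := by
  rw [bd_dl, bd_dl]
  rfl

lemma bd_pr_zero {S : Type u} (g : S) (x : SS S 0) : bd S 0 (dl (pr 0 g x)) = dl x := by
  rw [bd_dl]
  rfl

/-- The images of tuples at the next level. -/
noncomputable def ni {Γ : Subgroup G} (k : ℕ) (ph : Lp ℂ 1 μ) (i : L (SS Γ k) →L[ℂ] E) :
    L (SS Γ (k + 1)) →L[ℂ] Lp E 1 μ :=
  Pool.Agent.H203R4.DF.ext fun x : SS Γ (k + 1) => tn (tr μ ((fs x : Γ) : G) ph) (i (dl (sn x)))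

lemma ni_dl {Γ : Subgroup G} (k : ℕ) (ph : Lp ℂ 1 μ) (i : L (SS Γ k) →L[ℂ] E) (g : Γ) (x : SS Γ k) :
    ni k ph i (dl (pr k g x)) = tn (tr μ (g : G) ph) (i (dl x)) := by
  refine ext_dl (fun x : SS Γ (k + 1) => tn (tr μ ((fs x : Γ) : G) ph) (i (dl (sn x))))
    ⟨‖ph‖ * ‖i‖, fun x => ?_⟩ _
  rw [norm_tn, norm_tr]
  refine mul_le_mul_of_nonneg_left ?_ (norm_nonneg _)
  refine (i.le_opNorm _).trans ?_
  rw [norm_dl, mul_one]

lemma ni_jn {Γ : Subgroup G} (k : ℕ) (ph : Lp ℂ 1 μ) (i : L (SS Γ k) →L[ℂ] E) (g : Γ)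
    (f : L (SS Γ k)) : ni k ph i (jn Γ k g f) = tn (tr μ (g : G) ph) (i f) := by
  have h : (ni k ph i).comp (jn Γ k g) = (tnL μ E (tr μ (g : G) ph)).comp i := by
    refine Pool.Agent.H203R4.DF.clm_ext fun x => ?_
    rw [ContinuousLinearMap.comp_apply, jn_dl]
    exact ni_dl k ph i g x
  exact congrArg (fun T : L (SS Γ k) →L[ℂ] Lp E 1 μ => T f) h

lemma abs_DD {X1 X2 X3 : Type u} [NormedAddCommGroup X1] [NormedSpace ℂ X1] [NormedAddCommGroup X2] [NormedSpace ℂ X2]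
    [NormedAddCommGroup X3] [NormedSpace ℂ X3] (I2 cD : X2 →L[ℂ] X1) (I3 cn : X3 →L[ℂ] X2)
    (h1 : ∀ F, (I2 - cD) (I3 F) = I2 (cn F)) (h2 : ∀ F, cD (cn F) = 0) (F : X3) :
    (I2 - cD) ((I3 - cn) F) = 0 := by
  have e1 : (I3 - cn) F = I3 F - cn F := rfl
  have e2 : (I2 - cD) (cn F) = I2 (cn F) - cD (cn F) := rfl
  rw [e1, map_sub, h1, e2, h2, sub_zero, sub_self]

lemma nD_nD (D : Lp E 1 μ →L[ℂ] E) (hD : ∀ F, D (nD D F) = 0)
    (F : Lp (Lp (Lp E 1 μ) 1 μ) 1 μ) : nD D (nD (E := Lp E 1 μ) (nD D) F) = 0 := by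
  have h0 : D.comp (nD D) = 0 := ContinuousLinearMap.ext hD
  have h2 : ∀ F : Lp (Lp (Lp E 1 μ) 1 μ) 1 μ, cmp μ D (cmp μ (nD D) F) = 0 := by
    intro F
    have e1 : cmp μ D (cmp μ (nD D) F) = cmp μ (D.comp (nD D)) F := cmp_cmp (nD D) D F
    rw [e1, h0]
    exact cmp_zero (E := Lp (Lp E 1 μ) 1 μ) (E' := E) F
  exact abs_DD (II μ (Lp E 1 μ)) (cmp μ D) (II μ (Lp (Lp E 1 μ) 1 μ)) (cmp μ (nD D))
    (fun F => (II_cmp (nD D) F).symm) h2 F

lemma nD_nA {w : Lp ℂ 1 μ} (hw : ∫ x, w x ∂μ = 1) (D : Lp E 1 μ →L[ℂ] E) (A : E →L[ℂ] E)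
    (h : ∀ F, D (nA w A F) = A (D F)) (F : Lp (Lp E 1 μ) 1 μ) :
    nD D (nA (E := Lp E 1 μ) w (nA w A) F) = nA w A (nD D F) := by
  have h0 : D.comp (nA w A) = A.comp D := ContinuousLinearMap.ext h
  rw [nD_apply, nA_apply (E := Lp E 1 μ) w (nA w A), II_Sm w hw, II_cmp, ← Sm_cmp, cmp_cmp, h0, nD_apply, map_sub,
    ← cmp_cmp]
  rfl

/-- The properties of the restriction operators. -/
structure IsRes (π : Rp G E) (R : Compacts G → E →L[ℂ] E) : Prop where
  norm : ∀ C v, ‖v‖ = ‖R C v‖ + ‖v - R C v‖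
  comp : ∀ C C', C ≤ C' → ∀ v, R C (R C' v) = R C v
  tend : ∀ v, Tendsto (fun C => R C v) atTop (𝓝 v)
  equi : ∀ g C v, π.op g (R C v) = R (sK g C) (π.op g v)

lemma IsRes.le {π : Rp G E} {R : Compacts G → E →L[ℂ] E} (h : IsRes π R) (C : Compacts G) (v : E) :
    ‖R C v‖ ≤ ‖v‖ := by
  rw [h.norm C v]
  exact le_add_of_nonneg_right (norm_nonneg _)

lemma IsRes.idem {π : Rp G E} {R : Compacts G → E →L[ℂ] E} (h : IsRes π R) (C : Compacts G)
    (v : E) : R C (R C v) = R C v := h.comp C C le_rfl v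

lemma nR_norm {π : Rp G E} {R : Compacts G → E →L[ℂ] E} (h : IsRes π R) (C : Compacts G)
    (F : Lp E 1 μ) : ‖F‖ = ‖nR C (R C) F‖ + ‖F - nR C (R C) F‖ := by
  rw [L1.norm_eq_integral_norm, L1.norm_eq_integral_norm, L1.norm_eq_integral_norm,
    ← integral_add (L1.integrable_coeFn _).norm (L1.integrable_coeFn _).norm]
  refine integral_congr_ae ?_
  filter_upwards [nR_coe C (R C) F, Lp.coeFn_sub F (nR C (R C) F)] with x h1 h2
  rw [h2, Pi.sub_apply, h1]
  by_cases h' : x ∈ (C : Set G)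
  · rw [Set.indicator_of_mem h']
    exact h.norm C (F x)
  · rw [Set.indicator_of_notMem h', norm_zero, sub_zero, zero_add]

lemma nR_le {π : Rp G E} {R : Compacts G → E →L[ℂ] E} (h : IsRes π R) (C : Compacts G)
    (F : Lp E 1 μ) : ‖nR C (R C) F‖ ≤ ‖F‖ := by
  rw [nR_norm h C F]
  exact le_add_of_nonneg_right (norm_nonneg _)

lemma ind_tend (b : Lp ℂ 1 μ) :
    Tendsto (fun C : Compacts G => ind μ (C : Set G) b) atTop (𝓝 b) := by
  rw [Metric.tendsto_atTop]
  intro ε hε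
  obtain ⟨K, hK, h1⟩ := exists_compact b (ε / 2) (by positivity)
  refine ⟨⟨K, hK⟩, fun C hC => ?_⟩
  rw [dist_eq_norm, ← norm_neg, neg_sub]
  exact (h1 C C.isCompact.measurableSet hC).trans_lt (by linarith)

lemma nR_tend_tn {π : Rp G E} {R : Compacts G → E →L[ℂ] E} (h : IsRes π R) (b : Lp ℂ 1 μ) (v : E) :
    Tendsto (fun C : Compacts G => nR C (R C) (tn b v)) atTop (𝓝 (tn b v)) := by
  have h1 : (fun C : Compacts G => nR C (R C) (tn b v)) = fun C : Compacts G =>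
      tnL μ E (ind μ (C : Set G) b) (R C v) := by
    funext C
    rw [nR_apply, cmp_tn, ind_tn C.isCompact.measurableSet, tnL_apply]
  have h2 : Continuous (fun p : Lp ℂ 1 μ × E => tnL μ E p.1 p.2) :=
    ((tnL μ E).continuous.comp continuous_fst).clm_apply continuous_snd
  have h3 : Tendsto (fun C : Compacts G => (ind μ (C : Set G) b, R C v)) atTop (𝓝 (b, v)) :=
    (ind_tend b).prodMk_nhds (h.tend v)
  have h4 : Tendsto (fun p : Lp ℂ 1 μ × E => tnL μ E p.1 p.2) (𝓝 (b, v)) (𝓝 (tn b v)) :=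
    h2.tendsto (b, v)
  have h5 := h4.comp h3
  rw [h1]
  exact h5

/-- A general principle: convergence on a dense set. -/
lemma tend_dense {X K : Type u} [NormedAddCommGroup X] [NormedSpace ℂ X] [SemilatticeSup K]
    [Nonempty K] (T : K → X →L[ℂ] X) (hT : ∀ C x, ‖T C x‖ ≤ ‖x‖) (x : X)
    (hx : x ∈ closure {y | Tendsto (fun C => T C y) atTop (𝓝 y)}) :
    Tendsto (fun C => T C x) atTop (𝓝 x) := by
  rw [Metric.mem_closure_iff] at hx
  rw [Metric.tendsto_atTop]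
  intro ε hε
  obtain ⟨F', hF', hd⟩ := hx (ε / 3) (by positivity)
  have hF'' : Tendsto (fun C => T C F') atTop (𝓝 F') := hF'
  rw [Metric.tendsto_atTop] at hF''
  obtain ⟨C0, h1⟩ := hF'' (ε / 3) (by positivity)
  refine ⟨C0, fun C hC => ?_⟩
  have e1 := h1 C hC
  rw [dist_eq_norm] at hd e1 ⊢
  have e2 : T C x - x = T C (x - F') + (T C F' - F') - (x - F') := by
    rw [map_sub]; abel
  rw [e2]
  have e3 := hT C (x - F')
  have e4 := norm_sub_le (T C (x - F') + (T C F' - F')) (x - F')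
  have e5 := norm_add_le (T C (x - F')) (T C F' - F')
  linarith

lemma nR_tend {π : Rp G E} {R : Compacts G → E →L[ℂ] E} (h : IsRes π R) (F : Lp E 1 μ) :
    Tendsto (fun C : Compacts G => nR C (R C) F) atTop (𝓝 F) := by
  have h1 : F ∈ {F | Tendsto (fun C : Compacts G => nR C (R C) F) atTop (𝓝 F)} := by
    refine tn_induction (motive := fun F : Lp E 1 μ =>
      F ∈ {F | Tendsto (fun C : Compacts G => nR C (R C) F) atTop (𝓝 F)})
      (fun b v => nR_tend_tn h b v) (fun F F' h1 h2 => ?_) ?_ F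
    · have h3 : (fun C : Compacts G => nR C (R C) (F + F')) =
          fun C : Compacts G => nR C (R C) F + nR C (R C) F' := by
        funext C
        exact (nR C (R C)).map_add F F'
      show Tendsto (fun C : Compacts G => nR C (R C) (F + F')) atTop (𝓝 (F + F'))
      rw [h3]
      exact Tendsto.add h1 h2
    · exact isClosed_of_closure_subset fun F hF =>
        tend_dense (fun C => nR C (R C)) (fun C F => nR_le h C F) F hF
  exact h1

lemma nR_isRes {π : Rp G E} {R : Compacts G → E →L[ℂ] E} (h : IsRes π R) :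
    IsRes (dia μ π) (fun C => nR C (R C)) where
  norm C F := nR_norm h C F
  comp C C' hC F := by
    refine Lp.ext ?_
    filter_upwards [nR_coe C (R C) (nR C' (R C') F), nR_coe C' (R C') F, nR_coe C (R C) F]
      with x h1 h2 h3
    rw [h1, h3]
    by_cases h' : x ∈ (C : Set G)
    · rw [Set.indicator_of_mem h', Set.indicator_of_mem h', h2, Set.indicator_of_mem (hC h'),
        h.comp C C' hC]
    · rw [Set.indicator_of_notMem h', Set.indicator_of_notMem h']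
  tend F := nR_tend h F
  equi g C F := by
    refine Lp.ext ?_
    filter_upwards [dia_coe π g (nR C (R C) F), ae_tr (nR_coe C (R C) F) g,
      nR_coe (sK g C) (R (sK g C)) ((dia μ π).op g F), dia_coe π g F] with x h1 h2 h3 h4
    rw [h1, h2, h3]
    by_cases h' : g⁻¹ * x ∈ (C : Set G)
    · rw [Set.indicator_of_mem h', Set.indicator_of_mem ((mem_sK g C x).2 h'), h4, h.equi]
    · rw [Set.indicator_of_notMem h', Set.indicator_of_notMem (fun h5 => h' ((mem_sK g C x).1 h5)),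
        map_zero]

end basic

section lev

variable {G : Type u} [TopologicalSpace G] [Group G] [IsTopologicalGroup G] [T2Space G]
  [MeasurableSpace G] [BorelSpace G]

/-- The data of one level. -/
structure Lev (μ : Measure G) [IsLocallyFiniteMeasure μ] [μ.Regular] [μ.IsMulLeftInvariant]
    (Γ : Subgroup G) (w ph : Lp ℂ 1 μ) (k : ℕ) where
  E : Type u
  [grp : NormedAddCommGroup E]
  [spc : NormedSpace ℂ E]
  [cpl : CompleteSpace E]
  π : Rp G E
  D : Lp E 1 μ →L[ℂ] E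
  A : E →L[ℂ] E
  R : Compacts G → E →L[ℂ] E
  i : L (SS Γ k) →L[ℂ] E
  D_itw : Itw (dia μ π) π D
  A_itw : Itw π π A
  DD : ∀ F, D (nD D F) = 0
  DA : ∀ F, D (nA w A F) = A (D F)
  res : IsRes π R
  cpt : ∀ C, IsCompactOperator ((R C).comp A)
  i_equi : ∀ (g : Γ) f, i (rho g f) = π.op (g : G) (i f)
  Di : ∀ f, D (ni k ph i f) = i (bd Γ k f)

attribute [instance] Lev.grp Lev.spc Lev.cpl

variable {μ : Measure G} [IsLocallyFiniteMeasure μ] [μ.Regular] [μ.IsMulLeftInvariant]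
  {Γ : Subgroup G} {w ph : Lp ℂ 1 μ} {k : ℕ}

/-- The next level. -/
noncomputable def nxt (hw : ∫ x, w x ∂μ = 1) (hc : ∃ K : Set G, IsCompact K ∧ ∀ᵐ x ∂μ, x ∉ K → w x = 0)
    (hp : ∫ x, ph x ∂μ = 1) (l : Lev μ Γ w ph k) : Lev μ Γ w ph (k + 1) where
  E := Lp l.E 1 μ
  π := dia μ l.π
  D := nD l.D
  A := nA w l.A
  R C := nR C (l.R C)
  i := ni k ph l.i
  D_itw := (itw_II (dia μ l.π)).sub (itw_cmp (dia μ l.π) l.π l.D l.D_itw)
  A_itw := (itw_Sm l.π w).comp (itw_cmp l.π l.π l.A l.A_itw)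
  DD := nD_nD l.D l.DD
  DA := nD_nA hw l.D l.A l.DA
  res := nR_isRes l.res
  cpt C := by
    obtain ⟨K, hK, h1⟩ := hc
    have h2 := cpt_Sm (μ := μ) (C : Set G) C.isCompact w K hK h1 ((l.R C).comp l.A) (l.cpt C)
    have h3 : (nR C (l.R C)).comp (nA w l.A) = (ind μ (C : Set G)).comp ((Sm w).comp
        (cmp μ ((l.R C).comp l.A))) := by
      ext1 F
      show ind μ (C : Set G) (cmp μ (l.R C) (Sm w (cmp μ l.A F))) =
        ind μ (C : Set G) (Sm w (cmp μ ((l.R C).comp l.A) F))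
      rw [← Sm_cmp, cmp_cmp]
    rw [h3]
    exact h2
  i_equi g f := by
    have h : (ni k ph l.i).comp (rho g) = ((dia μ l.π).op (g : G)).comp (ni k ph l.i) := by
      refine Pool.Agent.H203R4.DF.clm_ext fun x => ?_
      rw [ContinuousLinearMap.comp_apply, ContinuousLinearMap.comp_apply, rho_dl, ← pr_eta x,
        smul_pr, ni_dl, ni_dl, dia_tn, ← l.i_equi, rho_dl, Subgroup.coe_mul, tr_mul]
    exact congrArg (fun T : L (SS Γ (k + 1)) →L[ℂ] Lp l.E 1 μ => T f) h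
  Di f := by
    have h : (nD l.D).comp (ni (k + 1) ph (ni k ph l.i)) = (ni k ph l.i).comp (bd Γ (k + 1)) := by
      refine Pool.Agent.H203R4.DF.clm_ext fun x => ?_
      rw [ContinuousLinearMap.comp_apply, ContinuousLinearMap.comp_apply, ← pr_eta x, ni_dl,
        bd_pr, map_sub, ni_jn, nD_apply, II_tn, int_tr, hp, one_smul, cmp_tn, l.Di]
    exact congrArg (fun T : L (SS Γ (k + 2)) →L[ℂ] Lp l.E 1 μ => T f) h

lemma ulift_finite : FiniteDimensional ℂ (ULift.{u} ℂ) :=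
  Module.Finite.equiv (ULift.moduleEquiv (R := ℂ) (M := ℂ)).symm

/-- The lowest level. -/
noncomputable def bas (hw : ∫ x, w x ∂μ = 1) (hp : ∫ x, ph x ∂μ = 1) : Lev μ Γ w ph 0 where
  E := ULift.{u} ℂ
  π := Rp.triv G (ULift.{u} ℂ)
  D := II μ (ULift.{u} ℂ)
  A := ContinuousLinearMap.id ℂ _
  R _ := ContinuousLinearMap.id ℂ _
  i := Pool.Agent.H203R4.DF.ext fun _ => ULift.up 1
  D_itw := itw_II (Rp.triv G (ULift.{u} ℂ))
  A_itw := Itw.id _
  DD F := by
    rw [nD_apply, map_sub, II_cmp, sub_self]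
  DA F := by
    rw [nA_apply, II_Sm w hw, cmp_id]
    rfl
  res :=
    { norm := fun C v => by
        show ‖v‖ = ‖v‖ + ‖v - v‖
        rw [sub_self, norm_zero, add_zero]
      comp := fun _ _ _ _ => rfl
      tend := fun v => tendsto_const_nhds
      equi := fun _ _ _ => rfl }
  cpt _ := by
    have := ulift_finite.{u}
    have : ProperSpace (ULift.{u} ℂ) := FiniteDimensional.proper ℂ (ULift.{u} ℂ)
    exact isCompactOperator_of_locallyCompactSpace_dom _
  i_equi g f := by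
    have h : (Pool.Agent.H203R4.DF.ext fun _ : SS Γ 0 => (ULift.up 1 : ULift.{u} ℂ)).comp (rho g) =
        Pool.Agent.H203R4.DF.ext fun _ : SS Γ 0 => (ULift.up 1 : ULift.{u} ℂ) := by
      refine Pool.Agent.H203R4.DF.clm_ext fun x => ?_
      rw [ContinuousLinearMap.comp_apply, rho_dl]
      rfl
    exact congrArg (fun T : L (SS Γ 0) →L[ℂ] ULift.{u} ℂ => T f) h
  Di f := by
    have hb : ∃ C : ℝ, ∀ s : SS Γ 0, ‖(ULift.up 1 : ULift.{u} ℂ)‖ ≤ C := ⟨_, fun _ => le_rfl⟩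
    have h : (II μ (ULift.{u} ℂ)).comp (ni 0 ph (Pool.Agent.H203R4.DF.ext fun _ : SS Γ 0 =>
        (ULift.up 1 : ULift.{u} ℂ))) = (Pool.Agent.H203R4.DF.ext fun _ : SS Γ 0 =>
        (ULift.up 1 : ULift.{u} ℂ)).comp (bd Γ 0) := by
      refine Pool.Agent.H203R4.DF.clm_ext fun x => ?_
      rw [ContinuousLinearMap.comp_apply, ContinuousLinearMap.comp_apply, ← pr_eta x, ni_dl,
        bd_pr_zero, II_tn, int_tr, hp, one_smul]
    exact congrArg (fun T : L (SS Γ 1) →L[ℂ] ULift.{u} ℂ => T f) h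

/-- All levels. -/
noncomputable def lev (Γ : Subgroup G) (hw : ∫ x, w x ∂μ = 1)
    (hc : ∃ K : Set G, IsCompact K ∧ ∀ᵐ x ∂μ, x ∉ K → w x = 0) (hp : ∫ x, ph x ∂μ = 1) :
    ∀ k, Lev μ Γ w ph k
  | 0 => bas hw hp
  | k + 1 => nxt hw hc hp (lev Γ hw hc hp k)

end lev

end Pool.Agent.W667
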