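import Pool.Agent.H203R4.DF.StepB
import Pool.Agent.H789R5.DF_Min
import Pool.Agent.H245R3.DFCx
import Pool.Agent.H203R4.DF.TFinal

set_option autoImplicit false
set_option linter.unusedSectionVars false

/-!
The descent, for Banach spaces with restriction operators.
-/

namespace Pool.Agent.W667

open Topology Filter
open Pool.Agent.H203R4.DF (L dl rho norm_dl ext_dl rho_dl clm_ext hasSum_ext norm_ext_apply_le
  rho_rho_inv isOpen_osc)

universe u

/-- A Banach space with an action of `Γ` and restriction operators. -/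
structure Sys (Γ : Type u) [Group Γ] (K : Type u) [SemilatticeSup K] (V : Type u)
    [NormedAddCommGroup V] [NormedSpace ℂ V] where
  sk : Γ → K → K
  sk_one : ∀ C, sk 1 C = C
  sk_mul : ∀ g h C, sk (g * h) C = sk g (sk h C)
  sk_mono : ∀ g C C', C ≤ C' → sk g C ≤ sk g C'
  op : Γ → V →L[ℂ] V
  one : ∀ v, op 1 v = v
  mul : ∀ g h v, op (g * h) v = op g (op h v)
  nrm : ∀ g v, ‖op g v‖ ≤ ‖v‖
  R : K → V →L[ℂ] V
  R_norm : ∀ C v, ‖v‖ = ‖R C v‖ + ‖v - R C v‖
  R_comp : ∀ C C', C ≤ C' → ∀ v, R C (R C' v) = R C v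
  R_tend : ∀ v, Tendsto (fun C => R C v) atTop (𝓝 v)
  R_equi : ∀ g C v, op g (R C v) = R (sk g C) (op g v)

variable {Γ : Type u} [Group Γ] {K : Type u} [SemilatticeSup K] [Nonempty K] {V : Type u}
  [NormedAddCommGroup V] [NormedSpace ℂ V] [CompleteSpace V]

namespace Sys

lemma op_inv (S : Sys Γ K V) (g : Γ) (v : V) : S.op g (S.op g⁻¹ v) = v := by
  rw [← S.mul, mul_inv_cancel, S.one]

lemma R_le (S : Sys Γ K V) (C : K) (v : V) : ‖S.R C v‖ ≤ ‖v‖ := by
  rw [S.R_norm C v]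
  exact le_add_of_nonneg_right (norm_nonneg _)

lemma sub_R_le (S : Sys Γ K V) (C : K) (v : V) : ‖v - S.R C v‖ ≤ ‖v‖ - ‖S.R C v‖ := by
  have := S.R_norm C v
  linarith

lemma inj (S : Sys Γ K V) {v v' : V} (h : ∀ C, S.R C v = S.R C v') : v = v' := by
  refine tendsto_nhds_unique (S.R_tend v) ?_
  have h1 : (fun C => S.R C v) = fun C => S.R C v' := funext h
  rw [h1]
  exact S.R_tend v'

lemma norm_le_of_R (S : Sys Γ K V) {v : V} {M : ℝ} (h : ∀ C, ‖S.R C v‖ ≤ M) : ‖v‖ ≤ M :=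
  le_of_tendsto (S.R_tend v).norm (Filter.Eventually.of_forall h)

lemma decode (S : Sys Γ K V) (c : K → V) (M : ℝ) (hb : ∀ C, ‖c C‖ ≤ M)
    (hc : ∀ C C', C ≤ C' → S.R C (c C') = c C) : ∃ v, ∀ C, S.R C v = c C := by
  have hbd : BddAbove (Set.range fun C => ‖c C‖) := ⟨M, by rintro _ ⟨C, rfl⟩; exact hb C⟩
  have h1 : CauchySeq c := by
    rw [Metric.cauchySeq_iff']
    intro ε hε
    obtain ⟨_, ⟨N, rfl⟩, hN⟩ := exists_lt_of_lt_csSup (Set.range_nonempty fun C => ‖c C‖)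
      (show sSup (Set.range fun C => ‖c C‖) - ε < sSup (Set.range fun C => ‖c C‖) by linarith)
    refine ⟨N, fun n hn => ?_⟩
    have h2 := S.R_norm N (c n)
    rw [hc N n hn] at h2
    have h3 : ‖c n‖ ≤ sSup (Set.range fun C => ‖c C‖) := le_csSup hbd ⟨n, rfl⟩
    rw [dist_eq_norm]
    simp only at hN
    linarith
  obtain ⟨v, hv⟩ := cauchySeq_tendsto_of_complete h1
  refine ⟨v, fun C => ?_⟩
  have h4 : Tendsto (fun C' => S.R C (c C')) atTop (𝓝 (S.R C v)) :=
    ((S.R C).continuous.tendsto v).comp hv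
  refine tendsto_nhds_unique h4 (tendsto_const_nhds.congr' ?_)
  filter_upwards [eventually_ge_atTop C] with C' hC'
  exact (hc C C' hC').symm

end Sys

/-- Families of restrictions. -/
def ZT (_ : Sys Γ K V) (T : Type u) : Type u := T → K → V

variable {S : Sys Γ K V} {T : Type u}

instance instTopZT : TopologicalSpace (ZT S T) := inferInstanceAs (TopologicalSpace (T → K → V))

instance instT2ZT : T2Space (ZT S T) := inferInstanceAs (T2Space (T → K → V))

instance instActZT [MulAction Γ T] : MulAction Γ (ZT S T) where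
  smul g z := fun t C => S.op g (z (g⁻¹ • t) (S.sk g⁻¹ C))
  one_smul z := by
    funext t C
    show S.op 1 (z ((1 : Γ)⁻¹ • t) (S.sk (1 : Γ)⁻¹ C)) = z t C
    rw [inv_one, one_smul, S.sk_one, S.one]
  mul_smul g h z := by
    funext t C
    show S.op (g * h) (z ((g * h)⁻¹ • t) (S.sk (g * h)⁻¹ C)) =
      S.op g (S.op h (z (h⁻¹ • g⁻¹ • t) (S.sk h⁻¹ (S.sk g⁻¹ C))))
    rw [mul_inv_rev, mul_smul, S.sk_mul, S.mul]

lemma smulT [MulAction Γ T] (g : Γ) (z : ZT S T) (t : T) (C : K) :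
    (g • z) t C = S.op g (z (g⁻¹ • t) (S.sk g⁻¹ C)) := rfl

lemma cont_evalT (t : T) (C : K) : Continuous (fun z : ZT S T => z t C) :=
  (continuous_apply C).comp (continuous_apply (A := fun _ : T => K → V) t)

lemma cont_smulT [MulAction Γ T] (g : Γ) : Continuous (fun z : ZT S T => g • z) := by
  refine continuous_pi fun t => continuous_pi fun C => ?_
  exact (S.op g).continuous.comp (cont_evalT (g⁻¹ • t) (S.sk g⁻¹ C))

/-- The compact set of families. -/
def BT (S : Sys Γ K V) (T : Type u) (A : V →L[ℂ] V) (r : ℝ) : Set (ZT S T) :=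
  {z | ∀ t, (∀ C, z t C ∈ closure ((S.R C).comp A '' Metric.closedBall 0 r)) ∧
    ∀ C C', C ≤ C' → S.R C (z t C') = z t C}

lemma isCompact_BT (A : V →L[ℂ] V) (hA : ∀ C, IsCompactOperator ((S.R C).comp A)) (r : ℝ) :
    IsCompact (BT S T A r) := by
  have h1 : IsCompact (Set.pi Set.univ fun _ : T => Set.pi Set.univ fun C : K =>
      closure ((S.R C).comp A '' Metric.closedBall 0 r)) :=
    isCompact_univ_pi fun _ => isCompact_univ_pi fun C =>
      IsCompactOperator.isCompact_closure_image_closedBall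
        (f := (((S.R C).comp A : V →L[ℂ] V) : V →ₗ[ℂ] V)) (hA C) r
  have h2 : IsClosed (BT S T A r) := by
    have : BT S T A r = ⋂ (t : T), ((⋂ C : K, {z | z t C ∈
        closure ((S.R C).comp A '' Metric.closedBall 0 r)}) ∩
        ⋂ (C : K) (C' : K) (_ : C ≤ C'), {z | S.R C (z t C') = z t C}) := by
      ext z
      simp [BT]
    rw [this]
    refine isClosed_iInter fun t => IsClosed.inter (isClosed_iInter fun C => ?_)
      (isClosed_iInter fun C => isClosed_iInter fun C' => isClosed_iInter fun _ => ?_)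
    · exact isClosed_closure.preimage (cont_evalT t C)
    · exact isClosed_eq ((S.R C).continuous.comp (cont_evalT t C')) (cont_evalT t C)
  refine IsCompact.of_isClosed_subset (X := ZT S T) h1 h2 fun z hz t _ C _ => ?_
  exact (hz t).1 C

lemma BT_smul [MulAction Γ T] (A : V →L[ℂ] V) (hAo : ∀ g v, A (S.op g v) = S.op g (A v)) (r : ℝ)
    (g : Γ) (z : ZT S T) (hz : z ∈ BT S T A r) : g • z ∈ BT S T A r := by
  intro t
  refine ⟨fun C => ?_, fun C C' hC => ?_⟩
  · rw [smulT]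
    refine map_mem_closure (S.op g).continuous ((hz (g⁻¹ • t)).1 (S.sk g⁻¹ C)) ?_
    rintro _ ⟨v, hv, rfl⟩
    refine ⟨S.op g v, ?_, ?_⟩
    · rw [mem_closedBall_zero_iff] at hv ⊢
      exact (S.nrm g v).trans hv
    · show S.R C (A (S.op g v)) = S.op g (S.R (S.sk g⁻¹ C) (A v))
      rw [S.R_equi, ← S.sk_mul, mul_inv_cancel, S.sk_one, hAo]
  · rw [smulT, smulT, ← (hz (g⁻¹ • t)).2 _ _ (S.sk_mono g⁻¹ C C' hC), S.R_equi, ← S.sk_mul,
      mul_inv_cancel, S.sk_one]

lemma BT_norm (A : V →L[ℂ] V) (r : ℝ) (z : ZT S T) (hz : z ∈ BT S T A r) (t : T) (C : K) :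
    ‖z t C‖ ≤ ‖A‖ * r := by
  have h1 : closure ((S.R C).comp A '' Metric.closedBall 0 r) ⊆ Metric.closedBall 0 (‖A‖ * r) := by
    refine closure_minimal ?_ Metric.isClosed_closedBall
    rintro _ ⟨v, hv, rfl⟩
    rw [mem_closedBall_zero_iff] at hv ⊢
    exact (S.R_le C _).trans ((A.le_opNorm v).trans (mul_le_mul_of_nonneg_left hv (norm_nonneg _)))
  exact mem_closedBall_zero_iff.1 (h1 ((hz t).1 C))

/-- The vector with given restrictions. -/
noncomputable def val (z : ZT S T) (t : T) : V := by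
  classical
  exact if h : ∃ v, ∀ C, S.R C v = z t C then Classical.choose h else 0

lemma val_spec (A : V →L[ℂ] V) (r : ℝ) (z : ZT S T) (hz : z ∈ BT S T A r) (t : T) (C : K) :
    S.R C (val z t) = z t C := by
  have h : ∃ v, ∀ C, S.R C v = z t C :=
    S.decode (z t) (‖A‖ * r) (fun C => BT_norm A r z hz t C) (hz t).2
  have h1 : val z t = Classical.choose h := by
    rw [val]
    exact dif_pos h
  rw [h1]
  exact Classical.choose_spec h C

lemma val_norm (A : V →L[ℂ] V) (r : ℝ) (z : ZT S T) (hz : z ∈ BT S T A r) (t : T) :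
    ‖val z t‖ ≤ ‖A‖ * r := by
  refine S.norm_le_of_R fun C => ?_
  rw [val_spec A r z hz t C]
  exact BT_norm A r z hz t C

/-- The operator of a family. -/
noncomputable def ZO (z : ZT S T) : L T →L[ℂ] V := Pool.Agent.H203R4.DF.ext (val z)

lemma ZO_dl (A : V →L[ℂ] V) (r : ℝ) (z : ZT S T) (hz : z ∈ BT S T A r) (t : T) :
    ZO z (dl t) = val z t :=
  ext_dl _ ⟨_, val_norm A r z hz⟩ t

lemma ZO_le (A : V →L[ℂ] V) (r : ℝ) (z : ZT S T) (hz : z ∈ BT S T A r) (f : L T) :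
    ‖ZO z f‖ ≤ ‖A‖ * r * ‖f‖ :=
  norm_ext_apply_le _ _ (val_norm A r z hz) f

lemma ZO_smul [MulAction Γ T] (A : V →L[ℂ] V) (hAo : ∀ g v, A (S.op g v) = S.op g (A v)) (r : ℝ)
    (g : Γ) (z : ZT S T) (hz : z ∈ BT S T A r) (f : L T) :
    ZO (g • z) (rho g f) = S.op g (ZO z f) := by
  have h : (ZO (g • z)).comp (rho g) = (S.op g).comp (ZO z) := by
    refine clm_ext fun t => ?_
    rw [ContinuousLinearMap.comp_apply, ContinuousLinearMap.comp_apply, rho_dl,
      ZO_dl A r _ (BT_smul A hAo r g z hz), ZO_dl A r z hz]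
    refine S.inj fun C => ?_
    rw [val_spec A r _ (BT_smul A hAo r g z hz), smulT, inv_smul_smul,
      ← val_spec A r z hz t (S.sk g⁻¹ C), S.R_equi, ← S.sk_mul, mul_inv_cancel, S.sk_one]
  exact congrArg (fun A => A f) h

lemma continuousOn_ZO (A : V →L[ℂ] V) (r : ℝ) (f : L T) (C : K) :
    ContinuousOn (fun z : ZT S T => S.R C (ZO z f)) (BT S T A r) := by
  have h1 : ∀ z ∈ BT S T A r, S.R C (ZO z f) = ∑' t, f t • z t C := by
    intro z hz
    have h2 := (hasSum_ext (fun t => val z t) ⟨_, val_norm A r z hz⟩ f).mapL (S.R C)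
    have h3 : (fun t => S.R C (f t • val z t)) = fun t => f t • z t C := by
      funext t
      rw [map_smul, val_spec A r z hz]
    rw [h3] at h2
    exact h2.tsum_eq.symm
  refine ContinuousOn.congr ?_ h1
  refine continuousOn_tsum (u := fun t => ‖f t‖ * (‖A‖ * r))
    (fun t => ((cont_evalT t C).continuousOn.const_smul (f t)))
    ((Pool.Agent.H203R4.DF.summable_norm f).mul_right _) fun t z hz => ?_
  rw [norm_smul]
  exact mul_le_mul_of_nonneg_left (BT_norm A r z hz t C) (norm_nonneg _)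

/-- Points of small oscillation are dense. -/
lemma osc_dense {W : Type u} [TopologicalSpace W] (v : W → V) (M : ℝ) (hM : ∀ w, ‖v w‖ ≤ M)
    (hc : ∀ C, Continuous fun w => S.R C (v w)) (ε : ℝ) (hε : 0 < ε) :
    Dense {w : W | ∃ U : Set W, IsOpen U ∧ w ∈ U ∧ ∀ w' ∈ U, ∀ w'' ∈ U, ‖v w' - v w''‖ ≤ ε} := by
  rw [dense_iff_inter_open]
  intro O hO hne
  have hbd : BddAbove ((fun w => ‖v w‖) '' O) := ⟨M, by rintro _ ⟨w, _, rfl⟩; exact hM w⟩
  set m := sSup ((fun w => ‖v w‖) '' O) with hm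
  obtain ⟨_, ⟨w0, hw0, rfl⟩, h0⟩ := exists_lt_of_lt_csSup (hne.image (fun w => ‖v w‖))
    (show m - ε / 8 < m by linarith)
  have h1 : Tendsto (fun C => ‖S.R C (v w0)‖) atTop (𝓝 ‖v w0‖) := (S.R_tend (v w0)).norm
  obtain ⟨C, hC⟩ := (h1.eventually (lt_mem_nhds h0)).exists
  let U : Set W := O ∩ {w | ‖S.R C (v w) - S.R C (v w0)‖ < ε / 8}
  have hU : IsOpen U := hO.inter (isOpen_lt ((hc C).sub continuous_const).norm continuous_const)
  have hw0U : w0 ∈ U := ⟨hw0, by
    show ‖S.R C (v w0) - S.R C (v w0)‖ < ε / 8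
    rw [sub_self, norm_zero]
    positivity⟩
  refine ⟨w0, hw0, U, hU, hw0U, ?_⟩
  have key : ∀ w ∈ U, ‖v w - S.R C (v w0)‖ ≤ ε / 2 := by
    intro w hw
    have e1 : ‖v w‖ ≤ m := le_csSup hbd ⟨w, hw.1, rfl⟩
    have e2 : ‖S.R C (v w) - S.R C (v w0)‖ < ε / 8 := hw.2
    have e3 := S.sub_R_le C (v w)
    have e4 : ‖S.R C (v w0)‖ ≤ ‖S.R C (v w)‖ + ‖S.R C (v w) - S.R C (v w0)‖ := by
      have := norm_sub_le (S.R C (v w)) (S.R C (v w) - S.R C (v w0))
      rwa [sub_sub_cancel] at this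
    have e5 : v w - S.R C (v w0) = (v w - S.R C (v w)) + (S.R C (v w) - S.R C (v w0)) := by abel
    rw [e5]
    have e6 := norm_add_le (v w - S.R C (v w)) (S.R C (v w) - S.R C (v w0))
    simp only at h0
    linarith
  intro w' hw' w'' hw''
  have e1 := key w' hw'
  have e2 := key w'' hw''
  have e3 := norm_sub_le (v w' - S.R C (v w0)) (v w'' - S.R C (v w0))
  rw [sub_sub_sub_cancel_right] at e3
  linarith

end Pool.Agent.W667
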