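import Pool.Agent.W667.LI

set_option autoImplicit false
set_option linter.unusedSectionVars false

/-!
The descent step and the final contradiction.
-/

namespace Pool.Agent.W667

open Topology Filter
open Pool.Agent.H203R4.DF (L dl rho norm_dl ext_dl rho_dl clm_ext hasSum_ext norm_ext_apply_le
  rho_rho_inv isOpen_osc SS bd)

universe u

/-- A compact minimal `Γ`-space with an equivariant bounded family of operators, continuous at a
point where it has property `Q`. -/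
def StA {Γ : Type u} [Group Γ] {V : Type u} [NormedAddCommGroup V] [NormedSpace ℂ V]
    (op : Γ → V →L[ℂ] V) (X : Type u) [MulAction Γ X] (Q : (L X →L[ℂ] V) → Prop) : Prop :=
  ∃ (Y : Type u) (_ : TopologicalSpace Y) (_ : CompactSpace Y) (_ : T2Space Y) (_ : MulAction Γ Y)
    (y0 : Y) (P : Y → (L X →L[ℂ] V)) (C : ℝ),
    (∀ g : Γ, Continuous (fun y : Y => g • y)) ∧
    (∀ y : Y, Dense (Set.range (fun g : Γ => g • y))) ∧
    (∀ y, ‖P y‖ ≤ C) ∧
    (∀ (g : Γ) (y : Y) (f : L X), P (g • y) (rho g f) = op g (P y f)) ∧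
    (∀ x : X, ContinuousAt (fun y => P y (dl x)) y0) ∧ Q (P y0)

variable {Γ : Type u} [Group Γ] {K : Type u} [SemilatticeSup K] [Nonempty K] {V : Type u}
  [NormedAddCommGroup V] [NormedSpace ℂ V] [CompleteSpace V] {S : Sys Γ K V} {T : Type u}

section step

variable {V' : Type u} [NormedAddCommGroup V'] [NormedSpace ℂ V'] [CompleteSpace V']
  {X : Type u} [MulAction Γ X] [MulAction Γ T]

lemma limit_relA (op' : Γ → V' →L[ℂ] V') (A : V →L[ℂ] V)
    (hAo : ∀ g v, A (S.op g v) = S.op g (A v)) (D : V →L[ℂ] V')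
    (hD : ∀ g v, D (S.op g v) = op' g (D v)) (D0 : L X →L[ℂ] L T) (s : L T →L[ℂ] L X)
    (hD0 : ∀ (g : Γ) (f : L X), D0 (rho g f) = rho g (D0 f)) (u : L T →L[ℂ] V')
    (hu : ∀ (g : Γ) f, u (rho g f) = op' g (u f))
    {Y : Type u} [TopologicalSpace Y] [MulAction Γ Y] (y0 : Y) (P : Y → (L X →L[ℂ] V))
    (hP : ∀ (g : Γ) (y : Y) (f : L X), P (g • y) (rho g f) = S.op g (P y f))
    (hV1 : ∀ f, P y0 (s (D0 f)) = P y0 f) (hV2 : ∀ f, D (P y0 f) = u (D0 f))
    (r : ℝ) (z0 : ZT S T) (hz0 : z0 ∈ BT S T A r) (hz0' : ∀ f, ZO z0 f = A (P y0 (s f)))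
    (w1 : Y × ZT S T) (hw1 : w1.2 ∈ BT S T A r)
    (hcl : w1 ∈ closure (Set.range fun g : Γ => g • ((y0, z0) : Y × ZT S T)))
    (hc : ∀ x : X, ContinuousAt (fun y => P y (dl x)) w1.1) :
    (∀ f, ZO w1.2 (D0 f) = A (P w1.1 f)) ∧ ∀ f, D (P w1.1 f) = u (D0 f) := by
  set O : Set (Y × ZT S T) := Set.range fun g : Γ => g • ((y0, z0) : Y × ZT S T) with hO
  have hne : (𝓝[O] w1).NeBot := mem_closure_iff_nhdsWithin_neBot.1 hcl
  have e1 : ∀ w ∈ O, ∀ x : X, ZO w.2 (D0 (dl x)) = A (P w.1 (dl x)) := by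
    rintro w ⟨g, rfl⟩ x
    show ZO (g • z0) (D0 (dl x)) = A (P (g • y0) (dl x))
    have h1 : (dl x : L X) = rho g (rho g⁻¹ (dl x)) := (rho_rho_inv g _).symm
    rw [h1, hD0, ZO_smul A hAo r g z0 hz0, hz0', hV1, hP, hAo]
  have e2 : ∀ w ∈ O, ∀ x : X, D (P w.1 (dl x)) = u (D0 (dl x)) := by
    rintro w ⟨g, rfl⟩ x
    show D (P (g • y0) (dl x)) = u (D0 (dl x))
    have h1 : (dl x : L X) = rho g (rho g⁻¹ (dl x)) := (rho_rho_inv g _).symm
    rw [h1, hP, hD, hV2, ← hu, ← hD0, rho_rho_inv]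
  have hBO : ∀ w ∈ O, w.2 ∈ BT S T A r := by
    rintro w ⟨g, rfl⟩
    exact BT_smul A hAo r g z0 hz0
  have hPt : ∀ x : X, Tendsto (fun w : Y × ZT S T => P w.1 (dl x)) (𝓝[O] w1)
      (𝓝 (P w1.1 (dl x))) := by
    intro x
    have h1 : Tendsto (fun w : Y × ZT S T => w.1) (𝓝[O] w1) (𝓝 w1.1) :=
      (continuous_fst.tendsto w1).mono_left nhdsWithin_le_nhds
    exact (hc x).tendsto.comp h1
  constructor
  · have h1 : (ZO w1.2).comp D0 = A.comp (P w1.1) := by
      refine clm_ext fun x => ?_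
      rw [ContinuousLinearMap.comp_apply, ContinuousLinearMap.comp_apply]
      refine S.inj fun C => ?_
      have h2 : Tendsto (fun w : Y × ZT S T => S.R C (ZO w.2 (D0 (dl x)))) (𝓝[O] w1)
          (𝓝 (S.R C (ZO w1.2 (D0 (dl x))))) := by
        have h3 := (continuousOn_ZO A r (D0 (dl x)) C) w1.2 hw1
        refine h3.tendsto.comp (tendsto_nhdsWithin_iff.2 ⟨?_, ?_⟩)
        · exact (continuous_snd.tendsto w1).mono_left nhdsWithin_le_nhds
        · filter_upwards [self_mem_nhdsWithin] with w hw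
          exact hBO w hw
      have h4 : Tendsto (fun w : Y × ZT S T => S.R C (A (P w.1 (dl x)))) (𝓝[O] w1)
          (𝓝 (S.R C (A (P w1.1 (dl x))))) :=
        (((S.R C).comp A).continuous.tendsto _).comp (hPt x)
      refine tendsto_nhds_unique (h2.congr' ?_) h4
      filter_upwards [self_mem_nhdsWithin] with w hw
      rw [e1 w hw x]
    intro f
    exact congrArg (fun A => A f) h1
  · have h1 : D.comp (P w1.1) = u.comp D0 := by
      refine clm_ext fun x => ?_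
      rw [ContinuousLinearMap.comp_apply, ContinuousLinearMap.comp_apply]
      have h2 : Tendsto (fun w : Y × ZT S T => D (P w.1 (dl x))) (𝓝[O] w1)
          (𝓝 (D (P w1.1 (dl x)))) := (D.continuous.tendsto _).comp (hPt x)
      refine tendsto_nhds_unique h2 (tendsto_const_nhds.congr' ?_)
      filter_upwards [self_mem_nhdsWithin] with w hw
      rw [e2 w hw x]
    intro f
    exact congrArg (fun A => A f) h1

omit [MulAction Γ T] in
/-- Oscillation at the points of the orbit of a point of continuity. -/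
lemma osc_orbitA (S : Sys Γ K V)
    {Y : Type u} [TopologicalSpace Y] [MulAction Γ Y] (hG : ∀ g : Γ, Continuous fun y : Y => g • y)
    (y0 : Y) (P : Y → (L X →L[ℂ] V))
    (hP : ∀ (g : Γ) (y : Y) (f : L X), P (g • y) (rho g f) = S.op g (P y f))
    (hc : ∀ x : X, ContinuousAt (fun y => P y (dl x)) y0) (x : X) (g : Γ) (ε : ℝ) (hε : 0 < ε) :
    ∃ U : Set Y, IsOpen U ∧ g • y0 ∈ U ∧ ∀ y' ∈ U, ∀ y'' ∈ U, ‖P y' (dl x) - P y'' (dl x)‖ ≤ ε := by
  have h1 := Metric.continuousAt_iff'.1 (hc (g⁻¹ • x)) (ε / 2) (by positivity)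
  obtain ⟨U0, hU0, hU0o, hU0y⟩ := mem_nhds_iff.1 h1
  refine ⟨(fun y => g⁻¹ • y) ⁻¹' U0, hU0o.preimage (hG g⁻¹), ?_, fun y' hy' y'' hy'' => ?_⟩
  · show g⁻¹ • g • y0 ∈ U0
    rwa [inv_smul_smul]
  · have key : ∀ y : Y, P y (dl x) = S.op g (P (g⁻¹ • y) (dl (g⁻¹ • x))) := by
      intro y
      rw [← hP g, rho_dl, smul_inv_smul, smul_inv_smul]
    rw [key y', key y'', ← map_sub]
    refine (S.nrm g _).trans ?_
    have h2 := hU0 hy'
    have h3 := hU0 hy''
    simp only [Set.mem_ofPred_eq, dist_eq_norm] at h2 h3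
    have h4 := norm_sub_le (P (g⁻¹ • y') (dl (g⁻¹ • x)) - P y0 (dl (g⁻¹ • x)))
      (P (g⁻¹ • y'') (dl (g⁻¹ • x)) - P y0 (dl (g⁻¹ • x)))
    rw [sub_sub_sub_cancel_right] at h4
    linarith

theorem stepA [Countable X] [Countable T] (op' : Γ → V' →L[ℂ] V') (A : V →L[ℂ] V)
    (hAc : ∀ C, IsCompactOperator ((S.R C).comp A))
    (hAo : ∀ g v, A (S.op g v) = S.op g (A v)) (D : V →L[ℂ] V')
    (hD : ∀ g v, D (S.op g v) = op' g (D v)) (D0 : L X →L[ℂ] L T) (s : L T →L[ℂ] L X)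
    (hD0 : ∀ (g : Γ) (f : L X), D0 (rho g f) = rho g (D0 f)) (u : L T →L[ℂ] V')
    (hu : ∀ (g : Γ) f, u (rho g f) = op' g (u f)) (A' : V' →L[ℂ] V')
    (hA'o : ∀ g v, A' (op' g v) = op' g (A' v)) (hA' : ∀ v, D (A v) = A' (D v))
    (hSt : StA S.op X (fun p => (∀ f, p (s (D0 f)) = p f) ∧ ∀ f, D (p f) = u (D0 f))) :
    StA op' T (fun q => (∀ f, q (D0 f) = 0) ∧ ∀ f, ∃ h, q f = A' (u f) - D h) := by
  obtain ⟨Y, i1, i2, i3, i4, y0, P, C, hG, hmin, hPC, hP, hc, hV1, hV2⟩ := hSt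
  set r : ℝ := |C| * ‖s‖ with hr
  have hr0 : 0 ≤ r := by positivity
  set z0 : ZT S T := fun t C => S.R C (A (P y0 (s (dl t)))) with hz0def
  have hb : ∀ t, ‖P y0 (s (dl t))‖ ≤ r := by
    intro t
    refine ((P y0).le_opNorm _).trans ?_
    rw [hr]
    refine mul_le_mul ((hPC y0).trans (le_abs_self C)) ?_ (norm_nonneg _) (abs_nonneg _)
    have := s.le_opNorm (dl t)
    rwa [norm_dl, mul_one] at this
  have hz0 : z0 ∈ BT S T A r := by
    intro t
    refine ⟨fun C => subset_closure ⟨P y0 (s (dl t)), mem_closedBall_zero_iff.2 (hb t), rfl⟩,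
      fun C C' hC => ?_⟩
    exact S.R_comp C C' hC _
  have hz0' : ∀ f, ZO z0 f = A (P y0 (s f)) := by
    have h1 : ZO z0 = A.comp ((P y0).comp s) := by
      refine clm_ext fun t => ?_
      rw [ZO_dl A r z0 hz0]
      refine S.inj fun C => ?_
      rw [val_spec A r z0 hz0]
      rfl
    intro f
    exact congrArg (fun A => A f) h1
  -- the compact space
  have hcX : ∀ g : Γ, Continuous fun w : Y × ZT S T => g • w := fun g =>
    ((hG g).comp continuous_fst).prodMk ((cont_smulT g).comp continuous_snd)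
  set B : Set (Y × ZT S T) := Set.univ ×ˢ BT S T A r with hB
  have hBc : IsCompact B := isCompact_univ.prod (isCompact_BT A hAc r)
  have hBs : ∀ g : Γ, ∀ w ∈ B, g • w ∈ B := fun g w hw =>
    ⟨trivial, BT_smul A hAo r g w.2 hw.2⟩
  set w0 : Y × ZT S T := (y0, z0) with hw0
  set O : Set (Y × ZT S T) := Set.range fun g : Γ => g • w0 with hO
  have hOB : O ⊆ B := by
    rintro _ ⟨g, rfl⟩
    exact hBs g w0 ⟨trivial, hz0⟩
  have hKB : closure O ⊆ B := hBc.isClosed.closure_subset_iff.2 hOB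
  have hKc : IsCompact (closure O) := hBc.of_isClosed_subset isClosed_closure hKB
  have hKs : ∀ g : Γ, ∀ w ∈ closure O, g • w ∈ closure O := by
    intro g w hw
    have h1 : Set.MapsTo (fun w : Y × ZT S T => g • w) O O := by
      rintro _ ⟨h, rfl⟩
      exact ⟨g * h, mul_smul g h w0⟩
    exact h1.closure (hcX g) hw
  obtain ⟨M, hMK, hMc, hMne, hMs, hMmin⟩ := Pool.Agent.H203R4.DF.taskMin Γ (Y × ZT S T) hcX
    (closure O) hKc ⟨w0, subset_closure ⟨1, one_smul Γ w0⟩⟩ hKs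
  -- the fiber over `y0`
  have hfib : ∃ w ∈ M, w.1 = y0 := by
    obtain ⟨w, hw⟩ := hMne
    have h1 : IsClosed (Prod.fst '' M) := (hMc.image continuous_fst).isClosed
    have h2 : Set.range (fun g : Γ => g • w.1) ⊆ Prod.fst '' M := by
      rintro _ ⟨g, rfl⟩
      exact ⟨g • w, hMs g w hw, rfl⟩
    have h3 : y0 ∈ Prod.fst '' M := by
      have h4 := h1.closure_subset_iff.2 h2
      rw [(hmin w.1).closure_eq] at h4
      exact h4 trivial
    obtain ⟨w', hw', h5⟩ := h3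
    exact ⟨w', hw', h5⟩
  obtain ⟨wf, hwf, hwf1⟩ := hfib
  -- the new space
  let act : MulAction Γ M :=
    { smul := fun g w => ⟨g • w.1, hMs g w.1 w.2⟩
      one_smul := fun w => Subtype.ext (one_smul Γ w.1)
      mul_smul := fun g h w => Subtype.ext (mul_smul g h w.1) }
  have hsm : ∀ (g : Γ) (w : M), ((g • w : M) : Y × ZT S T) = g • (w : Y × ZT S T) := fun _ _ => rfl
  have hMcs : CompactSpace M := isCompact_iff_compactSpace.1 hMc
  have hactc : ∀ g : Γ, Continuous fun w : M => g • w := fun g =>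
    Continuous.subtype_mk ((hcX g).comp continuous_subtype_val) _
  have hdense : ∀ w : M, Dense (Set.range fun g : Γ => g • w) := by
    intro w
    rw [Subtype.dense_iff]
    refine (hMmin w.1 w.2).trans (closure_mono ?_)
    rintro _ ⟨g, rfl⟩
    exact ⟨g • w, ⟨g, rfl⟩, rfl⟩
  have hMB : ∀ w : M, (w : Y × ZT S T).2 ∈ BT S T A r := fun w => (hKB (hMK w.2)).2
  -- Baire category
  let ι := (T × ℕ) ⊕ (X × ℕ)
  let Os : ι → Set M := fun i => match i with
    | Sum.inl (t, m) => {w : M | ∃ U : Set M, IsOpen U ∧ w ∈ U ∧ ∀ w' ∈ U, ∀ w'' ∈ U,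
        ‖val w'.1.2 t - val w''.1.2 t‖ ≤ 1 / ((m : ℝ) + 1)}
    | Sum.inr (x, m) => (fun w : M => w.1.1) ⁻¹' {y : Y | ∃ U : Set Y, IsOpen U ∧ y ∈ U ∧
        ∀ y' ∈ U, ∀ y'' ∈ U, ‖P y' (dl x) - P y'' (dl x)‖ ≤ 1 / ((m : ℝ) + 1)}
  have hOo : ∀ i, IsOpen (Os i) := by
    rintro (⟨t, m⟩ | ⟨x, m⟩)
    · exact isOpen_osc (W := M) (fun w' w'' => ‖val w'.1.2 t - val w''.1.2 t‖ ≤ 1 / ((m : ℝ) + 1))
    · exact (isOpen_osc (W := Y) (fun y' y'' =>
        ‖P y' (dl x) - P y'' (dl x)‖ ≤ 1 / ((m : ℝ) + 1))).preimage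
        (continuous_fst.comp continuous_subtype_val)
  have hOd : ∀ i, Dense (Os i) := by
    rintro (⟨t, m⟩ | ⟨x, m⟩)
    · refine osc_dense (S := S) (fun w : M => val w.1.2 t) (‖A‖ * r)
        (fun w => val_norm A r _ (hMB w) t) (fun C => ?_) (1 / ((m : ℝ) + 1)) (by positivity)
      have h1 : (fun w : M => S.R C (val w.1.2 t)) = fun w : M => w.1.2 t C := by
        funext w
        rw [val_spec A r _ (hMB w)]
      rw [h1]
      exact (cont_evalT t C).comp (continuous_snd.comp continuous_subtype_val)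
    · refine (hdense ⟨wf, hwf⟩).mono ?_
      rintro _ ⟨g, rfl⟩
      obtain ⟨U, hU, hyU, h⟩ := osc_orbitA S hG y0 P hP hc x g (1 / ((m : ℝ) + 1)) (by positivity)
      refine ⟨U, hU, ?_, h⟩
      show (g • wf).1 ∈ U
      have : (g • wf).1 = g • y0 := by rw [← hwf1]; rfl
      rw [this]
      exact hyU
  have hne : Nonempty M := ⟨⟨wf, hwf⟩⟩
  have hBaire : Dense (⋂ i, Os i) := dense_iInter_of_isOpen hOo hOd
  obtain ⟨w1, hw1⟩ := hBaire.nonempty
  rw [Set.mem_iInter] at hw1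
  -- continuity at `w1`
  have hcP : ∀ x : X, ContinuousAt (fun y => P y (dl x)) w1.1.1 := by
    intro x
    rw [Metric.continuousAt_iff']
    intro ε hε
    obtain ⟨m, hm⟩ := exists_nat_one_div_lt hε
    obtain ⟨U, hU, hwU, h⟩ := hw1 (Sum.inr (x, m))
    filter_upwards [hU.mem_nhds hwU] with y hy
    rw [dist_eq_norm]
    exact (h y hy w1.1.1 hwU).trans_lt hm
  have hcz : ∀ t : T, ContinuousAt (fun w : M => (val w.1.2 t : V)) w1 := by
    intro t
    rw [Metric.continuousAt_iff']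
    intro ε hε
    obtain ⟨m, hm⟩ := exists_nat_one_div_lt hε
    obtain ⟨U, hU, hwU, h⟩ := hw1 (Sum.inl (t, m))
    filter_upwards [hU.mem_nhds hwU] with w hw
    rw [dist_eq_norm]
    exact (h w hw w1 hwU).trans_lt hm
  obtain ⟨hr1, hr2⟩ := limit_relA op' A hAo D hD D0 s hD0 u hu y0 P hP hV1 hV2 r z0 hz0 hz0' w1.1
    (hMB w1) (hMK w1.2) hcP
  refine ⟨M, inferInstance, hMcs, inferInstance, act, w1,
    fun w => A'.comp u - D.comp (ZO w.1.2), ‖A'.comp u‖ + ‖D‖ * (‖A‖ * r),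
    hactc, hdense, fun w => ?_, fun g w f => ?_, fun t => ?_, fun f => ?_, fun f => ?_⟩
  · refine (norm_sub_le _ _).trans (add_le_add le_rfl ?_)
    refine (ContinuousLinearMap.opNorm_comp_le _ _).trans
      (mul_le_mul_of_nonneg_left ?_ (norm_nonneg _))
    exact ContinuousLinearMap.opNorm_le_bound _ (by positivity) fun f => ZO_le A r _ (hMB w) f
  · show A' (u (rho g f)) - D (ZO (g • w.1.2) (rho g f)) = op' g (A' (u f) - D (ZO w.1.2 f))
    rw [ZO_smul A hAo r g _ (hMB w), hD, hu, hA'o, map_sub]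
  · have h1 : (fun w : M => (A'.comp u - D.comp (ZO w.1.2)) (dl t)) =
        fun w : M => A' (u (dl t)) - D (val w.1.2 t) := by
      funext w
      show A' (u (dl t)) - D (ZO w.1.2 (dl t)) = _
      rw [ZO_dl A r _ (hMB w)]
    rw [h1]
    exact continuousAt_const.sub (D.continuous.continuousAt.comp (hcz t))
  · show A' (u (D0 f)) - D (ZO w1.1.2 (D0 f)) = 0
    rw [hr1, hA', hr2, sub_self]
  · exact ⟨ZO w1.1.2 f, rfl⟩

end step

/-- Return times. -/
lemma returnsA {Y : Type u} [TopologicalSpace Y] [CompactSpace Y]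
    [MulAction Γ Y] (hc : ∀ g : Γ, Continuous (fun y : Y => g • y))
    (hd : ∀ y : Y, Dense (Set.range (fun g : Γ => g • y))) (y0 : Y) {U : Set Y} (hU : IsOpen U)
    (hne : U.Nonempty) : ∃ F : Finset Γ, ∀ h : Γ, ∃ g ∈ F, (g * h) • y0 ∈ U := by
  obtain ⟨t, ht⟩ := isCompact_univ.elim_finite_subcover (fun g : Γ => (fun y : Y => g • y) ⁻¹' U)
    (fun g => hU.preimage (hc g)) (by
      intro y _
      obtain ⟨_, ⟨g, rfl⟩, hzU⟩ := (hd y).exists_mem_open hU hne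
      exact Set.mem_iUnion.2 ⟨g, hzU⟩)
  refine ⟨t, fun h => ?_⟩
  have h1 := ht (Set.mem_univ (h • y0))
  simp only [Set.mem_iUnion, Set.mem_preimage] at h1
  obtain ⟨g, hg, hgU⟩ := h1
  refine ⟨g, hg, ?_⟩
  rw [mul_smul]
  exact hgU

open Pool.Agent.H203R4.DF.Fin871 in
/-- The final contradiction. -/
theorem finalA {V' : Type u} [NormedAddCommGroup V'] [NormedSpace ℂ V'] (D : V →L[ℂ] V')
    (c : V') (hc0 : c ≠ 0)
    (hfar : ∀ (C : K) (F : Finset Γ), ∃ h : Γ, ∀ f ∈ F, ∀ v, S.R C (S.op (f * h) (S.R C v)) = 0) :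
    ¬ StA S.op (SS Γ 1) (fun q => (∀ f, q (bd Γ 1 f) = 0) ∧ D (q (dl (pt 1))) = c) := by
  intro hSt
  obtain ⟨Y, iT, iC, iT2, iA, y0, P, C, hcont, hdense, -, hequi, hca, hq1, hq2⟩ := hSt
  set kap : V := P y0 (dl (pt 1)) with hkap
  have hconst : ∀ g : Γ, P y0 (dl (pt g)) = kap := by
    intro g
    have h := hq1 (dl ((1, pt g) : SS Γ 2))
    rw [bd1_pt, map_sub, sub_eq_zero] at h
    exact h
  have hk0 : kap ≠ 0 := by
    intro h0
    rw [h0, map_zero] at hq2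
    exact hc0 hq2.symm
  have hn : 0 < ‖kap‖ := norm_pos_iff.2 hk0
  have hev : ∀ᶠ y in nhds y0, ‖P y (dl (pt 1)) - kap‖ < ‖kap‖ / 4 := by
    have h := (hca (pt 1)).eventually (Metric.ball_mem_nhds _ (show 0 < ‖kap‖ / 4 by positivity))
    filter_upwards [h] with y hy
    rwa [dist_eq_norm] at hy
  obtain ⟨U, hUsub, hUo, hy0⟩ := mem_nhds_iff.1 hev
  obtain ⟨F, hF⟩ := returnsA hcont hdense y0 hUo ⟨y0, hy0⟩
  have h1 : Tendsto (fun C => ‖S.R C kap‖) atTop (𝓝 ‖kap‖) := (S.R_tend kap).norm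
  obtain ⟨C0, hC0⟩ := (h1.eventually (lt_mem_nhds (show ‖kap‖ * (3 / 4) < ‖kap‖ by linarith))).exists
  obtain ⟨h, hh⟩ := hfar C0 F
  obtain ⟨g, hgF, hgU⟩ := hF h
  have e1 : ‖P ((g * h) • y0) (dl (pt 1)) - kap‖ < ‖kap‖ / 4 := hUsub hgU
  have e2 : P ((g * h) • y0) (dl (pt 1)) = S.op (g * h) kap := by
    have e := hequi (g * h) y0 (dl (pt (g * h)⁻¹))
    rw [rho_dl, smul_pt, mul_inv_cancel, hconst] at e
    exact e
  rw [e2] at e1
  have e3 : S.R C0 kap = S.R C0 (S.op (g * h) (kap - S.R C0 kap)) -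
      S.R C0 (S.op (g * h) kap - kap) := by
    rw [map_sub, map_sub, map_sub, hh g hgF]
    abel
  have e4 := norm_sub_le (S.R C0 (S.op (g * h) (kap - S.R C0 kap)))
    (S.R C0 (S.op (g * h) kap - kap))
  rw [← e3] at e4
  have e5 := (S.R_le C0 (S.op (g * h) (kap - S.R C0 kap))).trans (S.nrm (g * h) _)
  have e6 := S.sub_R_le C0 kap
  have e7 := S.R_le C0 (S.op (g * h) kap - kap)
  linarith

end Pool.Agent.W667
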