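import Pool.Agent.W667.LH
import Pool.Agent.H817R4.DF.Comp

set_option autoImplicit false
set_option linter.unusedSectionVars false

/-!
Comparison of the levels with a resolution of the augmentation module.
-/

namespace Pool.Agent.W667

open MeasureTheory Filter Topology TopologicalSpace Pool.Agent.Helper832.CD
open Pool.Agent.H203R4.DF (L dl SS bd bdv jn rho)
open Pool.Agent.H817R4.DF (Cx Lifts QC QM proj_lifts hom_comp hom_sub)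

universe u

section basic

variable {G : Type u} [TopologicalSpace G] [Group G] [IsTopologicalGroup G] [T2Space G]
  [MeasurableSpace G] [BorelSpace G]
  {μ : Measure G} [IsLocallyFiniteMeasure μ] [μ.Regular] [μ.IsMulLeftInvariant]
  {Γ : Subgroup G} {w ph : Lp ℂ 1 μ} {k : ℕ}

lemma hom_compL {X Y Z : LMod (GA μ)} (T : X.carrier →L[ℂ] Y.carrier)
    (S : Y.carrier →L[ℂ] Z.carrier) (hT : LMod.IsHom X Y T) (hS : LMod.IsHom Y Z S) :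
    LMod.IsHom X Z (S.comp T) := hom_comp (f := T) (g := S) hT hS

lemma hom_subL {X Y : LMod (GA μ)} (T S : X.carrier →L[ℂ] Y.carrier)
    (hT : LMod.IsHom X Y T) (hS : LMod.IsHom X Y S) :
    LMod.IsHom X Y (T - S : X.carrier →L[ℂ] Y.carrier) := hom_sub hT hS

/-- The lifting property up to the smoothing operators. -/
lemma liftsA (l : Lev μ Γ w ph k) (hp : ∫ x, ph x ∂μ = 1) (Y Z : LMod (GA μ))
    (D : Y.carrier → Z.carrier) (φ : Lp l.E 1 μ → Z.carrier) (σ : Z.carrier → Y.carrier)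
    (hD : LMod.IsHom Y Z D) (hφ : LMod.IsHom (mdl μ (dia μ l.π)) Z φ) (hσ : IsBoundedLinearMap ℂ σ)
    (h : ∀ p, D (σ (φ p)) = φ p) :
    ∃ ψ : Lp l.E 1 μ →L[ℂ] Y.carrier, LMod.IsHom (mdl μ (dia μ l.π)) Y ψ ∧
      ∀ p, D (ψ p) = φ (nA w l.A p) := by
  obtain ⟨ψ, h1, h2⟩ := lifts l.π w ph hp Y Z D φ σ hD hφ hσ h
  refine ⟨ψ.comp (cmp μ l.A), ?_, fun p => h2 (cmp μ l.A p)⟩
  exact hom_compL (X := mdl μ (dia μ l.π)) (Y := mdl μ (dia μ l.π)) (Z := Y) (cmp μ l.A) ψ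
    (hom_of_itw (itw_cmp l.π l.π l.A l.A_itw)) h1

/-- The operator `v ↦ ph ⊗ v`. -/
noncomputable def sp (ph : Lp ℂ 1 μ) (E : Type u) [NormedAddCommGroup E] [NormedSpace ℂ E]
    [CompleteSpace E] : E →L[ℂ] Lp E 1 μ := tnL μ E ph

lemma nD_sp {E : Type u} [NormedAddCommGroup E] [NormedSpace ℂ E] [CompleteSpace E]
    (hp : ∫ x, ph x ∂μ = 1) (D : Lp E 1 μ →L[ℂ] E) (v : Lp E 1 μ) (hv : D v = 0) :
    nD D (sp ph (Lp E 1 μ) v) = v := by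
  have h1 : sp ph (Lp E 1 μ) v = tn ph v := rfl
  rw [h1, nD_apply, II_tn, hp, one_smul, cmp_tn, hv]
  have h2 : tn ph (0 : E) = 0 := map_zero (tnL μ E ph)
  rw [h2, sub_zero]

/-- The comparison data. -/
def Cmp (l : Lev μ Γ w ph k) (C : Cx (GA μ)) : Prop :=
  ∃ (N : ℕ) (f : l.E →L[ℂ] (C.M k).carrier) (g : (C.M k).carrier →L[ℂ] l.E)
    (h : l.E →L[ℂ] Lp l.E 1 μ),
    LMod.IsHom (mdl μ l.π) (C.M k) f ∧ LMod.IsHom (C.M k) (mdl μ l.π) g ∧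
    LMod.IsHom (mdl μ l.π) (mdl μ (dia μ l.π)) h ∧
    (∀ x, C.δ k (C.τ k (f (l.D x))) = f (l.D x)) ∧
    (∀ x, l.D (sp ph l.E (g (C.δ k x))) = g (C.δ k x)) ∧
    ∀ x, l.D (h (l.D x)) = (l.A ^ N) (l.D x) - g (f (l.D x))

lemma pow_comm {X Y : Type u} [NormedAddCommGroup X] [NormedSpace ℂ X] [NormedAddCommGroup Y]
    [NormedSpace ℂ Y] (D : X →L[ℂ] Y) (B : X →L[ℂ] X) (A : Y →L[ℂ] Y)
    (h : ∀ v, D (B v) = A (D v)) (N : ℕ) (v : X) : D ((B ^ N) v) = (A ^ N) (D v) := by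
  induction N with
  | zero => rfl
  | succ N ih =>
    rw [pow_succ', pow_succ']
    show D (B ((B ^ N) v)) = A ((A ^ N) (D v))
    rw [h, ih]

lemma itw_pow {E : Type u} [NormedAddCommGroup E] [NormedSpace ℂ E] [CompleteSpace E]
    (π : Rp G E) (A : E →L[ℂ] E) (h : Itw π π A) (N : ℕ) : Itw π π (A ^ N) := by
  induction N with
  | zero => exact Itw.id π
  | succ N ih =>
    intro g v
    rw [pow_succ']
    show A ((A ^ N) (π.op g v)) = π.op g (A ((A ^ N) v))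
    rw [ih, h]

set_option maxHeartbeats 4000000 in
theorem next0 (hp : ∫ x, ph x ∂μ = 1)
    (l : Lev μ Γ w ph k) (C : Cx (GA μ)) (hC : Lifts (C.M (k + 1))) (hcmp : Cmp l C) :
    ∃ (N : ℕ) (f : Lp l.E 1 μ →L[ℂ] (C.M (k + 1)).carrier)
      (g : (C.M (k + 1)).carrier →L[ℂ] Lp l.E 1 μ)
      (h : Lp l.E 1 μ →L[ℂ] Lp (Lp l.E 1 μ) 1 μ),
      LMod.IsHom (mdl μ (dia μ l.π)) (C.M (k + 1)) f ∧
      LMod.IsHom (C.M (k + 1)) (mdl μ (dia μ l.π)) g ∧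
      LMod.IsHom (mdl μ (dia μ l.π)) (mdl μ (dia μ (dia μ l.π))) h ∧
      (∀ x : Lp (Lp l.E 1 μ) 1 μ,
        C.δ (k + 1) (C.τ (k + 1) (f (nD l.D x))) = f (nD l.D x)) ∧
      (∀ x, nD l.D (sp ph (Lp l.E 1 μ) (g (C.δ (k + 1) x))) = g (C.δ (k + 1) x)) ∧
      ∀ x : Lp (Lp l.E 1 μ) 1 μ,
        nD l.D (h (nD l.D x)) = ((nA w l.A) ^ N) (nD l.D x) - g (f (nD l.D x)) := by
  obtain ⟨N, f, g, h, hf, hg, hh, ha, hb, hc'⟩ := hcmp
  have hBi : Itw (dia μ l.π) (dia μ l.π) (nA w l.A) :=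
    (itw_Sm l.π w).comp (itw_cmp l.π l.π l.A l.A_itw)
  have hDi' : Itw (dia μ (dia μ l.π)) (dia μ l.π) (nD l.D) :=
    (itw_II (dia μ l.π)).sub (itw_cmp (dia μ l.π) l.π l.D l.D_itw)
  have hDh : LMod.IsHom (mdl μ (dia μ l.π)) (mdl μ l.π) l.D := hom_of_itw l.D_itw
  have hBh : LMod.IsHom (mdl μ (dia μ l.π)) (mdl μ (dia μ l.π)) (nA w l.A) := hom_of_itw hBi
  have hBNh : LMod.IsHom (mdl μ (dia μ l.π)) (mdl μ (dia μ l.π)) ((nA w l.A) ^ (N + 1)) :=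
    hom_of_itw (itw_pow (dia μ l.π) (nA w l.A) hBi (N + 1))
  obtain ⟨f1, hf1, ef1⟩ := liftsA l hp (C.M (k + 1)) (C.M k) (C.δ k) (fun x => f (l.D x)) (C.τ k)
    (C.hom k) (hom_comp hDh hf) (C.bdd k) ha
  obtain ⟨g1', hg1', eg1'⟩ := hC (mdl μ (dia μ l.π)) (mdl μ l.π) l.D (fun x => g (C.δ k x))
    (sp ph l.E) hDh (hom_comp (C.hom k) hg) (ContinuousLinearMap.isBoundedLinearMap _) hb
  let g1 : (C.M (k + 1)).carrier →L[ℂ] Lp l.E 1 μ := hg1'.1.toContinuousLinearMap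
  have hg1 : LMod.IsHom (C.M (k + 1)) (mdl μ (dia μ l.π)) g1 := hg1'
  have eg1 : ∀ x, l.D (g1 x) = g (C.δ k x) := eg1'
  let T : Lp l.E 1 μ →L[ℂ] Lp l.E 1 μ :=
    (nA w l.A) ^ (N + 1) - g1.comp f1 - h.comp (l.D.comp (nA w l.A))
  have hT : ∀ x, T x = ((nA w l.A) ^ (N + 1)) x - g1 (f1 x) - h (l.D (nA w l.A x)) := fun _ => rfl
  have hTh1 : LMod.IsHom (mdl μ (dia μ l.π)) (mdl μ (dia μ l.π)) (g1.comp f1) :=
    hom_compL (X := mdl μ (dia μ l.π)) (Y := C.M (k + 1)) (Z := mdl μ (dia μ l.π)) f1 g1 hf1 hg1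
  have hTh2 : LMod.IsHom (mdl μ (dia μ l.π)) (mdl μ l.π) (l.D.comp (nA w l.A)) :=
    hom_compL (X := mdl μ (dia μ l.π)) (Y := mdl μ (dia μ l.π)) (Z := mdl μ l.π) (nA w l.A) l.D
      hBh hDh
  have hTh3 : LMod.IsHom (mdl μ (dia μ l.π)) (mdl μ (dia μ l.π))
      (h.comp (l.D.comp (nA w l.A))) :=
    hom_compL (X := mdl μ (dia μ l.π)) (Y := mdl μ l.π) (Z := mdl μ (dia μ l.π))
      (l.D.comp (nA w l.A)) h hTh2 hh
  have hTh : LMod.IsHom (mdl μ (dia μ l.π)) (mdl μ (dia μ l.π)) T :=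
    hom_subL (X := mdl μ (dia μ l.π)) (Y := mdl μ (dia μ l.π)) _ _
      (hom_subL (X := mdl μ (dia μ l.π)) (Y := mdl μ (dia μ l.π)) _ _ hBNh hTh1) hTh3
  have hDB : ∀ v, l.D (nA w l.A v) = l.A (l.D v) := l.DA
  have hDT : ∀ x, l.D (T x) = 0 := by
    intro x
    rw [hT, map_sub, map_sub, eg1, ef1, hc', pow_comm l.D (nA w l.A) l.A hDB, hDB, pow_succ]
    show (l.A ^ N) (l.A (l.D x)) - g (f (l.A (l.D x))) -
      ((l.A ^ N) (l.A (l.D x)) - g (f (l.A (l.D x)))) = 0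
    rw [sub_self]
  have hD'h : LMod.IsHom (mdl μ (dia μ (dia μ l.π))) (mdl μ (dia μ l.π)) (nD l.D) :=
    hom_of_itw hDi'
  obtain ⟨h1, hh1, eh1⟩ := liftsA l hp (mdl μ (dia μ (dia μ l.π))) (mdl μ (dia μ l.π)) (nD l.D)
    T (sp ph (Lp l.E 1 μ)) hD'h hTh (ContinuousLinearMap.isBoundedLinearMap _)
    (fun x => nD_sp hp l.D (T x) (hDT x))
  have hDD : ∀ x : Lp (Lp l.E 1 μ) 1 μ, l.D (nD l.D x) = 0 := l.DD
  have hz : ∀ x : Lp (Lp l.E 1 μ) 1 μ, l.D (nA w l.A (nA w l.A (nD l.D x))) = 0 := by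
    intro x
    rw [hDB, hDB, hDD, map_zero, map_zero]
  refine ⟨N + 2, f1.comp (nA w l.A), g1, h1,
    hom_compL (X := mdl μ (dia μ l.π)) (Y := mdl μ (dia μ l.π)) (Z := C.M (k + 1)) (nA w l.A) f1
      hBh hf1, hg1, hh1, fun x => ?_, fun x => ?_, fun x => ?_⟩
  · refine C.lift k _ ?_
    show C.δ k (f1 (nA w l.A (nD l.D x))) = 0
    rw [ef1, hz, map_zero]
  · refine nD_sp hp l.D (g1 (C.δ (k + 1) x)) ?_
    rw [eg1, C.dd, map_zero]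
  · have e1 : nD l.D (h1 (nD l.D x)) = T (nA w l.A (nD l.D x)) := eh1 (nD l.D x)
    refine e1.trans ?_
    rw [hT, hz, map_zero, sub_zero]
    rfl

theorem Cmp.next {hw : ∫ x, w x ∂μ = 1}
    {hc : ∃ K : Set G, IsCompact K ∧ ∀ᵐ x ∂μ, x ∉ K → w x = 0} (hp : ∫ x, ph x ∂μ = 1)
    {l : Lev μ Γ w ph k} {C : Cx (GA μ)} (hC : Lifts (C.M (k + 1))) (hcmp : Cmp l C) :
    Cmp (nxt hw hc hp l) C := next0 hp l C hC hcmp

/-- `X` is the augmentation module. -/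
def IsAug (μ : Measure G) [IsLocallyFiniteMeasure μ] [μ.Regular] [μ.IsMulLeftInvariant]
    (X : LMod (GA μ)) : Prop :=
  ∀ (a : Lp ℂ 1 μ) (x : X.carrier), X.act a x = (∫ t, a t ∂μ) • x

theorem cmp_bas (hw : ∫ x, w x ∂μ = 1) (hp : ∫ x, ph x ∂μ = 1) {X : LMod (GA μ)}
    (i : ℂ ≃L[ℂ] X.carrier) (hX : IsAug μ X) (R : X.Resolution) :
    Cmp (bas (Γ := Γ) hw hp) (QC R) := by
  let dn : ULift.{u} ℂ ≃L[ℂ] ℂ := ContinuousLinearEquiv.ulift (R₁ := ℂ) (M₁ := ℂ)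
  let F : ULift.{u} ℂ →L[ℂ] X.carrier := (i : ℂ →L[ℂ] X.carrier).comp (dn : ULift.{u} ℂ →L[ℂ] ℂ)
  let H : X.carrier →L[ℂ] ULift.{u} ℂ :=
    (dn.symm : ℂ →L[ℂ] ULift.{u} ℂ).comp (i.symm : X.carrier →L[ℂ] ℂ)
  have hHF : ∀ x, H (F x) = x := by
    intro x
    show dn.symm (i.symm (i (dn x))) = x
    rw [i.symm_apply_apply, dn.symm_apply_apply]
  have k1 : ∀ (a : Lp ℂ 1 μ) (v : ULift.{u} ℂ),
      F (ac μ (Rp.triv G (ULift.{u} ℂ)) a v) = X.act a (F v) := by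
    intro a v
    rw [ac_triv, map_smul]
    exact (hX a (F v)).symm
  have k2 : ∀ (a : Lp ℂ 1 μ) (v : X.carrier),
      H (X.act a v) = ac μ (Rp.triv G (ULift.{u} ℂ)) a (H v) := by
    intro a v
    rw [ac_triv, ← map_smul]
    exact congrArg H (hX a v)
  have k3 : ∀ x : ULift.{u} ℂ, (0 : ULift.{u} ℂ) = x - H (F x) := by
    intro x
    rw [hHF, sub_self]
  refine ⟨0, F, H, 0, ⟨F.isBoundedLinearMap, fun a v => k1 a v⟩,
    ⟨H.isBoundedLinearMap, fun a v => k2 a v⟩, Pool.Agent.H817R4.DF.hom_zero _ _,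
    fun x => R.ε_s _, fun x => ?_, fun x => ?_⟩
  · show II μ (ULift.{u} ℂ) (tn ph (H (R.ε x))) = H (R.ε x)
    rw [II_tn, hp, one_smul]
  · have e1 : (bas (Γ := Γ) hw hp).D ((0 : (bas (Γ := Γ) hw hp).E →L[ℂ]
        Lp (bas (Γ := Γ) hw hp).E 1 μ) ((bas (Γ := Γ) hw hp).D x)) = 0 :=
      map_zero (bas (Γ := Γ) hw hp).D
    exact e1.trans (k3 ((bas (Γ := Γ) hw hp).D x))

/-- The comparison at all levels. -/
theorem cmp_lev (hw : ∫ x, w x ∂μ = 1)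
    (hc : ∃ K : Set G, IsCompact K ∧ ∀ᵐ x ∂μ, x ∉ K → w x = 0) (hp : ∫ x, ph x ∂μ = 1)
    {X : LMod (GA μ)} (i : ℂ ≃L[ℂ] X.carrier) (hX : IsAug μ X) (R : X.Resolution) :
    ∀ k, Cmp (lev Γ hw hc hp k) (QC R)
  | 0 => cmp_bas hw hp i hX R
  | k + 1 => Cmp.next hp (proj_lifts _ (R.projective k)) (cmp_lev hw hc hp i hX R k)

end basic

end Pool.Agent.W667
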