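import Pool.Agent.W667.LJ
import Pool.Agent.W667.LK

set_option autoImplicit false
set_option linter.unusedSectionVars false

/-!
The descent for the levels.
-/

namespace Pool.Agent.W667

open MeasureTheory Filter Topology TopologicalSpace Pool.Agent.Helper832.CD
open Pool.Agent.H203R4.DF (L dl SS bd bdv jn rho)
open Pool.Agent.H817R4.DF (Cx Lifts QC QM proj_lifts hom_comp hom_sub)

open scoped Pointwise

universe u

section basic

variable {G : Type u} [TopologicalSpace G] [Group G] [IsTopologicalGroup G] [T2Space G]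
  [MeasurableSpace G] [BorelSpace G]
  {μ : Measure G} [IsLocallyFiniteMeasure μ] [μ.Regular] [μ.IsMulLeftInvariant]
  {Γ : Subgroup G} {w ph : Lp ℂ 1 μ} {k : ℕ}

/-- The restriction operators of a level. -/
noncomputable def sys (l : Lev μ Γ w ph k) : Sys Γ (Compacts G) l.E where
  sk g C := sK (g : G) C
  sk_one C := sK_one C
  sk_mul g h C := sK_mul (g : G) (h : G) C
  sk_mono g _ _ h := sK_mono (g : G) h
  op g := l.π.op (g : G)
  one v := l.π.one v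
  mul g h v := l.π.mul (g : G) (h : G) v
  nrm g v := l.π.nrm (g : G) v
  R := l.R
  R_norm := l.res.norm
  R_comp := l.res.comp
  R_tend := l.res.tend
  R_equi g C v := l.res.equi (g : G) C v

/-- The state at a level. -/
def StL (l : Lev μ Γ w ph k) : Prop :=
  ∃ j : ℕ, StA (fun g : Γ => (dia μ l.π).op (g : G)) (SS Γ (k + 1))
    (fun q => (∀ f, q (bd Γ (k + 1) f) = 0) ∧ ∀ f, l.D (q f) = (l.A ^ j) (l.i (bd Γ k f)))

lemma homot {Δ : Type u} [Group Δ] {V : Type u} [NormedAddCommGroup V] [NormedSpace ℂ V]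
    (p : L (SS Δ (k + 2)) →L[ℂ] V) (h : ∀ f, p (bd Δ (k + 2) f) = 0) (f : L (SS Δ (k + 2))) :
    p (jn Δ (k + 1) 1 (bd Δ (k + 1) f)) = p f := by
  have h2 := Pool.Agent.H245R3.DFCx.bd_succ_jn (k + 1) (1 : Δ) f
  have h3 : jn Δ (k + 1) 1 (bd Δ (k + 1) f) = f - bd Δ (k + 2) (jn Δ (k + 2) 1 f) := by
    rw [h2, sub_sub_cancel]
  rw [h3, map_sub, h, sub_zero]

lemma concl {V0 V1 V2 : Type u} [NormedAddCommGroup V0] [NormedSpace ℂ V0]
    [NormedAddCommGroup V1] [NormedSpace ℂ V1] [NormedAddCommGroup V2] [NormedSpace ℂ V2]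
    (D : V1 →L[ℂ] V0) (D' : V2 →L[ℂ] V1) (A1 : V1 →L[ℂ] V1) (A0 : V0 →L[ℂ] V0)
    (hA : ∀ v, D (A1 v) = A0 (D v)) (hD : ∀ v, D (D' v) = 0) (j : ℕ) (x q : V1) (h : V2)
    (hq : q = A1 ((A1 ^ j) x) - D' h) : D q = (A0 ^ (j + 1)) (D x) := by
  rw [hq, map_sub, hD, sub_zero, ← pow_comm D A1 A0 hA (j + 1) x, pow_succ']
  rfl

lemma nR_disj {E : Type u} [NormedAddCommGroup E] [NormedSpace ℂ E] [CompleteSpace E]
    (R R' : E →L[ℂ] E) (C C' : Compacts G) (h : Disjoint (C : Set G) (C' : Set G))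
    (F : Lp E 1 μ) : nR C R (nR C' R' F) = 0 := by
  refine Lp.ext ?_
  filter_upwards [nR_coe C R (nR C' R' F), nR_coe C' R' F, Lp.coeFn_zero E 1 μ] with x h1 h2 h3
  rw [h1, h3]
  by_cases hx : x ∈ (C : Set G)
  · rw [Set.indicator_of_mem hx, h2, Set.indicator_of_notMem (Set.disjoint_left.1 h hx), map_zero]
    rfl
  · rw [Set.indicator_of_notMem hx]
    rfl

lemma id_pow {E : Type u} [NormedAddCommGroup E] [NormedSpace ℂ E] (j : ℕ) (x : E) :
    ((ContinuousLinearMap.id ℂ E) ^ j) x = x := by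
  induction j with
  | zero => rfl
  | succ j ih =>
    rw [pow_succ']
    exact ih

theorem desc [Countable Γ] {hw : ∫ x, w x ∂μ = 1}
    {hc : ∃ K : Set G, IsCompact K ∧ ∀ᵐ x ∂μ, x ∉ K → w x = 0} {hp : ∫ x, ph x ∂μ = 1}
    (l : Lev μ Γ w ph k) (h : StL (nxt hw hc hp l)) : StL l := by
  obtain ⟨j, hj⟩ := h
  let l1 := nxt hw hc hp l
  let l2 := nxt hw hc hp l1
  have h1 : StA (sys l2).op (SS Γ (k + 1 + 1))
      (fun p => (∀ f, p (jn Γ (k + 1) 1 (bd Γ (k + 1) f)) = p f) ∧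
        ∀ f, l1.D (p f) = ((l1.A ^ j).comp l1.i) (bd Γ (k + 1) f)) := by
    obtain ⟨Y, i1, i2, i3, i4, y0, P, C, ha, hb, hc1, hd, he, hf1, hf2⟩ := hj
    exact ⟨Y, i1, i2, i3, i4, y0, P, C, ha, hb, hc1, hd, he, fun f => homot (P y0) hf1 f, hf2⟩
  have h2 := stepA (S := sys l2) (op' := fun g : Γ => l1.π.op (g : G)) (A := l2.A)
    (hAc := l2.cpt) (hAo := fun g v => l2.A_itw (g : G) v) (D := l1.D)
    (hD := fun g v => l1.D_itw (g : G) v) (D0 := bd Γ (k + 1)) (s := jn Γ (k + 1) 1)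
    (hD0 := fun g f => Pool.Agent.H245R3.DFCx.bd_rho (k + 1) g f)
    (u := (l1.A ^ j).comp l1.i)
    (hu := fun g f => by
      show (l1.A ^ j) (l1.i (rho g f)) = l1.π.op (g : G) ((l1.A ^ j) (l1.i f))
      rw [l1.i_equi]
      exact itw_pow l1.π l1.A l1.A_itw j (g : G) (l1.i f))
    (A' := l1.A) (hA'o := fun g v => l1.A_itw (g : G) v) (hA' := l1.DA) h1
  obtain ⟨Y, i1, i2, i3, i4, y0, P, C, ha, hb, hc1, hd, he, hf1, hf2⟩ := h2
  refine ⟨j + 1, Y, i1, i2, i3, i4, y0, P, C, ha, hb, hc1, hd, he, hf1, fun f => ?_⟩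
  obtain ⟨h, hh⟩ := hf2 f
  have e5 : l.D (l1.i f) = l.i (bd Γ k f) := l.Di f
  rw [← e5]
  exact concl l.D l1.D l1.A l.A l.DA l.DD j (l1.i f) (P y0 f) h hh

theorem not_StL_zero {hw : ∫ x, w x ∂μ = 1}
    (hc : ∃ K : Set G, IsCompact K ∧ ∀ᵐ x ∂μ, x ∉ K → w x = 0) {hp : ∫ x, ph x ∂μ = 1}
    (hΓ : ∀ K : Set G, IsCompact K → ∃ g : Γ, (g : G) ∉ K) :
    ¬ StL (bas (Γ := Γ) hw hp) := by
  rintro ⟨j, hj⟩
  let l0 : Lev μ Γ w ph 0 := bas hw hp
  let l1 := nxt hw hc hp l0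
  refine finalA (S := sys l1) l0.D (ULift.up 1 : ULift.{u} ℂ) (fun h => ?_) (fun C F => ?_) ?_
  · exact one_ne_zero (congrArg ULift.down h)
  · have hK : IsCompact (⋃ f ∈ F, (fun x : G => ((f : Γ) : G)⁻¹ * x) '' ((C : Set G) * (C : Set G)⁻¹)) := by
      refine F.isCompact_biUnion fun f _ => ?_
      exact (C.isCompact.mul C.isCompact.inv).image (continuous_const_mul _)
    obtain ⟨h, hh⟩ := hΓ _ hK
    refine ⟨h, fun f hf v => ?_⟩
    have h1 : Disjoint (C : Set G) (sK ((f * h : Γ) : G) C : Set G) := by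
      rw [Set.disjoint_left]
      intro x hx hx'
      rw [mem_sK] at hx'
      refine hh ?_
      simp only [Set.mem_iUnion]
      refine ⟨f, hf, (f : G) * (h : G), ⟨x, hx, (((f * h : Γ) : G)⁻¹ * x)⁻¹, Set.inv_mem_inv.2 hx', ?_⟩, ?_⟩
      · show x * (((f * h : Γ) : G)⁻¹ * x)⁻¹ = _
        rw [mul_inv_rev, inv_inv, mul_inv_cancel_left, Subgroup.coe_mul]
      · show (f : G)⁻¹ * ((f : G) * (h : G)) = h
        rw [inv_mul_cancel_left]
    have e1 := (sys l1).R_equi (f * h) C v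
    rw [e1]
    exact nR_disj _ _ C (sK ((f * h : Γ) : G) C) h1 _
  · obtain ⟨Y, i1, i2, i3, i4, y0, P, C, ha, hb, hc1, hd, he, hf1, hf2⟩ := hj
    refine ⟨Y, i1, i2, i3, i4, y0, P, C, ha, hb, hc1, hd, he, hf1, ?_⟩
    have e1 := hf2 (dl (Pool.Agent.H203R4.DF.Fin871.pt 1))
    rw [Pool.Agent.H203R4.DF.Fin871.bd0_pt] at e1
    refine e1.trans ((id_pow j _).trans ?_)
    exact Pool.Agent.H203R4.DF.ext_dl (fun _ : SS Γ 0 => (ULift.up 1 : ULift.{u} ℂ))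
      ⟨_, fun _ => le_rfl⟩ _

end basic

end Pool.Agent.W667
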