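import Pool.Agent.W667.LL

set_option autoImplicit false
set_option linter.unusedSectionVars false

/-!
The homological dimension of the augmentation module is infinite.
-/

namespace Pool.Agent.W667

open MeasureTheory Filter Topology TopologicalSpace Pool.Agent.Helper832.CD
open Pool.Agent.H203R4.DF (L dl SS bd bdv jn rho)
open Pool.Agent.H817R4.DF (Cx Lifts QC QM proj_lifts hom_comp hom_sub)

universe u

section top

variable {G : Type u} [TopologicalSpace G] [Group G] [IsTopologicalGroup G]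

/-- A non-compact group contains a countable subgroup which is not relatively compact. -/
theorem exists_subgroup [LocallyCompactSpace G] [NoncompactSpace G] :
    ∃ Γ : Subgroup G, Countable Γ ∧ ∀ K : Set G, IsCompact K → ∃ g : Γ, (g : G) ∉ K := by
  obtain ⟨V, hV, hVc⟩ := exists_compact_mem_nhds (1 : G)
  have h1 : ∀ s : Finset G, (∀ x ∈ s, True) → ∃ y : G, True ∧ ∀ x ∈ s, x⁻¹ * y ∉ V := by
    intro s _
    have hK : IsCompact (⋃ x ∈ s, (fun y : G => x * y) '' V) :=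
      s.isCompact_biUnion fun x _ => hV.image (continuous_const_mul x)
    obtain ⟨y, hy⟩ : ∃ y, y ∉ ⋃ x ∈ s, (fun y : G => x * y) '' V := by
      by_contra hcon
      push Not at hcon
      have h2 : (⋃ x ∈ s, (fun y : G => x * y) '' V) = Set.univ := Set.eq_univ_of_forall hcon
      rw [h2] at hK
      exact noncompact_univ G hK
    refine ⟨y, trivial, fun x hx h3 => hy ?_⟩
    simp only [Set.mem_iUnion]
    exact ⟨x, hx, x⁻¹ * y, h3, mul_inv_cancel_left x y⟩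
  obtain ⟨f, -, hf⟩ := exists_seq_of_forall_finset_exists (fun _ : G => True)
    (fun x y => x⁻¹ * y ∉ V) h1
  refine ⟨Subgroup.closure (Set.range f), ?_, fun K hK => ?_⟩
  · rw [← FreeGroup.range_lift_eq_closure]
    exact (Set.countable_range (FreeGroup.lift f)).to_subtype
  · by_contra hcon
    push Not at hcon
    have h2 : ∀ n, f n ∈ K := fun n => hcon ⟨f n, Subgroup.subset_closure ⟨n, rfl⟩⟩
    -- a neighbourhood `W` of the identity with `W⁻¹ W ⊆ V`
    have h3 : Continuous fun p : G × G => p.1⁻¹ * p.2 :=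
      (continuous_fst.inv).mul continuous_snd
    have h4 : (fun p : G × G => p.1⁻¹ * p.2) ⁻¹' V ∈ 𝓝 ((1 : G), (1 : G)) := by
      refine h3.continuousAt ?_
      simpa using hVc
    rw [nhds_prod_eq, Filter.mem_prod_self_iff] at h4
    obtain ⟨W, hW, hWV⟩ := h4
    obtain ⟨t, ht⟩ := hK.elim_finite_subcover (fun x : G => (fun y : G => x * y) '' interior W)
      (fun x => (Homeomorph.mulLeft x).isOpenMap _ isOpen_interior) (fun x _ => by
        refine Set.mem_iUnion.2 ⟨x, 1, mem_interior_iff_mem_nhds.2 hW, mul_one x⟩)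
    have h5 : ∀ n, ∃ x : t, f n ∈ (fun y : G => (x : G) * y) '' interior W := by
      intro n
      have := ht (h2 n)
      simp only [Set.mem_iUnion] at this
      obtain ⟨x, hx, hx'⟩ := this
      exact ⟨⟨x, hx⟩, hx'⟩
    choose c hc using h5
    obtain ⟨m, n, hmn, he⟩ := Finite.exists_ne_map_eq_of_infinite c
    have key : ∀ m n : ℕ, m < n → c m = c n → False := by
      intro m n hmn he
      obtain ⟨y, hy, hy'⟩ := hc m
      obtain ⟨z, hz, hz'⟩ := hc n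
      refine hf m n hmn ?_
      rw [← hy', ← hz', he]
      show ((c n : G) * y)⁻¹ * ((c n : G) * z) ∈ V
      rw [mul_inv_rev, mul_assoc, inv_mul_cancel_left]
      exact hWV (Set.mk_mem_prod (interior_subset hy) (interior_subset hz))
    rcases lt_or_gt_of_ne hmn with h | h
    · exact key m n h he
    · exact key n m h he.symm

end top

section basic

variable {G : Type u} [TopologicalSpace G] [Group G] [IsTopologicalGroup G] [T2Space G]
  [LocallyCompactSpace G] [MeasurableSpace G] [BorelSpace G]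
  {μ : Measure G} [μ.IsHaarMeasure] [μ.Regular]
  {Γ : Subgroup G} {w ph : Lp ℂ 1 μ} {k : ℕ}

theorem not_StL [Countable Γ] (hw : ∫ x, w x ∂μ = 1)
    (hc : ∃ K : Set G, IsCompact K ∧ ∀ᵐ x ∂μ, x ∉ K → w x = 0) (hp : ∫ x, ph x ∂μ = 1)
    (hΓ : ∀ K : Set G, IsCompact K → ∃ g : Γ, (g : G) ∉ K) : ∀ k, ¬ StL (lev Γ hw hc hp k)
  | 0 => not_StL_zero hc hΓ
  | k + 1 => fun h => not_StL hw hc hp hΓ k (desc _ h)

/-- The initial state. -/
lemma StL_of {hw : ∫ x, w x ∂μ = 1}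
    {hc : ∃ K : Set G, IsCompact K ∧ ∀ᵐ x ∂μ, x ∉ K → w x = 0} {hp : ∫ x, ph x ∂μ = 1}
    (l : Lev μ Γ w ph k) (p : Lp l.E 1 μ →L[ℂ] Lp l.E 1 μ) (N : ℕ)
    (hp1 : Itw (dia μ l.π) (dia μ l.π) p) (hp2 : ∀ x, p (nD l.D x) = 0)
    (hp3 : ∀ v, l.D (p v) = (l.A ^ N) (l.D v)) : StL l := by
  refine ⟨N, PUnit, inferInstance, inferInstance, inferInstance,
    { smul := fun _ _ => PUnit.unit, one_smul := fun _ => rfl, mul_smul := fun _ _ _ => rfl },
    PUnit.unit, fun _ => p.comp (ni k ph l.i), ‖p.comp (ni k ph l.i)‖,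
    fun g => continuous_of_const fun _ _ => rfl, fun y => ?_,
    fun _ => le_rfl, fun g _ f => ?_, fun x => continuousAt_const, fun f => ?_, fun f => ?_⟩
  · intro z
    exact subset_closure ⟨1, rfl⟩
  · have h1 : ni k ph l.i (rho g f) = (dia μ l.π).op (g : G) (ni k ph l.i f) :=
      (nxt hw hc hp l).i_equi g f
    show p (ni k ph l.i (rho g f)) = (dia μ l.π).op (g : G) (p (ni k ph l.i f))
    rw [h1, hp1]
  · have h1 : nD l.D (ni (k + 1) ph (ni k ph l.i) f) = ni k ph l.i (bd Γ (k + 1) f) :=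
      (nxt hw hc hp l).Di f
    show p (ni k ph l.i (bd Γ (k + 1) f)) = 0
    rw [← h1, hp2]
  · show l.D (p (ni k ph l.i f)) = (l.A ^ N) (l.i (bd Γ k f))
    rw [hp3, l.Di]

lemma StL_of_cmp {hw : ∫ x, w x ∂μ = 1}
    {hc : ∃ K : Set G, IsCompact K ∧ ∀ᵐ x ∂μ, x ∉ K → w x = 0} {hp : ∫ x, ph x ∂μ = 1}
    (l : Lev μ Γ w ph k) (C : Cx (GA μ)) (hC : Subsingleton (C.M (k + 2)).carrier)
    (h : Cmp (nxt hw hc hp l) C) : StL l := by
  have h' : ∃ (N : ℕ) (f : Lp l.E 1 μ →L[ℂ] (C.M (k + 1)).carrier)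
      (g : (C.M (k + 1)).carrier →L[ℂ] Lp l.E 1 μ)
      (h : Lp l.E 1 μ →L[ℂ] Lp (Lp l.E 1 μ) 1 μ),
      LMod.IsHom (mdl μ (dia μ l.π)) (C.M (k + 1)) f ∧
      LMod.IsHom (C.M (k + 1)) (mdl μ (dia μ l.π)) g ∧
      LMod.IsHom (mdl μ (dia μ l.π)) (mdl μ (dia μ (dia μ l.π))) h ∧
      (∀ x : Lp (Lp l.E 1 μ) 1 μ,
        C.δ (k + 1) (C.τ (k + 1) (f (nD l.D x))) = f (nD l.D x)) ∧
      (∀ x, nD l.D (sp ph (Lp l.E 1 μ) (g (C.δ (k + 1) x))) = g (C.δ (k + 1) x)) ∧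
      ∀ x : Lp (Lp l.E 1 μ) 1 μ,
        nD l.D (h (nD l.D x)) = ((nA w l.A) ^ N) (nD l.D x) - g (f (nD l.D x)) := h
  obtain ⟨N, f, g, h, hf, hg, hh, ha, hb, hc'⟩ := h'
  have hz : ∀ x : Lp (Lp l.E 1 μ) 1 μ, f (nD l.D x) = 0 := by
    intro x
    have h1 : C.δ (k + 1) (C.τ (k + 1) (f (nD l.D x))) = f (nD l.D x) := ha x
    have h2 : C.τ (k + 1) (f (nD l.D x)) = 0 := Subsingleton.elim (α := (C.M (k + 2)).carrier) _ _
    rw [h2, (C.hom (k + 1)).1.toIsLinearMap.map_zero] at h1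
    exact h1.symm
  have hhi : Itw (dia μ l.π) (dia μ (dia μ l.π)) h :=
    itw_of_ac (dia μ l.π) (dia μ (dia μ l.π)) h fun a v => hh.2 a v
  have hAi : Itw (dia μ l.π) (dia μ l.π) (nA w l.A) := (nxt hw hc hp l).A_itw
  have hDi : Itw (dia μ (dia μ l.π)) (dia μ l.π) (nD l.D) := (nxt hw hc hp l).D_itw
  have hc2 : ∀ x : Lp (Lp l.E 1 μ) 1 μ,
      nD l.D (h (nD l.D x)) = ((nA w l.A) ^ N) (nD l.D x) - g (f (nD l.D x)) := hc'
  refine StL_of (hw := hw) (hc := hc) (hp := hp) l ((nA w l.A) ^ N - (nD l.D).comp h) N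
    ((itw_pow _ _ hAi N).sub (hDi.comp hhi)) (fun x => ?_) (fun v => ?_)
  · show ((nA w l.A) ^ N) (nD l.D x) - nD l.D (h (nD l.D x)) = 0
    rw [hc2, hz, map_zero, sub_zero, sub_self]
  · have e1 : l.D (nD l.D (h v)) = 0 := l.DD (h v)
    have e2 : l.D (((nA w l.A) ^ N) v) = (l.A ^ N) (l.D v) := pow_comm l.D (nA w l.A) l.A l.DA N v
    show l.D (((nA w l.A) ^ N) v - nD l.D (h v)) = _
    rw [map_sub, e1, sub_zero, e2]

/-- The augmentation module has no resolution of finite length. -/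
theorem no_resolution [NoncompactSpace G] {X : LMod (GA μ)} (i : ℂ ≃L[ℂ] X.carrier)
    (hX : IsAug μ X) (n : ℕ) : ¬ X.HasResolution n := by
  rintro ⟨R, hR⟩
  obtain ⟨Γ, hΓ, hΓ'⟩ := exists_subgroup (G := G)
  obtain ⟨K, w, hK, -, hb⟩ := exists_bump (μ := μ) (Set.univ : Set G) Filter.univ_mem
  have h1 := cmp_lev (Γ := Γ) hb.int ⟨K, hK, hb.sup⟩ hb.int i hX R (n + 1)
  exact not_StL hb.int ⟨K, hK, hb.sup⟩ hb.int hΓ' n
    (StL_of_cmp (lev Γ hb.int ⟨K, hK, hb.sup⟩ hb.int n) (QC R) (hR (n + 1) (Nat.lt_succ_self n)) h1)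

theorem dh_top [NoncompactSpace G] {X : LMod (GA μ)} (i : ℂ ≃L[ℂ] X.carrier)
    (hX : IsAug μ X) : X.dh = ⊤ := by
  simp only [LMod.dh, iInf_eq_top]
  intro n hn
  exact absurd hn (no_resolution i hX n)

end basic

end Pool.Agent.W667
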