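import Mathlib
import Pool.Agent.Helper832.CD.Stmt

set_option autoImplicit false
set_option linter.unusedSectionVars false

/-!
A resolution of the bimodule `A₊` yields a resolution of a one-dimensional left module.
-/

namespace Pool.Agent.W667.BD

open Pool.Agent.Helper832.CD

universe u

section gen

variable {A : Type u} [NonUnitalNormedRing A] [NormedSpace ℂ A]

/-- The left action as an operator. -/
noncomputable def lc (M : BMod A) : A →L[ℂ] M.carrier →L[ℂ] M.carrier :=
  M.left_bdd.toContinuousLinearMap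

/-- The right action as an operator. -/
noncomputable def rc (M : BMod A) : A →L[ℂ] M.carrier →L[ℂ] M.carrier :=
  M.right_bdd.toContinuousLinearMap

lemma lc_apply (M : BMod A) (a : A) (x : M.carrier) : lc M a x = M.left a x := rfl

lemma rc_apply (M : BMod A) (a : A) (x : M.carrier) : rc M a x = M.right a x := rfl

/-- A bounded operator which commutes with the right actions. -/
def RH (M N : BMod A) (f : M.carrier →L[ℂ] N.carrier) : Prop :=
  ∀ a x, f (M.right a x) = N.right a (f x)

lemma left_sub (M : BMod A) (a : A) (x y : M.carrier) :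
    M.left a (x - y) = M.left a x - M.left a y := map_sub (lc M a) x y

lemma right_sub (M : BMod A) (a : A) (x y : M.carrier) :
    M.right a (x - y) = M.right a x - M.right a y := map_sub (rc M a) x y

lemma RH.comp {M N P : BMod A} {f : M.carrier →L[ℂ] N.carrier} {g : N.carrier →L[ℂ] P.carrier}
    (hg : RH N P g) (hf : RH M N f) : RH M P (g.comp f) := fun a x => by
  rw [ContinuousLinearMap.comp_apply, hf, hg]
  rfl

lemma RH.sub {M N : BMod A} {f g : M.carrier →L[ℂ] N.carrier}
    (hf : RH M N f) (hg : RH M N g) : RH M N (f - g) := fun a x => by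
  show f (M.right a x) - g (M.right a x) = N.right a (f x - g x)
  rw [hf, hg, right_sub]

lemma RH.id (M : BMod A) : RH M M (ContinuousLinearMap.id ℂ M.carrier) := fun _ _ => rfl

/-- The submodule of pairs with the same image. -/
def pbSub {P Y Z : BMod A} (D : Y.carrier →L[ℂ] Z.carrier) (φ : P.carrier →L[ℂ] Z.carrier) :
    Submodule ℂ (Y.carrier × P.carrier) where
  carrier := {q | D q.1 = φ q.2}
  add_mem' := by
    intro a b ha hb
    show D (a.1 + b.1) = φ (a.2 + b.2)
    rw [map_add, map_add, ha, hb]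
  zero_mem' := by
    show D 0 = φ 0
    rw [map_zero, map_zero]
  smul_mem' := by
    intro c a ha
    show D (c • a.1) = φ (c • a.2)
    rw [map_smul, map_smul, ha]

/-- The pullback bimodule. -/
noncomputable def pb {P Y Z : BMod A} (D : Y.carrier →L[ℂ] Z.carrier)
    (φ : P.carrier →L[ℂ] Z.carrier) (hD : BMod.IsHom Y Z D) (hφ : BMod.IsHom P Z φ) : BMod A where
  carrier := pbSub D φ
  cpl := by
    have h1 : IsClosed (pbSub D φ : Set (Y.carrier × P.carrier)) :=
      isClosed_eq (D.continuous.comp continuous_fst) (φ.continuous.comp continuous_snd)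
    exact h1.completeSpace_coe
  left := fun a q => ⟨(Y.left a q.1.1, P.left a q.1.2), by
    show D (Y.left a q.1.1) = φ (P.left a q.1.2)
    have h : D q.1.1 = φ q.1.2 := q.2
    rw [hD.2.1, hφ.2.1, h]⟩
  right := fun a q => ⟨(Y.right a q.1.1, P.right a q.1.2), by
    show D (Y.right a q.1.1) = φ (P.right a q.1.2)
    have h : D q.1.1 = φ q.1.2 := q.2
    rw [hD.2.2, hφ.2.2, h]⟩
  left_bdd := by
    obtain ⟨C1, hC1, h1⟩ := Y.left_bdd.bound
    obtain ⟨C2, hC2, h2⟩ := P.left_bdd.bound
    refine ⟨?_, ?_, ?_, ?_, ⟨max C1 C2, lt_max_of_lt_left hC1, ?_⟩⟩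
    · intro a b q
      exact Subtype.ext (Prod.ext (Y.left_bdd.add_left a b q.1.1) (P.left_bdd.add_left a b q.1.2))
    · intro c a q
      exact Subtype.ext (Prod.ext (Y.left_bdd.smul_left c a q.1.1) (P.left_bdd.smul_left c a q.1.2))
    · intro a q r
      exact Subtype.ext (Prod.ext (Y.left_bdd.add_right a q.1.1 r.1.1)
        (P.left_bdd.add_right a q.1.2 r.1.2))
    · intro c a q
      exact Subtype.ext (Prod.ext (Y.left_bdd.smul_right c a q.1.1)
        (P.left_bdd.smul_right c a q.1.2))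
    · intro a q
      have h3 : ‖q.1.1‖ ≤ ‖q‖ := norm_fst_le q.1
      have h4 : ‖q.1.2‖ ≤ ‖q‖ := norm_snd_le q.1
      refine max_le ?_ ?_
      · refine (h1 a q.1.1).trans ?_
        exact mul_le_mul (mul_le_mul_of_nonneg_right (le_max_left _ _) (norm_nonneg _)) h3
          (norm_nonneg _) (by positivity)
      · refine (h2 a q.1.2).trans ?_
        exact mul_le_mul (mul_le_mul_of_nonneg_right (le_max_right _ _) (norm_nonneg _)) h4
          (norm_nonneg _) (by positivity)
  right_bdd := by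
    obtain ⟨C1, hC1, h1⟩ := Y.right_bdd.bound
    obtain ⟨C2, hC2, h2⟩ := P.right_bdd.bound
    refine ⟨?_, ?_, ?_, ?_, ⟨max C1 C2, lt_max_of_lt_left hC1, ?_⟩⟩
    · intro a b q
      exact Subtype.ext (Prod.ext (Y.right_bdd.add_left a b q.1.1)
        (P.right_bdd.add_left a b q.1.2))
    · intro c a q
      exact Subtype.ext (Prod.ext (Y.right_bdd.smul_left c a q.1.1)
        (P.right_bdd.smul_left c a q.1.2))
    · intro a q r
      exact Subtype.ext (Prod.ext (Y.right_bdd.add_right a q.1.1 r.1.1)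
        (P.right_bdd.add_right a q.1.2 r.1.2))
    · intro c a q
      exact Subtype.ext (Prod.ext (Y.right_bdd.smul_right c a q.1.1)
        (P.right_bdd.smul_right c a q.1.2))
    · intro a q
      have h3 : ‖q.1.1‖ ≤ ‖q‖ := norm_fst_le q.1
      have h4 : ‖q.1.2‖ ≤ ‖q‖ := norm_snd_le q.1
      refine max_le ?_ ?_
      · refine (h1 a q.1.1).trans ?_
        exact mul_le_mul (mul_le_mul_of_nonneg_right (le_max_left _ _) (norm_nonneg _)) h3
          (norm_nonneg _) (by positivity)
      · refine (h2 a q.1.2).trans ?_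
        exact mul_le_mul (mul_le_mul_of_nonneg_right (le_max_right _ _) (norm_nonneg _)) h4
          (norm_nonneg _) (by positivity)
  left_mul := fun a b q => Subtype.ext (Prod.ext (Y.left_mul a b q.1.1) (P.left_mul a b q.1.2))
  right_mul := fun a b q => Subtype.ext (Prod.ext (Y.right_mul a b q.1.1) (P.right_mul a b q.1.2))
  left_right := fun a b q =>
    Subtype.ext (Prod.ext (Y.left_right a b q.1.1) (P.left_right a b q.1.2))

/-- The lifting property of projective bimodules. -/
theorem proj_lifts {P : BMod A} (hP : P.Projective) {Y Z : BMod A}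
    (D : Y.carrier →L[ℂ] Z.carrier) (φ : P.carrier →L[ℂ] Z.carrier)
    (σ : Z.carrier →L[ℂ] Y.carrier) (hD : BMod.IsHom Y Z D) (hφ : BMod.IsHom P Z φ)
    (h : ∀ p, D (σ (φ p)) = φ p) :
    ∃ ψ : P.carrier →L[ℂ] Y.carrier, BMod.IsHom P Y ψ ∧ ∀ p, D (ψ p) = φ p := by
  have h1 : IsBoundedLinearMap ℂ (fun q : (pb D φ hD hφ).carrier => q.1.2) :=
    ((ContinuousLinearMap.snd ℂ Y.carrier P.carrier).comp
      (pbSub D φ).subtypeL).isBoundedLinearMap
  have h2 : IsBoundedLinearMap ℂ (fun q : (pb D φ hD hφ).carrier => q.1.1) :=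
    ((ContinuousLinearMap.fst ℂ Y.carrier P.carrier).comp
      (pbSub D φ).subtypeL).isBoundedLinearMap
  have h3 : Admissible (fun q : (pb D φ hD hφ).carrier => q.1.2) := by
    refine ⟨fun p => ⟨(σ (φ p), p), h p⟩, ?_, fun _ => rfl⟩
    let e : P.carrier →L[ℂ] Y.carrier × P.carrier :=
      (σ.comp φ).prod (ContinuousLinearMap.id ℂ P.carrier)
    exact (e.codRestrict (pbSub D φ) (fun p => h p)).isBoundedLinearMap
  obtain ⟨ψ, hψ, hψ2⟩ := hP (pb D φ hD hφ) P (fun q => q.1.2) (fun p => p)
    ⟨h1, fun _ _ => rfl, fun _ _ => rfl⟩ h3 ⟨IsBoundedLinearMap.id, fun _ _ => rfl, fun _ _ => rfl⟩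
  have h4 : IsBoundedLinearMap ℂ (fun p => (ψ p).1.1) := h2.comp hψ.1
  refine ⟨h4.toContinuousLinearMap, ⟨h4, fun a x => ?_, fun a x => ?_⟩, fun p => ?_⟩
  · show (ψ (P.left a x)).1.1 = Y.left a (ψ x).1.1
    exact congrArg (fun q : (pb D φ hD hφ).carrier => q.1.1) (hψ.2.1 a x)
  · show (ψ (P.right a x)).1.1 = Y.right a (ψ x).1.1
    exact congrArg (fun q : (pb D φ hD hφ).carrier => q.1.1) (hψ.2.2 a x)
  · have h5 : D (ψ p).1.1 = φ (ψ p).1.2 := (ψ p).2
    show D (ψ p).1.1 = φ p
    rw [h5, hψ2]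

end gen

section cind

variable {A : Type u} [NonUnitalNormedRing A] [NormedSpace ℂ A] [IsScalarTower ℂ A A]
  [SMulCommClass ℂ A A]

/-- Right multiplication on the unitization. -/
noncomputable def pr (A : Type u) [NonUnitalNormedRing A] [NormedSpace ℂ A] [IsScalarTower ℂ A A]
    [SMulCommClass ℂ A A] : A →L[ℂ] Plus A →L[ℂ] Plus A :=
  (plusRight_bdd (A := A)).toContinuousLinearMap

lemma pr_apply (a : A) (x : Plus A) : pr A a x = plusRight a x := rfl

/-- The coinduced bimodule. -/
noncomputable def co (Y : BMod A) : BMod A where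
  carrier := Plus A →L[ℂ] Y.carrier
  left := fun a T => T.comp (pr A a)
  right := fun a T => (rc Y a).comp T
  left_bdd := ((ContinuousLinearMap.compL ℂ (Plus A) (Plus A) Y.carrier).flip.comp
    (pr A)).isBoundedBilinearMap
  right_bdd := ((ContinuousLinearMap.compL ℂ (Plus A) Y.carrier Y.carrier).comp
    (rc Y)).isBoundedBilinearMap
  left_mul := fun a b T => by
    ext x
    show T (plusRight (a * b) x) = T (plusRight b (plusRight a x))
    rw [plusRight_mul]
  right_mul := fun a b T => by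
    ext x
    exact Y.right_mul a b (T x)
  left_right := fun a b T => rfl

/-- The action of the unitization on a bimodule. -/
noncomputable def pa (P : BMod A) : P.carrier →L[ℂ] Plus A →L[ℂ] P.carrier :=
  ((ContinuousLinearMap.lsmul ℂ ℂ : ℂ →L[ℂ] P.carrier →L[ℂ] P.carrier).comp
    (WithLp.fstL 1 ℂ ℂ A) + (lc P).comp (WithLp.sndL 1 ℂ ℂ A)).flip

lemma pa_apply (P : BMod A) (p : P.carrier) (x : Plus A) :
    pa P p x = x.fst • p + P.left x.snd p := rfl

lemma pa_left (P : BMod A) (a : A) (p : P.carrier) (x : Plus A) :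
    pa P (P.left a p) x = pa P p (plusRight a x) := by
  rw [pa_apply, pa_apply]
  show x.fst • P.left a p + P.left x.snd (P.left a p) =
    (0 : ℂ) • p + P.left (x.fst • a + x.snd * a) p
  have h1 : P.left (x.fst • a + x.snd * a) p = x.fst • P.left a p + P.left (x.snd * a) p := by
    show lc P (x.fst • a + x.snd * a) p = x.fst • lc P a p + lc P (x.snd * a) p
    rw [map_add, map_smul]
    rfl
  rw [h1, P.left_mul, zero_smul, zero_add]

lemma pa_right (P : BMod A) (a : A) (p : P.carrier) (x : Plus A) :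
    pa P (P.right a p) x = P.right a (pa P p x) := by
  rw [pa_apply, pa_apply]
  have h1 : P.right a (x.fst • p + P.left x.snd p) =
      x.fst • P.right a p + P.right a (P.left x.snd p) := by
    show rc P a (x.fst • p + P.left x.snd p) = x.fst • rc P a p + rc P a (P.left x.snd p)
    rw [map_add, map_smul]
  rw [h1, P.left_right]

/-- The unit of the unitization. -/
noncomputable def one (A : Type u) [NonUnitalNormedRing A] [NormedSpace ℂ A] : Plus A :=
  WithLp.toLp 1 ((1 : ℂ), (0 : A))

lemma pa_one (P : BMod A) (p : P.carrier) : pa P p (one A) = p := by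
  rw [pa_apply]
  show (1 : ℂ) • p + P.left 0 p = p
  have h1 : P.left 0 p = 0 := by
    show lc P 0 p = 0
    rw [map_zero]
    rfl
  rw [h1, one_smul, add_zero]

/-- Right lifting property of projective bimodules. -/
theorem rlifts {P : BMod A} (hP : P.Projective) {Y Z : BMod A}
    (D : Y.carrier →L[ℂ] Z.carrier) (φ : P.carrier →L[ℂ] Z.carrier)
    (σ : Z.carrier →L[ℂ] Y.carrier) (hD : RH Y Z D) (hφ : RH P Z φ)
    (h : ∀ p, D (σ (φ p)) = φ p) :
    ∃ ψ : P.carrier →L[ℂ] Y.carrier, RH P Y ψ ∧ ∀ p, D (ψ p) = φ p := by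
  let D' : (co Y).carrier →L[ℂ] (co Z).carrier :=
    ContinuousLinearMap.compL ℂ (Plus A) Y.carrier Z.carrier D
  let σ' : (co Z).carrier →L[ℂ] (co Y).carrier :=
    ContinuousLinearMap.compL ℂ (Plus A) Z.carrier Y.carrier σ
  let φ' : P.carrier →L[ℂ] (co Z).carrier :=
    (ContinuousLinearMap.compL ℂ (Plus A) P.carrier Z.carrier φ).comp (pa P)
  have hD' : BMod.IsHom (co Y) (co Z) D' := by
    refine ⟨D'.isBoundedLinearMap, fun a T => rfl, fun a T => ?_⟩
    refine ContinuousLinearMap.ext fun x => ?_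
    exact hD a ((show Plus A →L[ℂ] Y.carrier from T) x)
  have hφ' : BMod.IsHom P (co Z) φ' := by
    refine ⟨φ'.isBoundedLinearMap, fun a p => ?_, fun a p => ?_⟩
    · refine ContinuousLinearMap.ext fun x => ?_
      exact congrArg φ (pa_left P a p x)
    · refine ContinuousLinearMap.ext fun x => ?_
      exact (congrArg φ (pa_right P a p x)).trans (hφ a (pa P p x))
  obtain ⟨ψ', hψ1, hψ2⟩ := proj_lifts hP D' φ' σ' hD' hφ' (fun p =>
    ContinuousLinearMap.ext fun x => h (pa P p x))
  let ev : (co Y).carrier →L[ℂ] Y.carrier := ContinuousLinearMap.apply ℂ Y.carrier (one A)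
  refine ⟨ev.comp ψ', fun a p => ?_, fun p => ?_⟩
  · exact congrArg ev (hψ1.2.2 a p)
  · have h1 : D (ev (ψ' p)) = (show Plus A →L[ℂ] Z.carrier from φ' p) (one A) :=
      congrArg (fun T : Plus A →L[ℂ] Z.carrier => T (one A)) (hψ2 p)
    refine h1.trans ?_
    exact congrArg φ (pa_one P p)

omit [IsScalarTower ℂ A A] [SMulCommClass ℂ A A] in
lemma right_comb (Y : BMod A) (a b : A) (r : ℂ) (y : Y.carrier) :
    Y.right (r • a + b * a) y = r • Y.right a y + Y.right a (Y.right b y) := by
  have h1 : Y.right (r • a + b * a) y = r • Y.right a y + Y.right (b * a) y := by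
    show rc Y (r • a + b * a) y = r • rc Y a y + rc Y (b * a) y
    rw [map_add, map_smul]
    rfl
  rw [h1, Y.right_mul]

omit [IsScalarTower ℂ A A] [SMulCommClass ℂ A A] in
lemma right_comb' (Y : BMod A) (a : A) (r : ℂ) (y z : Y.carrier) :
    Y.right a (r • y + z) = r • Y.right a y + Y.right a z := by
  show rc Y a (r • y + z) = r • rc Y a y + rc Y a z
  rw [map_add, map_smul]

variable [CompleteSpace A]

/-- Right lifting property of the unitization. -/
theorem rlifts_plus {Y Z : BMod A}
    (D : Y.carrier →L[ℂ] Z.carrier) (φ : (plusBMod A).carrier →L[ℂ] Z.carrier)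
    (σ : Z.carrier →L[ℂ] Y.carrier) (hD : RH Y Z D) (hφ : RH (plusBMod A) Z φ)
    (h : ∀ p, D (σ (φ p)) = φ p) :
    ∃ ψ : (plusBMod A).carrier →L[ℂ] Y.carrier, RH (plusBMod A) Y ψ ∧ ∀ p, D (ψ p) = φ p := by
  let y0 : Y.carrier := σ (φ (one A))
  have hy0 : D y0 = φ (one A) := h (one A)
  let ψ : Plus A →L[ℂ] Y.carrier :=
    (ContinuousLinearMap.toSpanSingleton ℂ y0).comp (WithLp.fstL 1 ℂ ℂ A) +
      ((rc Y).flip y0).comp (WithLp.sndL 1 ℂ ℂ A)
  have hψ : ∀ x : Plus A, ψ x = x.fst • y0 + Y.right x.snd y0 := fun _ => rfl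
  let φ' : Plus A →L[ℂ] Z.carrier := φ
  have hφ' : ∀ (a : A) (x : Plus A), φ' (plusRight a x) = Z.right a (φ' x) := hφ
  have hy1 : D y0 = φ' (one A) := hy0
  have k1 : ∀ (a : A) (x : Plus A), ψ (plusRight a x) = Y.right a (ψ x) := by
    intro a x
    have e1 : ψ (plusRight a x) = (0 : ℂ) • y0 + Y.right (x.fst • a + x.snd * a) y0 := rfl
    rw [e1, hψ, right_comb, zero_smul, zero_add, right_comb']
  have k2 : ∀ x : Plus A, D (ψ x) = φ' x := by
    intro x
    have e3 : x = x.fst • one A + plusRight x.snd (one A) := by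
      refine plus_ext ?_ ?_
      · show x.fst = x.fst * 1 + 0
        rw [mul_one, add_zero]
      · show x.snd = x.fst • (0 : A) + ((1 : ℂ) • x.snd + 0 * x.snd)
        rw [smul_zero, one_smul, zero_mul, add_zero, zero_add]
    have e4 : φ' x = φ' (x.fst • one A + plusRight x.snd (one A)) := congrArg φ' e3
    rw [hψ, map_add, map_smul, hD, hy1, e4, map_add, map_smul, hφ']
  exact ⟨ψ, k1, k2⟩

end cind

end Pool.Agent.W667.BD
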