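import Pool.Agent.W667.LE
import Pool.Agent.H203R3.BH.Defs

set_option autoImplicit false
set_option linter.unusedSectionVars false

/-!
The group algebra `L¹(G)` of a locally compact group `G` and its augmentation module.
-/

namespace Pool.Agent.W667

open MeasureTheory Pool.Agent.Helper832.CD

universe u

section cnv

variable {G : Type u} [TopologicalSpace G] [Group G] [IsTopologicalGroup G] [T2Space G]
  [MeasurableSpace G] [BorelSpace G]
  {μ : Measure G} [IsLocallyFiniteMeasure μ] [μ.Regular] [μ.IsMulLeftInvariant]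

/-- The convolution product of `a` and `b`: the Bochner integral `∫ a(x) (L_x b) dμ(x)` of the left
translates `L_x b : y ↦ b(x⁻¹ y)` of `b`. -/
noncomputable def conv (a b : Lp ℂ 1 μ) : Lp ℂ 1 μ := ∫ x, a x • (DomMulAct.mk x⁻¹ • b) ∂μ

lemma conv_eq (a b : Lp ℂ 1 μ) : conv a b = cv a b := (cv_eq a b).symm

lemma conv_add_left (a b c : Lp ℂ 1 μ) : conv (a + b) c = conv a c + conv b c := by
  rw [conv_eq, conv_eq, conv_eq, cv_add_left]

lemma conv_add_right (a b c : Lp ℂ 1 μ) : conv a (b + c) = conv a b + conv a c := by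
  rw [conv_eq, conv_eq, conv_eq, cv_add_right]

lemma conv_zero_left (a : Lp ℂ 1 μ) : conv (0 : Lp ℂ 1 μ) a = 0 := by
  rw [conv_eq, cv_zero_left]

lemma conv_zero_right (a : Lp ℂ 1 μ) : conv a (0 : Lp ℂ 1 μ) = 0 := by
  rw [conv_eq, cv_zero_right]

lemma conv_smul_left (c : ℂ) (a b : Lp ℂ 1 μ) : conv (c • a) b = c • conv a b := by
  rw [conv_eq, conv_eq, cv_smul_left]

lemma conv_smul_right (c : ℂ) (a b : Lp ℂ 1 μ) : conv a (c • b) = c • conv a b := by
  rw [conv_eq, conv_eq, cv_smul_right]

lemma conv_assoc (a b c : Lp ℂ 1 μ) : conv (conv a b) c = conv a (conv b c) := by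
  rw [conv_eq, conv_eq, conv_eq, conv_eq, cv_assoc]

lemma norm_conv_le (a b : Lp ℂ 1 μ) : ‖conv a b‖ ≤ ‖a‖ * ‖b‖ := by
  rw [conv_eq]
  exact norm_cv_le a b

lemma int_conv (a b : Lp ℂ 1 μ) : ∫ t, conv a b t ∂μ = (∫ t, a t ∂μ) * ∫ t, b t ∂μ := by
  rw [conv_eq]
  exact int_cv a b

end cnv

/-- The space `L¹(G)` of (classes of) functions integrable with respect to `μ`. -/
def GA {G : Type u} [MeasurableSpace G] (μ : Measure G) : Type u := Lp ℂ 1 μ

section alg

variable {G : Type u} [MeasurableSpace G] (μ : Measure G)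

/-- The `L¹` norm. -/
noncomputable instance instNACG : NormedAddCommGroup (GA μ) := Lp.instNormedAddCommGroup

noncomputable instance instNS : NormedSpace ℂ (GA μ) := Lp.instNormedSpace

instance instCS : CompleteSpace (GA μ) := Lp.instCompleteSpace

variable [TopologicalSpace G] [Group G] [IsTopologicalGroup G] [T2Space G] [BorelSpace G]
  [IsLocallyFiniteMeasure μ] [μ.Regular] [μ.IsMulLeftInvariant]

/-- The group algebra `L¹(G)`, with the convolution product. -/
noncomputable instance instNUNR : NonUnitalNormedRing (GA μ) :=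
  { instNACG μ with
    mul := fun a b => conv (μ := μ) a b
    left_distrib := conv_add_right (μ := μ)
    right_distrib := conv_add_left (μ := μ)
    zero_mul := conv_zero_left (μ := μ)
    mul_zero := conv_zero_right (μ := μ)
    mul_assoc := conv_assoc (μ := μ)
    norm_mul_le := norm_conv_le (μ := μ) }

lemma ga_mul (a b : GA μ) : (a * b : GA μ) = (cv (μ := μ) a b : Lp ℂ 1 μ) := conv_eq (μ := μ) a b

instance instIST : IsScalarTower ℂ (GA μ) (GA μ) := ⟨conv_smul_left (μ := μ)⟩

instance instSCC : SMulCommClass ℂ (GA μ) (GA μ) :=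
  ⟨fun c a b => (conv_smul_right (μ := μ) c a b).symm⟩

/-- The integral of an element of `L¹(G)`. -/
noncomputable def integ (f : GA μ) : ℂ := ∫ t, (show Lp ℂ 1 μ from f) t ∂μ

/-- The augmentation character. -/
noncomputable def augc : GA μ →L[ℂ] ℂ := II μ ℂ

lemma integ_eq (f : GA μ) : integ μ f = augc μ f := rfl

lemma augc_mul (a b : GA μ) : augc μ (a * b) = augc μ a * augc μ b :=
  (congrArg (augc μ) (ga_mul μ a b)).trans (int_cv (μ := μ) a b)

lemma aug_bdd : IsBoundedBilinearMap ℂ (fun p : GA μ × ULift.{u} ℂ => integ μ p.1 • p.2) :=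
  ((ContinuousLinearMap.lsmul ℂ ℂ : ℂ →L[ℂ] ULift.{u} ℂ →L[ℂ] ULift.{u} ℂ).comp
    (augc μ)).isBoundedBilinearMap

lemma aug_mul (f g : GA μ) (z : ULift.{u} ℂ) :
    integ μ (f * g) • z = integ μ f • integ μ g • z := by
  rw [integ_eq, integ_eq, integ_eq, augc_mul, mul_smul]

/-- The augmentation module: `ℂ` with the action `f z = (∫ f) z`. -/
noncomputable def Aug : LMod (GA μ) where
  carrier := ULift.{u} ℂ
  act f z := integ μ f • z
  bdd := aug_bdd μ
  act_mul := aug_mul μ

end alg

end Pool.Agent.W667
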